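import Mathlib

set_option autoImplicit false
set_option linter.unusedSectionVars false

/-!
# MZ71/Carve: greedy partition into pieces with small boundary
-/

namespace Pool.Agent.MZ71

open Classical in
/-- PROOF.  Show by strong induction on `U.card`, for all `U ⊆ V`: there is `c : Ω → Ω` with
`∀ v ∈ U, ∃ f ∈ F, f • c v = v` and
`N * (U.filter fun v => ∃ e ∈ E, e • v ∈ U ∧ c (e • v) ≠ c v).card ≤ U.card`.
`U = ∅`: `c = id`.  Otherwise take `A ⊆ U` and the centre `u` from the hypothesis, `c'` for `U \ A`
(smaller because `A` is nonempty), and `c v = if v ∈ A then u else c' v`.  A bad `v ∈ U` (moved by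
some `e ∈ E` to `e • v ∈ U` with another label) is either in `A` and then `e • v ∈ U \ A` (as all
labels on `A` are `u`), or in `U \ A` with `e • v ∈ A`, or in `U \ A` with `e • v ∈ U \ A` and bad
for `c'`.  So the bad set is contained in the union of the three sets, and
`N * bad ≤ A.card + (U \ A).card = U.card`. -/
theorem carve {Ω Γ : Type*} [Group Γ] [MulAction Γ Ω] (E F : Finset Γ) (V : Finset Ω) (N : ℕ)
    (hyp : ∀ U : Finset Ω, U ⊆ V → U.Nonempty → ∃ A : Finset Ω, A ⊆ U ∧ A.Nonempty ∧
      (∃ u : Ω, ∀ a ∈ A, ∃ f ∈ F, f • u = a) ∧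
      N * ((A.filter fun a => ∃ e ∈ E, e • a ∈ U \ A).card +
        ((U \ A).filter fun b => ∃ e ∈ E, e • b ∈ A).card) ≤ A.card) :
    ∃ c : Ω → Ω, (∀ v ∈ V, ∃ f ∈ F, f • c v = v) ∧
      N * (V.filter fun v => ∃ e ∈ E, e • v ∈ V ∧ c (e • v) ≠ c v).card ≤ V.card := by
  have key : ∀ U : Finset Ω, U ⊆ V → ∃ c : Ω → Ω, (∀ v ∈ U, ∃ f ∈ F, f • c v = v) ∧
      N * (U.filter fun v => ∃ e ∈ E, e • v ∈ U ∧ c (e • v) ≠ c v).card ≤ U.card := by
    intro U
    induction U using Finset.strongInduction with
    | H U ih =>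
      intro hUV
      rcases U.eq_empty_or_nonempty with h0 | hne
      · subst h0
        exact ⟨id, by simp, by simp⟩
      obtain ⟨A, hAU, hAne, ⟨u, hu⟩, hA⟩ := hyp U hUV hne
      have hss : U \ A ⊂ U := by
        refine ⟨Finset.sdiff_subset, ?_⟩
        intro hcon
        obtain ⟨a, ha⟩ := hAne
        exact (Finset.mem_sdiff.1 (hcon (hAU ha))).2 ha
      obtain ⟨c', hc1, hc2⟩ := ih (U \ A) hss (Finset.sdiff_subset.trans hUV)
      refine ⟨fun v => if v ∈ A then u else c' v, ?_, ?_⟩
      · intro v hv
        by_cases hvA : v ∈ A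
        · simp only [hvA, if_true]
          exact hu v hvA
        · simp only [hvA, if_false]
          exact hc1 v (Finset.mem_sdiff.2 ⟨hv, hvA⟩)
      · have hsub : (U.filter fun v => ∃ e ∈ E, e • v ∈ U ∧
            (if e • v ∈ A then u else c' (e • v)) ≠ (if v ∈ A then u else c' v)) ⊆
            ((A.filter fun a => ∃ e ∈ E, e • a ∈ U \ A) ∪
            ((U \ A).filter fun b => ∃ e ∈ E, e • b ∈ A)) ∪
            ((U \ A).filter fun v => ∃ e ∈ E, e • v ∈ U \ A ∧ c' (e • v) ≠ c' v) := by
          intro v hv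
          obtain ⟨hvU, e, he, heU, hne'⟩ := Finset.mem_filter.1 hv
          by_cases hvA : v ∈ A
          · have hevA : e • v ∉ A := by
              intro h
              rw [if_pos h, if_pos hvA] at hne'
              exact hne' rfl
            refine Finset.mem_union_left _ (Finset.mem_union_left _ ?_)
            exact Finset.mem_filter.2 ⟨hvA, e, he, Finset.mem_sdiff.2 ⟨heU, hevA⟩⟩
          · by_cases hevA : e • v ∈ A
            · refine Finset.mem_union_left _ (Finset.mem_union_right _ ?_)
              exact Finset.mem_filter.2 ⟨Finset.mem_sdiff.2 ⟨hvU, hvA⟩, e, he, hevA⟩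
            · refine Finset.mem_union_right _ ?_
              rw [if_neg hevA, if_neg hvA] at hne'
              exact Finset.mem_filter.2 ⟨Finset.mem_sdiff.2 ⟨hvU, hvA⟩, e, he,
                Finset.mem_sdiff.2 ⟨heU, hevA⟩, hne'⟩
        have h1 := Finset.card_le_card hsub
        have h2 := h1.trans (Finset.card_union_le _ _)
        have h3 := Finset.card_union_le (A.filter fun a => ∃ e ∈ E, e • a ∈ U \ A)
          ((U \ A).filter fun b => ∃ e ∈ E, e • b ∈ A)
        have h4 := h2.trans (Nat.add_le_add_right h3 _)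
        have h5 := Nat.mul_le_mul_left N h4
        rw [mul_add] at h5
        have h6 : A.card + (U \ A).card = U.card := by
          have := Finset.card_sdiff_add_card_eq_card hAU
          omega
        calc N * (U.filter fun v => ∃ e ∈ E, e • v ∈ U ∧
              (if e • v ∈ A then u else c' (e • v)) ≠ (if v ∈ A then u else c' v)).card
            ≤ _ := h5
          _ ≤ A.card + (U \ A).card := Nat.add_le_add hA hc2
          _ = U.card := h6
  exact key V (Finset.Subset.refl V)

end Pool.Agent.MZ71
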