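import Mathlib
import Pool.Agent.RB61.Half
import Pool.Agent.RB61.Gath
import Pool.Agent.RB61.BSec
import Pool.Agent.RB61.Cls
import Pool.Agent.RB61.Letters
import Pool.Agent.RB61.Roots
import Pool.Agent.RB61.FolGr

set_option autoImplicit false
set_option linter.unusedSectionVars false

/-!
# MZ71/Defs: definitions and the calculus of the values  (COMPLETE FILE)

Project MZ71 (MP_d14c4c_al): finite commutator width of regular branch groups with hyperfinite
level actions and measure-zero singular points (no contraction, no finite automaton, no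
amenability).  It is built on RB61 (helper61) and CB71.

`Tr X` is the group of the permutations of the words `List X`; `SelfSimilar`, `IsSection`,
`LevelTransitive`, `ContainsPower` are in `Pool.Agent.CB71.Tree`; `sec hG g v : G` is the section of
`g : G` at the word `v`; `InsG n k g`: `g` fixes the words of length `n` and its section at such a
word `v` is `k v`; `Br G K`: self-similarity and insertion of elements of `K`; `PG K n`: the elements
inserted at level `n` with values in `K`; `rtG H v`: the representative of the `H`-orbit of `v`;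
`secG hG H v`: the group of the sections at `v` of the elements of `H` fixing `v`; `CK K n`: products
of `n` commutators of elements of `K`; `R K S M`: elements `⁅s₁, m₁⁆ ⋯ ⁅s_k, m_k⁆ κ`,
`S = [s₁, …, s_k]`, `m_i ∈ K`, `κ ∈ CK K M`; `Ap K n x y`: `x = y c` with `c ∈ CK K n`
(`Pool.Agent.RB61.Ap`).
-/

namespace Pool.Agent.MZ71

open scoped commutatorElement
open Pool.Agent.CW71 Pool.Agent.CB71 Pool.Agent.RB61

variable {X : Type}

/-- **Measure-zero singular points.**  For every `g` in the group the proportion of the words `v`
of length `n` with `g v = v` below which `g` acts nontrivially becomes arbitrarily small: for every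
`N` there is `n` such that there are at most `|X|^n / N` such words of length `n`.  (The set of the
points of the boundary fixed by `g` at which the germ of `g` is nontrivial has measure zero.) -/
def MeasureZeroSingular (G : Subgroup (Tr X)) : Prop :=
  ∀ g ∈ G, ∀ N : ℕ, ∃ n : ℕ,
    N * {v : List X | v.length = n ∧ g v = v ∧ ∃ w : List X, g (v ++ w) ≠ v ++ w}.ncard ≤
      Nat.card X ^ n

/-- **Hyperfinite level actions.**  For every finite subset `E` of the group and every `N` there is
a finite set `F` of elements of the subgroup generated by `E`, such that for arbitrarily large `n`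
the set of the words of length `n` has a partition into pieces (given by a labelling `c`: the pieces
are the sets of the words with the same label) such that the piece with the label `u` is contained in
`F u` and at most `|X|^n / N` words `v` are moved into another piece by some element of `E`. -/
def HyperfiniteLevels (G : Subgroup (Tr X)) : Prop :=
  ∀ (E : Finset G) (N : ℕ), ∃ F : Finset G, (∀ f ∈ F, f ∈ Subgroup.closure (E : Set G)) ∧
    ∀ n₀ : ℕ, ∃ n, n₀ ≤ n ∧ ∃ c : List X → List X,
      (∀ v : List X, v.length = n → ∃ f ∈ F, (f : Tr X) (c v) = v) ∧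
      N * {v : List X | v.length = n ∧ ∃ e ∈ E, c ((e : Tr X) v) ≠ c v}.ncard ≤ Nat.card X ^ n

variable {G : Subgroup (Tr X)}

/-- the value of `g` at the word `v` with respect to the transports `t`: the section at `t v • v`
of `t (g • v) * g * (t v)⁻¹` -/
noncomputable def eta (hG : SelfSimilar G) (t : List X → G) (g : G) (v : List X) : G :=
  sec hG (t (g • v)) (g • v) * sec hG g v * (sec hG (t v) v)⁻¹

/-- transports to the representatives of the orbits of `H` -/
structure Trn (H : Subgroup G) (t : List X → G) : Prop where
  mem : ∀ v, t v ∈ H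
  act : ∀ v, t v • v = rtG H v

/-- the list `l` enumerates the words of length `n` in the `H`-orbit of the representative `r` -/
structure Orb (H : Subgroup G) (n : ℕ) (r : List X) (l : List (List X)) : Prop where
  len : r.length = n
  rt : rtG H r = r
  nd : l.Nodup
  mem : ∀ u, u ∈ l ↔ (u.length = n ∧ rtG H u = r)

section eta

variable (hG : SelfSimilar G) (t : List X → G)

lemma eta_mul (g h : G) (v : List X) :
    eta hG t (g * h) v = eta hG t g (h • v) * eta hG t h v := by
  unfold eta
  rw [sec_mul, mul_smul]
  group

lemma eta_one (v : List X) : eta hG t 1 v = 1 := by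
  unfold eta
  rw [sec_one, one_smul]
  group

lemma eta_inv (g : G) (v : List X) : eta hG t g⁻¹ v = (eta hG t g (g⁻¹ • v))⁻¹ := by
  have h := eta_mul hG t g g⁻¹ v
  rw [mul_inv_cancel, eta_one] at h
  exact (inv_eq_of_mul_eq_one_right h.symm).symm

lemma eta_inv_smul (g : G) (v : List X) : eta hG t g⁻¹ (g • v) = (eta hG t g v)⁻¹ := by
  rw [eta_inv, inv_smul_smul]

variable {t} {H : Subgroup G}

/-- the values of elements of `H` are sections of elements of `H` fixing the representative -/
lemma eta_mem (ht : Trn H t) {g : G} (hg : g ∈ H) (v : List X) :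
    eta hG t g v ∈ secG hG H (rtG H v) := by
  have e1 : (t v)⁻¹ • rtG H v = v := by rw [← ht.act v, inv_smul_smul]
  refine ⟨t (g • v) * g * (t v)⁻¹, H.mul_mem (H.mul_mem (ht.mem _) hg) (H.inv_mem (ht.mem _)),
    ?_, ?_⟩
  · rw [mul_smul, mul_smul, e1, ht.act, rtG_act hg]
  · have e2 : sec hG (t v)⁻¹ (rtG H v) = (sec hG (t v) v)⁻¹ := by
      have := sec_inv hG (t v) v
      rwa [ht.act] at this
    rw [sec_mul, sec_mul, e1, e2]
    rfl

lemma eta_mem_orb {n : ℕ} {r : List X} {l : List (List X)} (hO : Orb H n r l) (ht : Trn H t)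
    {g : G} (hg : g ∈ H) {v : List X} (hv : v ∈ l) : eta hG t g v ∈ secG hG H r := by
  have h := eta_mem hG ht hg v
  rwa [((hO.mem v).1 hv).2] at h

lemma Orb.smul_mem (hG : SelfSimilar G) {n : ℕ} {r : List X} {l : List (List X)}
    (hO : Orb H n r l) {g : G} (hg : g ∈ H) {v : List X} (hv : v ∈ l) : g • v ∈ l := by
  rw [hO.mem] at hv ⊢
  exact ⟨by rw [len_act hG, hv.1], by rw [rtG_act hg, hv.2]⟩

variable {K : Subgroup G} [hKn : K.Normal] {n : ℕ}

/-- the values of an element of `PG K n` -/
lemma eta_PG (t : List X → G) {i : G} (hi : i ∈ PG K n) {v : List X} (hv : v.length = n) :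
    eta hG t i v = sec hG (t v) v * sec hG i v * (sec hG (t v) v)⁻¹ := by
  unfold eta
  rw [PG_fix hG hi hv]

lemma eta_PG_mem (t : List X → G) {i : G} (hi : i ∈ PG K n) {v : List X} (hv : v.length = n) :
    eta hG t i v ∈ K := by
  rw [eta_PG hG t hi hv]
  exact hKn.conj_mem _ (PG_sec hG hi hv) _

/-- on `PG K n` the values are multiplicative -/
lemma eta_mul_PG (t : List X → G) (g : G) {i : G} (hi : i ∈ PG K n) {v : List X}
    (hv : v.length = n) : eta hG t (g * i) v = eta hG t g v * eta hG t i v := by
  rw [eta_mul, PG_fix hG hi hv]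

lemma eta_inv_PG (t : List X → G) {i : G} (hi : i ∈ PG K n) {v : List X}
    (hv : v.length = n) : eta hG t i⁻¹ v = (eta hG t i v)⁻¹ := by
  rw [eta_inv, PG_fix hG ((PG K n).inv_mem hi) hv]

/-- conjugation -/
lemma eta_conj_PG (t : List X → G) (h : G) {i : G} (hi : i ∈ PG K n) {v : List X}
    (hv : v.length = n) : eta hG t (h * i * h⁻¹) v =
      eta hG t h (h⁻¹ • v) * eta hG t i (h⁻¹ • v) * (eta hG t h (h⁻¹ • v))⁻¹ := by
  have hl : (h⁻¹ • v).length = n := by rw [len_act hG, hv]
  rw [eta_mul, eta_mul_PG hG t h hi hl, eta_inv]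

end eta

/-- the product of the values over the list `l` -/
noncomputable def tot (hG : SelfSimilar G) (t : List X → G) (l : List (List X)) (g : G) : G :=
  (l.map (eta hG t g)).prod

open Classical in
/-- the words of `l` with nontrivial value -/
noncomputable def spt (hG : SelfSimilar G) (t : List X → G) (l : List (List X)) (g : G) :
    List (List X) := l.filter fun v => decide (eta hG t g v ≠ 1)

lemma mem_spt {hG : SelfSimilar G} {t : List X → G} {l : List (List X)} {g : G} {v : List X} :
    v ∈ spt hG t l g ↔ v ∈ l ∧ eta hG t g v ≠ 1 := by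
  classical
  unfold spt
  rw [List.mem_filter, decide_eq_true_eq]

/-- the product of the commutators of the pairs in a list -/
def cp {Γ : Type*} [Group Γ] (L : List (Γ × Γ)) : Γ := (L.map fun p => ⁅p.1, p.2⁆).prod

/-- uniform constants for the calculus of the sets `R K S C` -/
structure Cst {Γ : Type*} [Group Γ] (K A : Subgroup Γ) (S : List Γ) (q : ℕ) : Prop where
  mul : ∀ {C C' : ℕ} {x y : Γ}, x ∈ R K S C → y ∈ R K S C' → x * y ∈ R K S (C + C' + q)
  inv : ∀ {C : ℕ} {x : Γ}, x ∈ R K S C → x⁻¹ ∈ R K S (C + q)
  conj : ∀ γ ∈ A, ∀ x ∈ K, ⁅γ, x⁆ ∈ R K S q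

/-- a function choosing representatives of the cosets of `K`, with the representative `1` of `K` -/
structure Rep {Γ : Type*} [Group Γ] (K : Subgroup Γ) (rp : Γ → Γ) : Prop where
  fin : (Set.range rp).Finite
  rep : ∀ g, g⁻¹ * rp g ∈ K
  one : ∀ g ∈ K, rp g = 1
  mul : ∀ g, ∀ k ∈ K, rp (g * k) = rp g

/-- `e` is inserted at level `n`, has at most `N` nontrivial values on `l` and the product of its
values is in `R K S C` -/
structure Sm (hG : SelfSimilar G) (K : Subgroup G) (S : List G) (t : List X → G)
    (l : List (List X)) (n N C : ℕ) (e : G) : Prop where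
  mem : e ∈ PG K n
  len : (spt hG t l e).length ≤ N
  tot : MZ71.tot hG t l e ∈ R K S C

end Pool.Agent.MZ71
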