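import Mathlib
import Pool.Agent.MZ71.Defs

set_option autoImplicit false
set_option linter.unusedSectionVars false

/-!
# MZ71/Sing: singular words; finite-state and contracting groups have measure-zero singular points
-/

namespace Pool.Agent.MZ71

open Pool.Agent.CW71 Pool.Agent.CB71 Pool.Agent.RB61

variable {X : Type} {G : Subgroup (Tr X)}

private theorem sing_finite [Finite X] (g : Tr X) (n : ℕ) : {v : List X | v.length = n ∧ g v = v ∧
    ∃ w : List X, g (v ++ w) ≠ v ++ w}.Finite :=
  (List.finite_length_eq X n).subset fun _ hv => hv.1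

private theorem sing_succ [Finite X] (hss : SelfSimilar G) {g : Tr X} (hg : g ∈ G) (n : ℕ) :
    {v : List X | v.length = n + 1 ∧ g v = v ∧ ∃ w : List X, g (v ++ w) ≠ v ++ w}.ncard ≤
      {v : List X | v.length = n ∧ g v = v ∧ ∃ w : List X, g (v ++ w) ≠ v ++ w}.ncard *
        Nat.card X := by
  set S : ℕ → Set (List X) := fun n =>
    {v : List X | v.length = n ∧ g v = v ∧ ∃ w : List X, g (v ++ w) ≠ v ++ w} with hS
  have hsub : S (n + 1) ⊆ (fun p : List X × X => p.1 ++ [p.2]) '' (S n ×ˢ Set.univ) := by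
    rintro v' ⟨hl, hgv, w, hw⟩
    have hne : v' ≠ [] := by
      intro h; rw [h] at hl; simp at hl
    obtain ⟨v, x, rfl⟩ : ∃ v x, v' = v ++ [x] :=
      ⟨v'.dropLast, v'.getLast hne, (List.dropLast_append_getLast hne).symm⟩
    have hlv : v.length = n := by
      rw [List.length_append, List.length_singleton] at hl; omega
    obtain ⟨h, hh, hs⟩ := sec_exists hss hg v
    have h1 := hs [x]
    rw [hgv] at h1
    have h2 := (List.append_inj h1 (by rw [length_map hss hg])).1
    refine ⟨(v, x), ⟨⟨hlv, h2.symm, x :: w, ?_⟩, Set.mem_univ _⟩, rfl⟩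
    intro h3
    apply hw
    rw [List.append_assoc]
    exact h3
  have hfin : (S n ×ˢ (Set.univ : Set X)).Finite := (sing_finite g n).prod Set.finite_univ
  calc (S (n + 1)).ncard ≤ ((fun p : List X × X => p.1 ++ [p.2]) '' (S n ×ˢ Set.univ)).ncard :=
        Set.ncard_le_ncard hsub (hfin.image _)
    _ ≤ (S n ×ˢ (Set.univ : Set X)).ncard := Set.ncard_image_le hfin
    _ = (S n).ncard * Nat.card X := by rw [Set.ncard_prod, Set.ncard_univ]

/-- PROOF.  It is enough to pass from `n` to `n + 1`.  A word `v'` of length `n + 1` with `g v' = v'`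
and `g (v' ++ w) ≠ v' ++ w` is `v ++ [x]`, `v = v'.take n`; with the section `h` of `g` at `v`
(`sec_exists`), `g v' = g v ++ h [x]`, `(g v).length = n` (`length_map`), so `g v = v`, and
`g (v ++ (x :: w)) ≠ v ++ (x :: w)`.  So `v' ↦ (v, x)` is an injection into
(singular words of length `n`) `× X`: the number for `n + 1` is at most `Nat.card X` times the number
for `n` (all sets are finite, `List.finite_length_eq`). -/
theorem sing_mono [Finite X] (hss : SelfSimilar G) {g : Tr X} (hg : g ∈ G) {N n m : ℕ}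
    (hnm : n ≤ m) (h : N * {v : List X | v.length = n ∧ g v = v ∧
      ∃ w : List X, g (v ++ w) ≠ v ++ w}.ncard ≤ Nat.card X ^ n) :
    N * {v : List X | v.length = m ∧ g v = v ∧ ∃ w : List X, g (v ++ w) ≠ v ++ w}.ncard ≤
      Nat.card X ^ m := by
  induction m, hnm using Nat.le_induction with
  | base => exact h
  | succ m _ ih =>
    have h1 := Nat.mul_le_mul_left N (sing_succ hss hg m)
    rw [← mul_assoc] at h1
    rw [pow_succ]
    exact h1.trans (Nat.mul_le_mul_right _ ih)

private theorem ncard_len [Finite X] (m : ℕ) :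
    {v : List X | v.length = m}.ncard = Nat.card X ^ m := by
  have hX : Fintype X := Fintype.ofFinite X
  rw [← Nat.card_coe_set_eq]
  change Nat.card (List.Vector X m) = _
  rw [Nat.card_eq_fintype_card, card_vector, Nat.card_eq_fintype_card]

private theorem sing_add [Finite X] (hss : SelfSimilar G) {g : Tr X} (hg : g ∈ G) (m : ℕ)
    (hm : ∀ q : Tr X, (∃ v, IsSection g v q) → q ≠ 1 → ∃ u : List X, u.length = m ∧ q u ≠ u)
    (n : ℕ) :
    {v : List X | v.length = n + m ∧ g v = v ∧ ∃ w : List X, g (v ++ w) ≠ v ++ w}.ncard ≤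
      {v : List X | v.length = n ∧ g v = v ∧ ∃ w : List X, g (v ++ w) ≠ v ++ w}.ncard *
        (Nat.card X ^ m - 1) := by
  classical
  set S : ℕ → Set (List X) := fun n =>
    {v : List X | v.length = n ∧ g v = v ∧ ∃ w : List X, g (v ++ w) ≠ v ++ w} with hS
  have hex : ∀ v : List X, ∃ e : List X, v ∈ S n → e.length = m ∧
      ∀ q, IsSection g v q → q e ≠ e := by
    intro v
    by_cases hv : v ∈ S n
    · obtain ⟨q, hq, hs⟩ := sec_exists hss hg v
      have hq1 : q ≠ 1 := by
        rintro rfl
        obtain ⟨_, hgv, w, hw⟩ := hv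
        apply hw
        rw [hs, hgv]
        rfl
      obtain ⟨u, hu, hqu⟩ := hm q ⟨v, hs⟩ hq1
      refine ⟨u, fun _ => ⟨hu, fun q' hq' => ?_⟩⟩
      rw [hq'.uniq hs]
      exact hqu
    · exact ⟨[], fun h => absurd h hv⟩
  choose e he using hex
  set L : Set (List X) := {v : List X | v.length = m} with hL
  have hLf : L.Finite := List.finite_length_eq X m
  have hSf : (S n).Finite := sing_finite g n
  have hgr : (fun v => (v, e v)) '' (S n) ⊆ S n ×ˢ L := by
    rintro _ ⟨v, hv, rfl⟩
    exact ⟨hv, (he v hv).1⟩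
  have hsub : S (n + m) ⊆ (fun p : List X × List X => p.1 ++ p.2) ''
      ((S n ×ˢ L) \ ((fun v => (v, e v)) '' (S n))) := by
    rintro v' ⟨hl, hgv, w, hw⟩
    have hsplit : v' = v'.take n ++ v'.drop n := (List.take_append_drop n v').symm
    set v := v'.take n with hv
    set u := v'.drop n with hu
    have hlv : v.length = n := by rw [hv, List.length_take]; omega
    have hlu : u.length = m := by rw [hu, List.length_drop]; omega
    obtain ⟨q, hq, hs⟩ := sec_exists hss hg v
    have h1 := hs u
    rw [← hsplit, hgv] at h1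
    conv at h1 => lhs; rw [hsplit]
    have h2 := List.append_inj h1 (by rw [length_map hss hg])
    have hvS : v ∈ S n := by
      refine ⟨hlv, h2.1.symm, u ++ w, ?_⟩
      intro h3
      apply hw
      rw [hsplit, List.append_assoc]
      exact h3
    refine ⟨(v, u), ⟨⟨hvS, hlu⟩, ?_⟩, hsplit.symm⟩
    rintro ⟨v'', hv'', h3⟩
    rw [Prod.mk.injEq] at h3
    obtain ⟨h3, h4⟩ := h3
    rw [h3] at h4
    have h5 := (he v hvS).2 q hs
    rw [h4] at h5
    exact h5 h2.2.symm
  have hPf : (S n ×ˢ L).Finite := hSf.prod hLf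
  have hDf : ((S n ×ˢ L) \ ((fun v => (v, e v)) '' (S n))).Finite := hPf.subset Set.sdiff_subset
  have hinj : Function.Injective (fun v : List X => (v, e v)) := fun a b hab =>
    congrArg Prod.fst hab
  calc (S (n + m)).ncard ≤ _ := Set.ncard_le_ncard hsub (hDf.image _)
    _ ≤ ((S n ×ˢ L) \ ((fun v => (v, e v)) '' (S n))).ncard := Set.ncard_image_le hDf
    _ = (S n ×ˢ L).ncard - ((fun v => (v, e v)) '' (S n)).ncard :=
        Set.ncard_sdiff hgr (hSf.image _)
    _ = (S n).ncard * Nat.card X ^ m - (S n).ncard := by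
        rw [Set.ncard_prod, Set.ncard_image_of_injective _ hinj, hL, ncard_len]
    _ = (S n).ncard * (Nat.card X ^ m - 1) := by rw [Nat.mul_sub, mul_one]

private theorem exists_pow_ge (M N : ℕ) (hM : 1 ≤ M) : ∃ j : ℕ, N * (M - 1) ^ j ≤ M ^ j := by
  have hM' : (0 : ℝ) < M := by exact_mod_cast hM
  have h1 : ((M - 1 : ℕ) : ℝ) / M < 1 := by
    rw [div_lt_one hM']
    exact_mod_cast Nat.sub_lt hM Nat.one_pos
  obtain ⟨j, hj⟩ := exists_pow_lt_of_lt_one (show (0 : ℝ) < 1 / (N + 1) by positivity) h1
  refine ⟨j, ?_⟩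
  rw [div_pow, div_lt_div_iff₀ (by positivity) (by positivity), one_mul] at hj
  have h2 : ((M - 1 : ℕ) : ℝ) ^ j * N ≤ ((M - 1 : ℕ) : ℝ) ^ j * (N + 1) := by
    apply mul_le_mul_of_nonneg_left _ (by positivity)
    linarith
  have h3 : ((N * (M - 1) ^ j : ℕ) : ℝ) ≤ ((M ^ j : ℕ) : ℝ) := by
    push_cast
    rw [mul_comm]
    exact (h2.trans hj.le)
  exact_mod_cast h3

/-- PROOF.  Let `g ∈ G` and let `Q` be the finite set of the sections of `g`.  For every `q ∈ Q`,
`q ≠ 1`, there is a word `u` with `q u ≠ u`; let `m` be larger than the lengths of these finitely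
many words.  Every `q ∈ Q`, `q ≠ 1`, moves a word of length exactly `m`: extend `u` by letters to
`u'`; as `q` preserves prefixes (`q ∈ G` by uniqueness of sections, `sec_exists`, `length_map`),
`q u' = u'` would imply `q u = u`.  Let `s n` be the number of the singular words of length `n` (as in
`MeasureZeroSingular`).  A singular word of length `n + m` is `v ++ u` with `v` singular of length
`n`, the section `q` of `g` at `v` is `≠ 1` and `q u = u`; so for every `v` at least one word `u` of
length `m` is excluded: `s (n + m) ≤ (|X|^m - 1) * s n`.  Hence `s (j m) ≤ (|X|^m - 1)^j`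
(`s 0 ≤ 1`), and for given `N` choose `j` with `N * (|X|^m - 1)^j ≤ (|X|^m)^j`
(`(1 - 1/|X|^m)^j → 0`; if `|X|^m = 1` then all is trivial: the singular set is empty for `n = m`). -/
theorem MZ_of_finiteState [Finite X] [Nonempty X] (hss : SelfSimilar G)
    (hfs : ∀ g ∈ G, {h : Tr X | ∃ v : List X, IsSection g v h}.Finite) :
    MeasureZeroSingular G := by
  classical
  intro g hg N
  have hQ := hfs g hg
  set Q : Set (Tr X) := {h : Tr X | ∃ v : List X, IsSection g v h} with hQdef
  have hQG : ∀ q ∈ Q, q ∈ G := by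
    rintro q ⟨v, hv⟩
    obtain ⟨h', hh', e⟩ := sec_exists hss hg v
    rw [hv.uniq e]; exact hh'
  have hex : ∀ q : Tr X, ∃ u : List X, q ≠ 1 → q u ≠ u := by
    intro q
    by_cases hq : q = 1
    · exact ⟨[], fun h => absurd hq h⟩
    · by_contra hcon
      push Not at hcon
      apply hq
      apply Equiv.ext
      intro u
      exact (hcon u).2
  choose f hf using hex
  obtain ⟨m, hm⟩ : ∃ m, ∀ q ∈ Q, (f q).length ≤ m := by
    obtain ⟨k, hk⟩ := (hQ.image fun q => (f q).length).bddAbove
    exact ⟨k, fun q hq => hk ⟨q, hq, rfl⟩⟩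
  obtain ⟨x⟩ := ‹Nonempty X›
  have hm' : ∀ q : Tr X, (∃ v, IsSection g v q) → q ≠ 1 → ∃ u : List X, u.length = m ∧ q u ≠ u := by
    intro q hq hq1
    refine ⟨f q ++ List.replicate (m - (f q).length) x, ?_, ?_⟩
    · rw [List.length_append, List.length_replicate]
      have := hm q hq
      omega
    · intro h1
      obtain ⟨h', hh', e⟩ := sec_exists hss (hQG q hq) (f q)
      rw [e] at h1
      exact hf q hq1 (List.append_inj h1 (by rw [length_map hss (hQG q hq)])).1
  have hX : Nonempty X := ⟨x⟩
  have hpos : 1 ≤ Nat.card X ^ m := Nat.one_le_pow _ _ Nat.card_pos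
  have hind : ∀ j : ℕ, {v : List X | v.length = j * m ∧ g v = v ∧
      ∃ w : List X, g (v ++ w) ≠ v ++ w}.ncard ≤ (Nat.card X ^ m - 1) ^ j := by
    intro j
    induction j with
    | zero =>
      rw [pow_zero]
      have hsub : {v : List X | v.length = 0 * m ∧ g v = v ∧
          ∃ w : List X, g (v ++ w) ≠ v ++ w} ⊆ {[]} := by
        rintro v ⟨hl, _⟩
        rw [zero_mul, List.length_eq_zero_iff] at hl
        exact hl
      have := Set.ncard_le_ncard hsub (Set.finite_singleton _)
      rwa [Set.ncard_singleton] at this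
    | succ j ih =>
      have h1 := sing_add hss hg m hm' (j * m)
      rw [add_mul, one_mul, pow_succ]
      exact h1.trans (Nat.mul_le_mul_right _ ih)
  obtain ⟨j, hj⟩ := exists_pow_ge (Nat.card X ^ m) N hpos
  refine ⟨j * m, ?_⟩
  rw [mul_comm j m, pow_mul, mul_comm m j]
  exact (Nat.mul_le_mul_left N (hind j)).trans hj

/-- PROOF.  See the proof of `fB` in `exists_base` (CB71/Len): for `g ∈ G` the sections at the words
of length at least `n` are in the finite set `N`, and there are finitely many words of length less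
than `n`, each with one section (`IsSection.uniq`). -/
theorem finiteState_of_contracting [Finite X] (hss : SelfSimilar G) (hc : Contracting G) :
    ∀ g ∈ G, {h : Tr X | ∃ v : List X, IsSection g v h}.Finite := by
  have _hss := hss
  obtain ⟨N, hNf, hNG, hN⟩ := hc
  intro g hg
  obtain ⟨n, hn⟩ := hN g hg
  have h2 : {h | ∃ v, IsSection g v h} ⊆
      N ∪ ⋃ v ∈ {v : List X | v.length < n}, {h | IsSection g v h} := by
    rintro h ⟨v, hv⟩
    by_cases hl : n ≤ v.length
    · obtain ⟨h', hh', e⟩ := hn v hl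
      left
      rw [hv.uniq e]; exact hh'
    · right
      simp only [Set.mem_iUnion]
      exact ⟨v, by simpa using hl, hv⟩
  refine Set.Finite.subset (hNf.union ?_) h2
  refine (List.finite_length_lt X n).biUnion fun v _ => ?_
  apply Set.Subsingleton.finite
  intro h hh h' hh'
  exact IsSection.uniq hh hh'

end Pool.Agent.MZ71
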