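import Mathlib
import Pool.Agent.MZ71.Sing

set_option autoImplicit false
set_option linter.unusedSectionVars false

/-!
# MZ71/Clu: transports chosen piece by piece
-/

namespace Pool.Agent.MZ71

open scoped commutatorElement
open Pool.Agent.CW71 Pool.Agent.CB71 Pool.Agent.RB61

variable {X : Type} {G : Subgroup (Tr X)}

/-- if `c (e • v) = c v = u`, the transports at `v` and `e • v` are `t₀ * f⁻¹` and `t₀ * f'⁻¹` with
`f • u = v`, `f' • u = e • v`, and `f'⁻¹ * e * f` has trivial section at `u`, then the value of `e`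
at `v` is trivial.
PROOF.  `eta e v = sec (t (e • v)) (e • v) * sec e v * (sec (t v) v)⁻¹`; by `sec_mul`, `sec_inv`
(`sec_inv hG f u : sec f⁻¹ (f • u) = (sec f u)⁻¹`): `sec (t v) v = sec t₀ u * (sec f u)⁻¹`,
`sec (t (e • v)) (e • v) = sec t₀ u * (sec f' u)⁻¹`, and
`1 = sec (f'⁻¹ * e * f) u = (sec f' u)⁻¹ * sec e v * sec f u`. -/
theorem eta_eq_one (hG : SelfSimilar G) (t : List X → G) {e f f' t₀ : G} {u v : List X}
    (hf : f • u = v) (hf' : f' • u = e • v) (ht : t v = t₀ * f⁻¹) (ht' : t (e • v) = t₀ * f'⁻¹)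
    (h : sec hG (f'⁻¹ * e * f) u = 1) : eta hG t e v = 1 := by
  have h1 : sec hG (t v) v = sec hG t₀ u * (sec hG f u)⁻¹ := by
    rw [ht, sec_mul]
    have e1 : f⁻¹ • v = u := by rw [← hf, inv_smul_smul]
    have e2 : sec hG f⁻¹ v = (sec hG f u)⁻¹ := by
      rw [← hf]
      exact sec_inv hG f u
    rw [e1, e2]
  have h2 : sec hG (t (e • v)) (e • v) = sec hG t₀ u * (sec hG f' u)⁻¹ := by
    rw [ht', sec_mul]
    have e1 : f'⁻¹ • (e • v) = u := by rw [← hf', inv_smul_smul]
    have e2 : sec hG f'⁻¹ (e • v) = (sec hG f' u)⁻¹ := by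
      rw [← hf']
      exact sec_inv hG f' u
    rw [e1, e2]
  have h3 : (sec hG f' u)⁻¹ * sec hG e v * sec hG f u = 1 := by
    rw [← h, sec_mul, sec_mul, hf, ← hf', sec_inv hG f' u]
  unfold eta
  rw [h1, h2]
  calc sec hG t₀ u * (sec hG f' u)⁻¹ * sec hG e v * (sec hG t₀ u * (sec hG f u)⁻¹)⁻¹
      = sec hG t₀ u * ((sec hG f' u)⁻¹ * sec hG e v * sec hG f u) * (sec hG t₀ u)⁻¹ := by group
    _ = 1 := by rw [h3]; group

/-- PROOF.  `sec hG g u = 1` if `g u = u` and `g (u ++ w) = u ++ w` for all `w`: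
`sec_eq` with `IsSection g u 1`. -/
theorem sec_eq_one (hG : SelfSimilar G) {g : G} {u : List X} (h : g • u = u)
    (h' : ∀ w : List X, (g : Tr X) (u ++ w) = u ++ w) : sec hG g u = 1 := by
  apply sec_eq
  intro w
  have h1 : (g : Tr X) u = u := h
  rw [h' w, h1]
  rfl

/-- PROOF.  Let `F` be from `hHF E (2 * A)`; `F ⊆ closure E ≤ H`.  Let `Rg` be the finite set of the
elements `f'⁻¹ * e * f` (`f, f' ∈ F`, `e ∈ E`) and `N' = 2 * A * F.card * Rg.card`.  By `hMZ` and
`sing_mono` there is `n₁` such that for all `g ∈ Rg` and `n ≥ n₁` the number `σ_n(g)` of the singular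
words of length `n` of `g` satisfies `N' * σ_n(g) ≤ |X|^n`.  Take `n ≥ max n₀ n₁` and `c` from `hHF`.
For `v` of length `n` choose `f v ∈ F` with `f v • c v = v` (so `c v` has length `n`, `len_act`, and
is in the `H`-orbit of `v`).  `a u ∈ H` with `a u • u = rtG H u` (`rtG_rel`).  Transports:
`t v = a (c v) * (f v)⁻¹` if `v` has length `n`, `t v = a v` otherwise; `Trn H t` by `rtG_act`.
Let `e ∈ E`, `v` of length `n` with `eta e v ≠ 1`.  If `c (e • v) = c v = u` then by `eta_eq_one`
the element `g = (f (e • v))⁻¹ * e * f v ∈ Rg` (which fixes `u`) has nontrivial section at `u`, so by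
`sec_eq_one` `u` is a singular word of `g` and `v = f v • u`.  So
`{v | eta e v ≠ 1} ⊆ {v | ∃ e ∈ E, c (e • v) ≠ c v} ∪ ⋃_{f ∈ F} ⋃_{g ∈ Rg} f • Sing_n(g)`.
The first set has `2 * A * ncard ≤ |X|^n`; the second has at most `F.card * Σ_{g ∈ Rg} σ_n(g)`
elements and `Rg.card * (2 * A * F.card * Σ_g σ_n(g)) ≤ Rg.card * |X|^n`.  (If `Rg` is empty the
second set is empty.)  Sum: `2 * (A * ncard) ≤ 2 * |X|^n`. -/
theorem exists_transports [Finite X] (hG : SelfSimilar G) (hHF : HyperfiniteLevels G)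
    (hMZ : MeasureZeroSingular G) (H : Subgroup G) (E : Finset G) (hE : ∀ e ∈ E, e ∈ H)
    (A n₀ : ℕ) : ∃ n, n₀ ≤ n ∧ ∃ t : List X → G, Trn H t ∧ ∀ e ∈ E,
      A * {v : List X | v.length = n ∧ eta hG t e v ≠ 1}.ncard ≤ Nat.card X ^ n := by
  classical
  obtain ⟨F, hF, hn⟩ := hHF E (2 * A)
  have hEH : Subgroup.closure (E : Set G) ≤ H := (Subgroup.closure_le H).2 fun e he => hE e he
  set Rg : Finset G := ((F ×ˢ F) ×ˢ E).image
    (fun p : (G × G) × G => p.1.2⁻¹ * p.2 * p.1.1) with hRg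
  have hRm : ∀ f ∈ F, ∀ f' ∈ F, ∀ e ∈ E, f'⁻¹ * e * f ∈ Rg := by
    intro f hf f' hf' e he
    rw [hRg, Finset.mem_image]
    exact ⟨((f, f'), e), Finset.mem_product.2 ⟨Finset.mem_product.2 ⟨hf, hf'⟩, he⟩, rfl⟩
  choose ng hng using fun g : G => hMZ (g : Tr X) g.2 (2 * A * F.card * Rg.card)
  obtain ⟨n, hn0, c, hc1, hc2⟩ := hn (max n₀ (Rg.sup ng))
  refine ⟨n, le_trans (le_max_left _ _) hn0, ?_⟩
  have hsing : ∀ g ∈ Rg, (2 * A * F.card * Rg.card) * {v : List X | v.length = n ∧
      (g : Tr X) v = v ∧ ∃ w : List X, (g : Tr X) (v ++ w) ≠ v ++ w}.ncard ≤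
      Nat.card X ^ n := by
    intro g hg
    refine sing_mono hG g.2 ?_ (hng g)
    exact (Finset.le_sup hg).trans ((le_max_right _ _).trans hn0)
  choose a ha hav using fun v => rtG_rel H v
  let f : List X → G := fun v => if h : v.length = n then Classical.choose (hc1 v h) else 1
  have hf : ∀ v : List X, v.length = n → f v ∈ F ∧ f v • c v = v := by
    intro v hv
    have h1 := Classical.choose_spec (hc1 v hv)
    have h2 : f v = Classical.choose (hc1 v hv) := dif_pos hv
    rw [h2]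
    exact h1
  let t : List X → G := fun v => if v.length = n then a (c v) * (f v)⁻¹ else a v
  have ht1 : ∀ v : List X, v.length = n → t v = a (c v) * (f v)⁻¹ := fun v hv => if_pos hv
  have ht2 : ∀ v : List X, ¬ v.length = n → t v = a v := fun v hv => if_neg hv
  refine ⟨t, ⟨fun v => ?_, fun v => ?_⟩, ?_⟩
  · by_cases hv : v.length = n
    · rw [ht1 v hv]
      exact H.mul_mem (ha _) (H.inv_mem (hEH (hF _ (hf v hv).1)))
    · rw [ht2 v hv]
      exact ha v
  · by_cases hv : v.length = n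
    · rw [ht1 v hv, mul_smul]
      have h1 : (f v)⁻¹ • v = c v := by
        nth_rewrite 2 [← (hf v hv).2]
        rw [inv_smul_smul]
      rw [h1, hav]
      have h2 := rtG_act (hEH (hF _ (hf v hv).1)) (c v)
      rw [(hf v hv).2] at h2
      exact h2.symm
    · rw [ht2 v hv]
      exact hav v
  · intro e he
    have hfin : {v : List X | v.length = n}.Finite := List.finite_length_eq X n
    set B1 : Set (List X) := {v : List X | v.length = n ∧ ∃ e ∈ E, c ((e : Tr X) v) ≠ c v}
      with hB1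
    let Sg : G → Set (List X) := fun g => {v : List X | v.length = n ∧
      (g : Tr X) v = v ∧ ∃ w : List X, (g : Tr X) (v ++ w) ≠ v ++ w}
    have hSfin : ∀ g, (Sg g).Finite := fun g => hfin.subset fun v hv => hv.1
    let B2 : Set (List X) := ⋃ p ∈ (F ×ˢ Rg), (fun v : List X => p.1 • v) '' Sg p.2
    have hsub : {v : List X | v.length = n ∧ eta hG t e v ≠ 1} ⊆ B1 ∪ B2 := by
      rintro v ⟨hv, hne⟩
      by_cases hc : c (e • v) = c v
      · right
        have hev : (e • v).length = n := by rw [len_act hG, hv]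
        have hfv := hf v hv
        have hfe := hf (e • v) hev
        rw [hc] at hfe
        have hgR := hRm _ hfv.1 _ hfe.1 e he
        have hsec : sec hG ((f (e • v))⁻¹ * e * f v) (c v) ≠ 1 := by
          intro h1
          apply hne
          refine eta_eq_one hG t (t₀ := a (c v)) hfv.2 hfe.2 (ht1 v hv) ?_ h1
          rw [ht1 _ hev, hc]
        have hfix : ((f (e • v))⁻¹ * e * f v) • c v = c v := by
          rw [mul_smul, mul_smul, hfv.2]
          nth_rewrite 2 [← hfe.2]
          rw [inv_smul_smul]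
        have hlen : (c v).length = n := by
          have h1 := len_act hG (f v) (c v)
          rw [hfv.2, hv] at h1
          exact h1.symm
        refine Set.mem_iUnion₂.2 ⟨(f v, (f (e • v))⁻¹ * e * f v),
          Finset.mem_product.2 ⟨hfv.1, hgR⟩, c v, ⟨hlen, hfix, ?_⟩, hfv.2⟩
        by_contra hcon
        push Not at hcon
        exact hsec (sec_eq_one hG hfix hcon)
      · left
        exact ⟨hv, e, he, hc⟩
    have hB1fin : B1.Finite := hfin.subset fun v hv => hv.1
    have hB2fin : B2.Finite := by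
      refine Set.Finite.biUnion (Finset.finite_toSet _) ?_
      intro p _
      exact (hSfin p.2).image _
    have hcard : {v : List X | v.length = n ∧ eta hG t e v ≠ 1}.ncard ≤ B1.ncard + B2.ncard :=
      (Set.ncard_le_ncard hsub (hB1fin.union hB2fin)).trans (Set.ncard_union_le _ _)
    have hB2 : B2.ncard ≤ F.card * ∑ g ∈ Rg, (Sg g).ncard := by
      have h1 : B2.ncard ≤ ∑ p ∈ (F ×ˢ Rg), ((fun v : List X => p.1 • v) '' Sg p.2).ncard :=
        Finset.set_ncard_biUnion_le _ _
      refine h1.trans ?_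
      have h2 : ∀ p ∈ (F ×ˢ Rg), ((fun v : List X => p.1 • v) '' Sg p.2).ncard ≤
          (Sg p.2).ncard := fun p _ => Set.ncard_image_le (hSfin p.2)
      refine (Finset.sum_le_sum h2).trans (le_of_eq ?_)
      rw [Finset.sum_product]
      simp only [Finset.sum_const, smul_eq_mul]
    have hB2' : 2 * A * B2.ncard ≤ Nat.card X ^ n := by
      rcases Rg.eq_empty_or_nonempty with h0 | h0
      · rw [h0, Finset.sum_empty, mul_zero] at hB2
        have : B2.ncard = 0 := by omega
        rw [this, mul_zero]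
        exact Nat.zero_le _
      · have hpos : 0 < Rg.card := h0.card_pos
        have h1 : ∑ g ∈ Rg, (2 * A * F.card * Rg.card) * (Sg g).ncard ≤
            ∑ _g ∈ Rg, Nat.card X ^ n := Finset.sum_le_sum hsing
        rw [← Finset.mul_sum, Finset.sum_const, smul_eq_mul] at h1
        have h2 : Rg.card * (2 * A * F.card * ∑ g ∈ Rg, (Sg g).ncard) ≤
            Rg.card * Nat.card X ^ n := by
          calc Rg.card * (2 * A * F.card * ∑ g ∈ Rg, (Sg g).ncard)
              = (2 * A * F.card * Rg.card) * ∑ g ∈ Rg, (Sg g).ncard := by ring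
            _ ≤ _ := h1
        have h3 := Nat.le_of_mul_le_mul_left h2 hpos
        calc 2 * A * B2.ncard ≤ 2 * A * (F.card * ∑ g ∈ Rg, (Sg g).ncard) :=
              Nat.mul_le_mul_left _ hB2
          _ = 2 * A * F.card * ∑ g ∈ Rg, (Sg g).ncard := by ring
          _ ≤ _ := h3
    have h4 : 2 * (A * {v : List X | v.length = n ∧ eta hG t e v ≠ 1}.ncard) ≤
        2 * Nat.card X ^ n := by
      calc 2 * (A * {v : List X | v.length = n ∧ eta hG t e v ≠ 1}.ncard)
          ≤ 2 * (A * (B1.ncard + B2.ncard)) :=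
            Nat.mul_le_mul_left _ (Nat.mul_le_mul_left _ hcard)
        _ = 2 * A * B1.ncard + 2 * A * B2.ncard := by ring
        _ ≤ Nat.card X ^ n + Nat.card X ^ n := Nat.add_le_add hc2 hB2'
        _ = 2 * Nat.card X ^ n := by ring
    omega

end Pool.Agent.MZ71
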