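import Mathlib
import Pool.Agent.MZ71.Defs

set_option autoImplicit false
set_option linter.unusedSectionVars false

/-!
# MZ71/Consts: uniform constants

See `Pool.Agent.MZ71.Defs` and `Pool.Agent.CW71.RM` (calculus of `R K S M`: `R_mul`, `R_gen`,
`gen_mem_R`, `R_conj_K`, `CK_mul_R`, `R_mul_CK`, `R_mono`).
-/

namespace Pool.Agent.MZ71

open scoped commutatorElement
open Pool.Agent.CW71 Pool.Agent.CB71 Pool.Agent.RB61

section

variable {Γ : Type*} [Group Γ] {K : Subgroup Γ} [hKn : K.Normal]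

/-- PROOF.  Induction on `S`... more precisely prove for all lists `T` with `∀ s ∈ T, s ∈ S`: if
`x ∈ R K T C` then `x⁻¹ ∈ R K S (C + T.length * (S.length * S.length + S.length + 1))`.  `T = []`:
`CK_inv` (RB61/Ap) and `CK_R`-like inclusion (`R_mul_CK (one_mem_R S 0)`).  `T = s :: T'`,
`x = ⁅s, m⁆ * y`: `x⁻¹ = y⁻¹ * ⁅s, m⁆⁻¹` and `⁅s, m⁆⁻¹ = m * ⁅s, m⁻¹⁆ * m⁻¹`, which is in
`R K S (S.length + 1)` by `gen_mem_R` and `R_conj_K`; `R_mul`, `R_mono`. -/
theorem R_inv {S : List Γ} {C : ℕ} {x : Γ} (hx : x ∈ R K S C) :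
    x⁻¹ ∈ R K S (C + S.length * (S.length * S.length + S.length + 1)) := by
  have key : ∀ T : List Γ, (∀ s ∈ T, s ∈ S) → ∀ x ∈ R K T C,
      x⁻¹ ∈ R K S (C + T.length * (S.length * S.length + S.length + 1)) := by
    intro T
    induction T with
    | nil =>
      intro _ x hx
      refine R_mono ?_ (CK_R (K := K) (S := S) (CK_inv (show x ∈ CK K C from hx)))
      simp
    | cons s T ih =>
      intro hT x hx
      obtain ⟨m, hm, y, hy, rfl⟩ := hx
      have h1 := ih (fun s' hs' => hT s' (List.mem_cons_of_mem _ hs')) y hy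
      have h2 : ⁅s, m⁆⁻¹ ∈ R K S (S.length + 1) := by
        have h3 := R_conj_K (gen_mem_R (hT s List.mem_cons_self) (K.inv_mem hm)) hm
        have h4 : m * ⁅s, m⁻¹⁆ * m⁻¹ = ⁅s, m⁆⁻¹ := by
          simp only [commutatorElement_def]; group
        rwa [h4] at h3
      rw [mul_inv_rev]
      refine R_mono ?_ (R_mul h1 h2)
      simp only [List.length_cons]
      nlinarith
  exact key S (fun _ h => h) x hx

end

variable {X : Type} {G : Subgroup (Tr X)} {K : Subgroup G} [hKn : K.Normal]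

/-- PROOF.  By `uniform D.fin` (CB71/GM, for the property `∀ γ ∈ A, ∀ x ∈ K, ⁅γ, x⁆ ∈ R K (D.Sg A) c`,
and once more for `(D.Sg A).length ≤ c`) it is enough to find the constants for one `A ≥ K`.
`exists_transversal A K D.fin` (CB71/GC) gives a finite `T ⊆ A` with: every `γ ∈ A` is `γ = t κ`,
`t ∈ T`, `κ ∈ K`.  For each `t ∈ T` there is `C` with `⁅t, k⁆ ∈ R K S C` for all `k ∈ K`
(`R_word (D.gen A hA)`, CB71/GR); take the maximum over the finite set `T`.  Then
`⁅t * κ, x⁆ = (t * ⁅κ, x⁆ * t⁻¹) * ⁅t, x⁆`, the first factor is in `CK K 1` (`comm_mem_CK`,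
`CK_conj`), so `⁅t * κ, x⁆ ∈ R K S (C + 1)` (`CK_mul_R`).  For `mul` use `R_mul` (constant
`S.length * S.length`), for `inv` use `R_inv`; everything is monotone (`R_mono`); `q` is the sum of
the constants. -/
theorem exists_Cst (D : Dt G K) : ∃ q, ∀ A, K ≤ A → Cst K A (D.Sg A) q := by
  classical
  obtain ⟨q, hq⟩ := uniform D.fin
    (fun A q => (∀ γ ∈ A, ∀ x ∈ K, ⁅γ, x⁆ ∈ R K (D.Sg A) q) ∧ (D.Sg A).length ≤ q)
    (fun A n n' hn h => ⟨fun γ hγ x hx => R_mono hn (h.1 γ hγ x hx), h.2.trans hn⟩) (by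
      intro A hA
      obtain ⟨T, hTf, hTA, hT⟩ := exists_transversal A K D.fin
      have h1 : ∀ t : G, ∃ C, t ∈ T → ∀ k ∈ K, ⁅t, k⁆ ∈ R K (D.Sg A) C := by
        intro t
        by_cases ht : t ∈ T
        · obtain ⟨C, hC⟩ := R_word (K := K) (D.gen A hA) (hTA t ht)
          exact ⟨C, fun _ => hC⟩
        · exact ⟨0, fun h => absurd h ht⟩
      choose f hf using h1
      obtain ⟨C, hC⟩ := (hTf.image f).bddAbove
      refine ⟨C + 1 + (D.Sg A).length, ?_, by omega⟩
      intro γ hγ x hx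
      obtain ⟨t, ht, hκ⟩ := hT γ hγ
      have h2 := R_mono (hC ⟨t, ht, rfl⟩) (hf t ht x hx)
      have h3 := CK_mul_R (CK_conj (comm_mem_CK hκ hx) t) h2
      have h4 : t * ⁅t⁻¹ * γ, x⁆ * t⁻¹ * ⁅t, x⁆ = ⁅γ, x⁆ := by
        simp only [commutatorElement_def]; group
      rw [h4] at h3
      exact R_mono (by omega) h3)
  refine ⟨q + q * q + q * (q * q + q + 1), fun A hA => ?_⟩
  obtain ⟨h1, h2⟩ := hq A hA
  have h3 : (D.Sg A).length * (D.Sg A).length ≤ q * q := Nat.mul_le_mul h2 h2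
  have h4 : (D.Sg A).length * ((D.Sg A).length * (D.Sg A).length + (D.Sg A).length + 1) ≤
      q * (q * q + q + 1) := Nat.mul_le_mul h2 (by omega)
  refine ⟨?_, ?_, ?_⟩
  · intro C C' x y hx hy
    exact R_mono (by omega) (R_mul hx hy)
  · intro C x hx
    exact R_mono (by omega) (R_inv hx)
  · intro γ hγ x hx
    exact R_mono (by omega) (h1 γ hγ x hx)

end Pool.Agent.MZ71
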