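import Mathlib
import Pool.Agent.MZ71.Defs
import Pool.Agent.MZ71.Carve

set_option autoImplicit false
set_option linter.unusedSectionVars false

/-!
# MZ71/HForb: subexponential growth of the orbits implies hyperfinite level actions
-/

namespace Pool.Agent.MZ71

open Pool.Agent.CW71 Pool.Agent.CB71 Pool.Agent.RB61

variable {X : Type} {G : Subgroup (Tr X)}

/-- the orbits of the group on the words grow uniformly subexponentially: for every finite `E` and
every `N` there is `k` such that every ball of radius `k` with respect to `E` in the set of words has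
less than `(1 + 1/N)^k` elements -/
def SubexponentialOrbits (G : Subgroup (Tr X)) : Prop :=
  ∀ (E : Finset G) (N : ℕ), ∃ k : ℕ, ∀ v : List X,
    {w : List X | ∃ l : List G, l.length ≤ k ∧ (∀ x ∈ l, x ∈ E ∨ x⁻¹ ∈ E) ∧ l.prod • v = w}.ncard *
      N ^ k < (N + 1) ^ k

/-- the short words in `E` -/
private def shortL (E : Finset G) (k : ℕ) : Set (List G) :=
  {l | l.length ≤ k ∧ ∀ x ∈ l, x ∈ E ∨ x⁻¹ ∈ E}

private lemma shortL_finite (E : Finset G) (k : ℕ) : (shortL E k).Finite := by
  classical
  have hfin : Finite {x : G // x ∈ E ∨ x⁻¹ ∈ E} := by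
    have : {x : G | x ∈ E ∨ x⁻¹ ∈ E}.Finite := by
      have h1 : {x : G | x ∈ E}.Finite := E.finite_toSet
      have h2 : {x : G | x⁻¹ ∈ E}.Finite := by
        refine (E.image fun x => x⁻¹).finite_toSet.subset ?_
        intro x hx
        simp only [Finset.coe_image, Set.mem_image, Finset.mem_coe]
        exact ⟨x⁻¹, hx, inv_inv x⟩
      exact (h1.union h2).subset (by intro x hx; exact hx)
    exact this.to_subtype
  have h3 := List.finite_length_le {x : G // x ∈ E ∨ x⁻¹ ∈ E} k
  refine (h3.image (List.map Subtype.val)).subset ?_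
  rintro l ⟨hl, hx⟩
  lift l to List {x : G // x ∈ E ∨ x⁻¹ ∈ E} using hx
  exact ⟨l, by simpa using hl, rfl⟩

private lemma shortL_mono (E : Finset G) {j k : ℕ} (h : j ≤ k) : shortL E j ⊆ shortL E k :=
  fun _ hl => ⟨hl.1.trans h, hl.2⟩

private lemma shortL_cons {E : Finset G} {j : ℕ} {l : List G} (hl : l ∈ shortL E j) {x : G}
    (hx : x ∈ E ∨ x⁻¹ ∈ E) : x :: l ∈ shortL E (j + 1) := by
  refine ⟨by simpa using hl.1, ?_⟩
  intro y hy
  rcases List.mem_cons.1 hy with rfl | hy
  · exact hx
  · exact hl.2 y hy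

private lemma shortL_closure {E : Finset G} {j : ℕ} {l : List G} (hl : l ∈ shortL E j) :
    l.prod ∈ Subgroup.closure (E : Set G) := by
  refine Subgroup.list_prod_mem _ ?_
  intro x hx
  rcases hl.2 x hx with h | h
  · exact Subgroup.subset_closure h
  · have := Subgroup.inv_mem _ (Subgroup.subset_closure (k := (E : Set G)) h)
    rwa [inv_inv] at this

open Classical in
/-- PROOF.  Let `N₂ = N * (E.card + 1)` and `k` from the hypothesis for `N₂`.  `F` is the finite set of
the products of at most `k` elements of `E ∪ E⁻¹` (contained in `closure E`).  Take `n = n₀` and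
the finite set `V` of the words of length `n`; apply `carve`.  Its hypothesis: let `U ⊆ V`, `u ∈ U`,
and `A j` = the set of the elements of `U` in the ball of radius `j` around `u` (`u ∈ A 0`,
`A j ⊆ A (j+1)`, and if `a ∈ A j`, `e ∈ E` or `e⁻¹ ∈ E`, `e • a ∈ U`, then `e • a ∈ A (j + 1)`).
There is `j < k` with `N₂ * (A (j+1) \ A j).card ≤ (A j).card`: otherwise
`N₂ * (A (j+1)).card > (N₂ + 1) * (A j).card` for all `j < k`, hence
`N₂ ^ k * (A k).card ≥ (N₂ + 1) ^ k`, a contradiction to the choice of `k`.  For this `j` take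
`A = A j`: the first boundary set has at most `E.card * (A (j+1) \ A j).card` elements (`a = e⁻¹ • b`
with `b ∈ A (j+1) \ A j`), the second is contained in `A (j+1) \ A j`.  As in `HF_of_Fol`,
`V.card = Nat.card X ^ n`. -/
theorem HF_of_orbits [Finite X] (hG : SelfSimilar G) (h : SubexponentialOrbits G) :
    HyperfiniteLevels G := by
  intro E N
  obtain ⟨k, hk⟩ := h E (N * (E.card + 1))
  set N₂ := N * (E.card + 1) with hN₂
  set F : Finset G := (shortL_finite E k).toFinset.image List.prod with hF
  refine ⟨F, ?_, ?_⟩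
  · intro f hf
    rw [hF, Finset.mem_image] at hf
    obtain ⟨l, hl, rfl⟩ := hf
    rw [Set.Finite.mem_toFinset] at hl
    exact shortL_closure hl
  intro n₀
  have hVfin : {v : List X | v.length = n₀}.Finite := List.finite_length_eq X n₀
  set V : Finset (List X) := hVfin.toFinset with hV
  have hVmem : ∀ v, v ∈ V ↔ v.length = n₀ := by
    intro v; rw [hV, Set.Finite.mem_toFinset]; rfl
  have hcarve := carve (Γ := G) E F V N (by
    intro U hU hUne
    obtain ⟨u, hu⟩ := hUne
    set A : ℕ → Finset (List X) := fun j => U.filter fun w => ∃ l ∈ shortL E j, l.prod • u = w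
      with hA
    have hAmem : ∀ j w, w ∈ A j ↔ w ∈ U ∧ ∃ l ∈ shortL E j, l.prod • u = w := by
      intro j w; rw [hA]; simp only [Finset.mem_filter]
    have hA0 : ∀ j, u ∈ A j := by
      intro j
      rw [hAmem]
      refine ⟨hu, [], ⟨by simp, by simp⟩, ?_⟩
      rw [List.prod_nil, one_smul]
    have hAmono : ∀ j, A j ⊆ A (j + 1) := by
      intro j w hw
      rw [hAmem] at hw ⊢
      obtain ⟨h1, l, hl, h2⟩ := hw
      exact ⟨h1, l, shortL_mono E (Nat.le_succ j) hl, h2⟩
    have hAstep : ∀ j, ∀ a ∈ A j, ∀ x : G, (x ∈ E ∨ x⁻¹ ∈ E) → x • a ∈ U → x • a ∈ A (j + 1) := by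
      intro j a ha x hx hxa
      rw [hAmem] at ha ⊢
      obtain ⟨h1, l, hl, h2⟩ := ha
      refine ⟨hxa, x :: l, shortL_cons hl hx, ?_⟩
      rw [List.prod_cons, mul_smul, h2]
    have hcard : (A k).card * N₂ ^ k < (N₂ + 1) ^ k := by
      refine lt_of_le_of_lt (Nat.mul_le_mul_right _ ?_) (hk u)
      rw [← Set.ncard_coe_finset]
      refine Set.ncard_le_ncard ?_ ?_
      · intro w hw
        rw [Finset.mem_coe, hAmem] at hw
        obtain ⟨-, l, hl, h2⟩ := hw
        exact ⟨l, hl.1, hl.2, h2⟩
      · refine ((shortL_finite E k).image fun l => l.prod • u).subset ?_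
        rintro w ⟨l, hl1, hl2, hl3⟩
        exact ⟨l, ⟨hl1, hl2⟩, hl3⟩
    have hex : ∃ j, j < k ∧ N₂ * (A (j + 1) \ A j).card ≤ (A j).card := by
      by_contra hcon
      push Not at hcon
      have key : ∀ j, j ≤ k → (N₂ + 1) ^ j ≤ (A j).card * N₂ ^ j := by
        intro j
        induction j with
        | zero =>
          intro _
          have : 0 < (A 0).card := Finset.card_pos.2 ⟨u, hA0 0⟩
          simpa using this
        | succ j ih =>
          intro hj
          have h1 := ih (Nat.le_of_succ_le hj)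
          have h2 := hcon j hj
          have h3 : (A (j + 1) \ A j).card + (A j).card = (A (j + 1)).card :=
            Finset.card_sdiff_add_card_eq_card (hAmono j)
          have h4 : (N₂ + 1) * (A j).card ≤ N₂ * (A (j + 1)).card := by
            rw [← h3]; nlinarith
          calc (N₂ + 1) ^ (j + 1) = (N₂ + 1) * (N₂ + 1) ^ j := by rw [pow_succ']
            _ ≤ (N₂ + 1) * ((A j).card * N₂ ^ j) := Nat.mul_le_mul_left _ h1
            _ = ((N₂ + 1) * (A j).card) * N₂ ^ j := by ring
            _ ≤ (N₂ * (A (j + 1)).card) * N₂ ^ j := Nat.mul_le_mul_right _ h4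
            _ = (A (j + 1)).card * N₂ ^ (j + 1) := by rw [pow_succ]; ring
      exact absurd (key k le_rfl) (not_le.2 hcard)
    obtain ⟨j, hjk, hj⟩ := hex
    refine ⟨A j, ?_, ⟨u, hA0 j⟩, ⟨u, ?_⟩, ?_⟩
    · intro w hw
      exact ((hAmem j w).1 hw).1
    · intro a ha
      obtain ⟨-, l, hl, h2⟩ := (hAmem j a).1 ha
      refine ⟨l.prod, ?_, h2⟩
      rw [hF, Finset.mem_image]
      exact ⟨l, by rw [Set.Finite.mem_toFinset]; exact shortL_mono E hjk.le hl, rfl⟩
    · have hc1 : ((A j).filter fun a => ∃ e ∈ E, e • a ∈ U \ A j).card ≤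
          E.card * (A (j + 1) \ A j).card := by
        rw [← Finset.card_product]
        refine le_trans (Finset.card_le_card (t := (E ×ˢ (A (j + 1) \ A j)).image
          fun p => p.1⁻¹ • p.2) ?_) Finset.card_image_le
        intro a ha
        rw [Finset.mem_filter] at ha
        obtain ⟨ha, e, he, hea⟩ := ha
        rw [Finset.mem_sdiff] at hea
        rw [Finset.mem_image]
        refine ⟨(e, e • a), ?_, by simp⟩
        rw [Finset.mem_product, Finset.mem_sdiff]
        exact ⟨he, hAstep j a ha e (Or.inl he) hea.1, hea.2⟩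
      have hc2 : ((U \ A j).filter fun b => ∃ e ∈ E, e • b ∈ A j).card ≤
          (A (j + 1) \ A j).card := by
        refine Finset.card_le_card ?_
        intro b hb
        rw [Finset.mem_filter, Finset.mem_sdiff] at hb
        obtain ⟨⟨hbU, hbA⟩, e, he, heb⟩ := hb
        rw [Finset.mem_sdiff]
        refine ⟨?_, hbA⟩
        have := hAstep j _ heb e⁻¹ (Or.inr (by rwa [inv_inv])) (by rwa [inv_smul_smul])
        rwa [inv_smul_smul] at this
      have hfin : N * (((A j).filter fun a => ∃ e ∈ E, e • a ∈ U \ A j).card +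
            ((U \ A j).filter fun b => ∃ e ∈ E, e • b ∈ A j).card) ≤ (A j).card := by
        calc N * (((A j).filter fun a => ∃ e ∈ E, e • a ∈ U \ A j).card +
              ((U \ A j).filter fun b => ∃ e ∈ E, e • b ∈ A j).card)
            ≤ N * (E.card * (A (j + 1) \ A j).card + (A (j + 1) \ A j).card) :=
              Nat.mul_le_mul_left _ (add_le_add hc1 hc2)
          _ = N₂ * (A (j + 1) \ A j).card := by rw [hN₂]; ring
          _ ≤ (A j).card := hj
      refine le_trans (Nat.mul_le_mul_left _ (le_of_eq ?_)) hfin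
      congr 1
      · congr 1
        ext a
        simp only [Finset.mem_filter, Finset.mem_sdiff]
      · congr 1
        ext a
        simp only [Finset.mem_filter, Finset.mem_sdiff])
  obtain ⟨c, hc1, hc2⟩ := hcarve
  refine ⟨n₀, le_rfl, c, ?_, ?_⟩
  · intro v hv
    obtain ⟨f, hf, hfv⟩ := hc1 v ((hVmem v).2 hv)
    exact ⟨f, hf, hfv⟩
  · have hVcard : V.card = Nat.card X ^ n₀ := by
      rw [hV, ← Set.ncard_eq_toFinset_card _ hVfin]
      have : Fintype X := Fintype.ofFinite X
      rw [Nat.card_eq_fintype_card, ← card_vector n₀, ← Nat.card_eq_fintype_card]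
      rfl
    rw [← hVcard]
    refine le_trans (Nat.mul_le_mul_left _ ?_) hc2
    rw [← Set.ncard_coe_finset]
    refine Set.ncard_le_ncard ?_ (Finset.finite_toSet _)
    rintro v ⟨hv, e, he, hev⟩
    simp only [Finset.coe_filter, Set.mem_ofPred_eq]
    refine ⟨(hVmem v).2 hv, e, he, ?_, hev⟩
    rw [hVmem, len_act hG, hv]

end Pool.Agent.MZ71
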