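import Mathlib
import Pool.Agent.MZ71.HForb
import Pool.Agent.CB71.Len

set_option autoImplicit false
set_option linter.unusedSectionVars false

/-!
# MZ71/Contr: the orbits of a contracting group have polynomial growth
-/

namespace Pool.Agent.MZ71

open Pool.Agent.CW71 Pool.Agent.CB71 Pool.Agent.RB61

variable {X : Type} {G : Subgroup (Tr X)}

private theorem ct_ncard [Finite X] (m : ℕ) :
    {u : List X | u.length = m}.ncard = Nat.card X ^ m := by
  classical
  have := Fintype.ofFinite X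
  have h1 : {u : List X | u.length = m}.ncard = Nat.card (List.Vector X m) := rfl
  rw [h1, Nat.card_eq_fintype_card, card_vector, Nat.card_eq_fintype_card]

private theorem ct_fin [Finite X] (m : ℕ) : {u : List X | u.length = m}.Finite :=
  List.finite_length_eq X m

private theorem ct_growth (N A m : ℕ) (hN : 1 ≤ N) (a : ℕ) :
    ∃ k : ℕ, A * (2 * (a * k + 1)) ^ m * N ^ k < (N + 1) ^ k := by
  have hN0 : (0 : ℝ) < N := by exact_mod_cast hN
  have hr : (1 : ℝ) < ((N : ℝ) + 1) / N := by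
    rw [lt_div_iff₀ hN0]; linarith
  have ht := tendsto_pow_const_div_const_pow_of_one_lt m hr
  set ε : ℝ := 1 / (((A : ℝ) + 1) * (2 * ((a : ℝ) + 1)) ^ m) with hε
  have hεp : 0 < ε := by positivity
  have hev := ht.eventually (gt_mem_nhds hεp)
  obtain ⟨k, hk1, hk2⟩ := (hev.and (Filter.eventually_ge_atTop 1)).exists
  refine ⟨k, ?_⟩
  have hk1' : (1 : ℝ) ≤ k := by exact_mod_cast hk2
  have hNk : (0 : ℝ) < (N : ℝ) ^ k := by positivity
  have hrk : (0 : ℝ) < (((N : ℝ) + 1) / N) ^ k := by positivity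
  rw [div_lt_iff₀ hrk, hε, div_mul_eq_mul_div, one_mul, lt_div_iff₀ (by positivity),
    div_pow, lt_div_iff₀ hNk] at hk1
  have h2 : ((A : ℝ)) * (2 * ((a : ℝ) * k + 1)) ^ m * (N : ℝ) ^ k ≤
      (k : ℝ) ^ m * (((A : ℝ) + 1) * (2 * ((a : ℝ) + 1)) ^ m) * (N : ℝ) ^ k := by
    have h3 : (2 * ((a : ℝ) * k + 1)) ^ m ≤ (k : ℝ) ^ m * (2 * ((a : ℝ) + 1)) ^ m := by
      rw [← mul_pow]
      apply pow_le_pow_left₀ (by positivity)
      nlinarith [Nat.cast_nonneg (α := ℝ) a]
    have h4 : (A : ℝ) * (2 * ((a : ℝ) * k + 1)) ^ m ≤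
        ((A : ℝ) + 1) * ((k : ℝ) ^ m * (2 * ((a : ℝ) + 1)) ^ m) := by
      apply mul_le_mul (by linarith) h3 (by positivity) (by positivity)
    calc ((A : ℝ)) * (2 * ((a : ℝ) * k + 1)) ^ m * (N : ℝ) ^ k
        ≤ ((A : ℝ) + 1) * ((k : ℝ) ^ m * (2 * ((a : ℝ) + 1)) ^ m) * (N : ℝ) ^ k := by gcongr
      _ = _ := by ring
  have h5 := lt_of_le_of_lt h2 hk1
  exact_mod_cast h5

/-- PROOF.  Let `B`, `k₀` be from `exists_base hss hfg hc` (CB71/Len).  `G` here: `E : Finset G`; there
is `a` with `Len B a e` and `Len B a e⁻¹` for all `e ∈ E` (`hB.gen`, finite), so `Len B (a * k) g`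
for every product `g` of at most `k` elements of `E ∪ E⁻¹`.  Let `q` with `a * k + 1 ≤ 2 ^ q`, and
let `F₂ = {g | Len B 2 g}`, finite (`len_finite`).  If `v` has length at least `q * k₀`, write
`v = v₁ ++ v₂`, `v₁.length = q * k₀`: `g v = g v₁ ++ h v₂` with the section `h` of `g` at `v₁`, and
`Len.level` gives `Len B n' h` with `2 ^ q * n' ≤ a * k + 2 ^ q < 2 * 2 ^ q + ...`, so `n' ≤ 2`
(in fact `n' ≤ 1`); so `g v` is determined by the word `g v₁` of length `q * k₀` and by
`h ∈ F₂`: the ball of radius `k` around `v` has at most `|X| ^ (q * k₀) * F₂.ncard` elements.  If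
`v.length < q * k₀` the ball is contained in the set of the words of the length of `v`, at most
`|X| ^ (q * k₀)` elements.  Choose `q` least, so `2 ^ q ≤ 2 * (a * k + 1)`, and `|X| ≤ 2 ^ d`: the
bound is at most `(F₂.ncard + 1) * (2 * (a * k + 1)) ^ (k₀ * d)`, a polynomial in `k`, which is less
than `(1 + 1/N)^k` for large `k` (`tendsto_pow_const_div_const_pow_of_one_lt`); for `N = 0` take
`k = 1`: `0 < 1`. -/
theorem orbits_of_contracting [Finite X] [Nonempty X] (hss : SelfSimilar G) (hfg : G.FG)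
    (hc : Contracting G) : SubexponentialOrbits G := by
  classical
  obtain ⟨B, k₀, hB⟩ := exists_base hss hfg hc
  intro E N
  rcases Nat.eq_zero_or_pos N with hN | hN
  · refine ⟨1, fun v => ?_⟩
    subst hN
    simp
  -- the lengths of the generators
  have hE : ∃ a : ℕ, ∀ x : G, (x ∈ E ∨ x⁻¹ ∈ E) → Len B a (x : Tr X) := by
    have h1 : ∀ e : G, ∃ n, Len B n (e : Tr X) := fun e => hB.gen e.1 e.2
    choose f hf using h1
    refine ⟨E.sup f, fun x hx => ?_⟩
    rcases hx with hx | hx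
    · exact (hf x).mono (Finset.le_sup hx)
    · have h2 := ((hf x⁻¹).mono (Finset.le_sup hx)).inv hB
      have e : ((x⁻¹ : G) : Tr X)⁻¹ = (x : Tr X) := by
        rw [Subgroup.coe_inv, inv_inv]
      rw [e] at h2
      exact h2
  obtain ⟨a, ha⟩ := hE
  have hprod : ∀ l : List G, (∀ x ∈ l, x ∈ E ∨ x⁻¹ ∈ E) →
      Len B (a * l.length) ((l.prod : G) : Tr X) := by
    intro l
    induction l with
    | nil => intro _; exact len_one B _
    | cons x l ih =>
      intro hl
      rw [List.prod_cons, Subgroup.coe_mul, List.length_cons, mul_add, mul_one, add_comm]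
      exact (ha x (hl x List.mem_cons_self)).mul
        (ih fun y hy => hl y (List.mem_cons_of_mem _ hy))
  set F₂ : Set (Tr X) := {g | Len B 2 g} with hF₂
  have hF₂f : F₂.Finite := len_finite hB 2
  set s := Nat.card X with hs
  have hs1 : 1 ≤ s := Nat.card_pos
  obtain ⟨k, hk⟩ := ct_growth N (F₂.ncard + 1) (k₀ * s) hN a
  refine ⟨k, fun v => ?_⟩
  set Bl : Set (List X) :=
    {w : List X | ∃ l : List G, l.length ≤ k ∧ (∀ x ∈ l, x ∈ E ∨ x⁻¹ ∈ E) ∧ l.prod • v = w}
    with hBl
  -- the level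
  set q := Nat.log 2 (a * k) + 1 with hq
  have hq1 : a * k ≤ 2 ^ q := (Nat.lt_pow_succ_log_self (by norm_num) _).le
  have hq2 : 2 ^ q ≤ 2 * (a * k + 1) := by
    rw [hq, pow_succ, mul_comm]
    apply Nat.mul_le_mul_left
    rcases Nat.eq_zero_or_pos (a * k) with h0 | h0
    · rw [h0]; simp
    · exact (Nat.pow_log_le_self 2 h0.ne').trans (by omega)
  have hsmul : ∀ (g : G) (u : List X), g • u = (g : Tr X) u := fun g u => rfl
  -- the bound on the ball
  have hball : Bl.ncard ≤ (F₂.ncard + 1) * s ^ (q * k₀) := by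
    by_cases hv : q * k₀ ≤ v.length
    · set v₁ := v.take (q * k₀) with hv₁
      set v₂ := v.drop (q * k₀) with hv₂
      have hv1l : v₁.length = q * k₀ := by
        rw [hv₁, List.length_take]; omega
      have hvv : v = v₁ ++ v₂ := (List.take_append_drop _ _).symm
      have hsub : Bl ⊆ (fun p : List X × Tr X => p.1 ++ p.2 v₂) ''
          ({u : List X | u.length = q * k₀} ×ˢ F₂) := by
        rintro w ⟨l, hl1, hl2, rfl⟩
        have h1 := (hprod l hl2).mono (Nat.mul_le_mul_left a hl1)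
        obtain ⟨h, hh, hsec⟩ := sec_exists hss (l.prod : G).2 v₁
        obtain ⟨n', hn1, hn2⟩ := Len.level hss hB q hv1l h1 hsec
        have hn3 : n' ≤ 2 := by
          have h2 : 2 ^ q * n' ≤ 2 ^ q * 2 := by omega
          exact Nat.le_of_mul_le_mul_left h2 (by positivity)
        refine ⟨(((l.prod : G) : Tr X) v₁, h), ⟨?_, hn1.mono hn3⟩, ?_⟩
        · show (((l.prod : G) : Tr X) v₁).length = q * k₀
          rw [length_map hss (l.prod : G).2, hv1l]
        · show ((l.prod : G) : Tr X) v₁ ++ h v₂ = l.prod • v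
          rw [hsmul]
          conv_rhs => rw [hvv]
          exact (hsec v₂).symm
      have hfin : ({u : List X | u.length = q * k₀} ×ˢ F₂).Finite := (ct_fin _).prod hF₂f
      calc Bl.ncard ≤ ((fun p : List X × Tr X => p.1 ++ p.2 v₂) ''
          ({u : List X | u.length = q * k₀} ×ˢ F₂)).ncard :=
            Set.ncard_le_ncard hsub (hfin.image _)
        _ ≤ ({u : List X | u.length = q * k₀} ×ˢ F₂).ncard := Set.ncard_image_le hfin
        _ = s ^ (q * k₀) * F₂.ncard := by rw [Set.ncard_prod, ct_ncard]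
        _ ≤ (F₂.ncard + 1) * s ^ (q * k₀) := by
            rw [mul_comm]; exact Nat.mul_le_mul_right _ (by omega)
    · have hsub : Bl ⊆ {u : List X | u.length = v.length} := by
        rintro w ⟨l, _, _, rfl⟩
        rw [Set.mem_ofPred_eq, hsmul, length_map hss (l.prod : G).2]
      calc Bl.ncard ≤ {u : List X | u.length = v.length}.ncard :=
            Set.ncard_le_ncard hsub (ct_fin _)
        _ = s ^ v.length := ct_ncard _
        _ ≤ s ^ (q * k₀) := Nat.pow_le_pow_right hs1 (by omega)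
        _ ≤ (F₂.ncard + 1) * s ^ (q * k₀) := Nat.le_mul_of_pos_left _ (by omega)
  have hpow : s ^ (q * k₀) ≤ (2 * (a * k + 1)) ^ (k₀ * s) := by
    calc s ^ (q * k₀) ≤ (2 ^ s) ^ (q * k₀) :=
          Nat.pow_le_pow_left (Nat.lt_two_pow_self).le _
      _ = (2 ^ q) ^ (k₀ * s) := by
          rw [← pow_mul, ← pow_mul]; congr 1; ring
      _ ≤ (2 * (a * k + 1)) ^ (k₀ * s) := Nat.pow_le_pow_left hq2 _
  calc Bl.ncard * N ^ k ≤ ((F₂.ncard + 1) * s ^ (q * k₀)) * N ^ k := Nat.mul_le_mul_right _ hball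
    _ ≤ ((F₂.ncard + 1) * (2 * (a * k + 1)) ^ (k₀ * s)) * N ^ k :=
        Nat.mul_le_mul_right _ (Nat.mul_le_mul_left _ hpow)
    _ < (N + 1) ^ k := hk

end Pool.Agent.MZ71
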