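import Mathlib
import Pool.Agent.MZ71.Defs

set_option autoImplicit false
set_option linter.unusedSectionVars false

/-!
# MZ71/Rel: calculus of the products of the values over an orbit

`tot hG t l g = ∏_{v ∈ l} eta g v` (in the order of `l`); `spt hG t l g` is the list of the words of
`l` with nontrivial value.  `Orb H n r l`: `l` enumerates the `H`-orbit of `r` at level `n`.
-/

namespace Pool.Agent.MZ71

open scoped commutatorElement
open Pool.Agent.CW71 Pool.Agent.CB71 Pool.Agent.RB61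

section

variable {Γ : Type*} [Group Γ] {K : Subgroup Γ} [hKn : K.Normal]

/-- trivial factors can be removed.
PROOF.  Induction on `l`. -/
theorem prod_filter_eq {ι : Type*} (l : List ι) (f : ι → Γ) (P : ι → Bool)
    (h : ∀ i ∈ l, P i = false → f i = 1) : ((l.filter P).map f).prod = (l.map f).prod := by
  induction l with
  | nil => rfl
  | cons i l ih =>
    have ih' := ih fun j hj => h j (List.mem_cons_of_mem _ hj)
    rw [List.map_cons, List.prod_cons]
    cases hP : P i with
    | true =>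
      rw [List.filter_cons_of_pos hP, List.map_cons, List.prod_cons, ih']
    | false =>
      rw [List.filter_cons_of_neg (by rw [hP]; exact Bool.false_ne_true), ih',
        h i List.mem_cons_self hP, one_mul]

/-- PROOF.  Induction on `l`: with `x = f i`, `x' = g i`, `y = ∏ f`, `y' = ∏ g` (over the tail),
`(x' * y')⁻¹ * (x * y) = (y'⁻¹ * (x'⁻¹ * x) * y') * (y'⁻¹ * y)`; the first factor is in
`R K S (c + 1)` (`R_conj_K`, `y'⁻¹ ∈ K`), the second in `R K S (l.length * (c + 1 + q))`; `hq.mul`. -/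
theorem list_rel {A : Subgroup Γ} {S : List Γ} {q : ℕ} (hq : Cst K A S q) {ι : Type*} (l : List ι)
    (f g : ι → Γ) (hg : ∀ i ∈ l, g i ∈ K) (c : ℕ) (h : ∀ i ∈ l, (g i)⁻¹ * f i ∈ R K S c) :
    ((l.map g).prod)⁻¹ * (l.map f).prod ∈ R K S (l.length * (c + 1 + q)) := by
  induction l with
  | nil =>
    rw [List.map_nil, List.map_nil, List.prod_nil, inv_one, one_mul]
    exact one_mem_R S _
  | cons i l ih =>
    have ih' := ih (fun j hj => hg j (List.mem_cons_of_mem _ hj))
      (fun j hj => h j (List.mem_cons_of_mem _ hj))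
    have hy' : (l.map g).prod ∈ K :=
      prod_mem_K l g fun j hj => hg j (List.mem_cons_of_mem _ hj)
    have h1 := R_conj_K (h i List.mem_cons_self) (K.inv_mem hy')
    have h2 := hq.mul h1 ih'
    rw [List.map_cons, List.map_cons, List.prod_cons, List.prod_cons, List.length_cons]
    have e1 : (g i * (l.map g).prod)⁻¹ * (f i * (l.map f).prod) =
        (l.map g).prod⁻¹ * ((g i)⁻¹ * f i) * (l.map g).prod⁻¹⁻¹ *
          ((l.map g).prod⁻¹ * (l.map f).prod) := by group
    rw [e1]
    refine R_mono (le_of_eq ?_) h2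
    ring

/-- conjugating the factors by elements of `A`.
PROOF.  `f⁻¹ * (γ * f * γ⁻¹) = f⁻¹ * ⁅γ, f⁆ * f ∈ R K S (q + 1)` (`hq.conj`, `R_conj_K`); `list_rel`
with `c = q + 1`. -/
theorem list_conj_rel {A : Subgroup Γ} {S : List Γ} {q : ℕ} (hq : Cst K A S q) {ι : Type*}
    (l : List ι) (f γ : ι → Γ) (hf : ∀ i ∈ l, f i ∈ K) (hγ : ∀ i ∈ l, γ i ∈ A) :
    ((l.map f).prod)⁻¹ * (l.map fun i => γ i * f i * (γ i)⁻¹).prod ∈
      R K S (l.length * (2 * q + 2)) := by
  have h1 := list_rel hq l (fun i => γ i * f i * (γ i)⁻¹) f hf (q + 1) (fun i hi => by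
    have h2 := R_conj_K (hq.conj (γ i) (hγ i hi) (f i) (hf i hi)) (K.inv_mem (hf i hi))
    have e1 : (f i)⁻¹ * (γ i * f i * (γ i)⁻¹) = (f i)⁻¹ * ⁅γ i, f i⁆ * (f i)⁻¹⁻¹ := by
      rw [commutatorElement_def]; group
    rw [e1]
    exact h2)
  refine R_mono (le_of_eq ?_) h1
  ring

end

variable {X : Type} {G : Subgroup (Tr X)} {K : Subgroup G} [hKn : K.Normal]
  {H : Subgroup G} {n : ℕ} {r : List X} {l : List (List X)} {t : List X → G}

/-- PROOF.  `prod_filter_eq`. -/
theorem tot_eq_spt (hG : SelfSimilar G) (t : List X → G) (l : List (List X)) (g : G) :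
    tot hG t l g = ((spt hG t l g).map (eta hG t g)).prod := by
  classical
  unfold tot spt
  refine (prod_filter_eq l (eta hG t g) _ fun v _ hv => ?_).symm
  have h := of_decide_eq_false hv
  exact Classical.not_not.1 h

/-- PROOF.  If `eta (g * h) v = eta g (h • v) * eta h v ≠ 1` then `eta g (h • v) ≠ 1` or
`eta h v ≠ 1`, and `v ↦ h • v` is a bijection of the set of the members of `l`
(`Orb.smul_mem`), so the number of the `v ∈ l` with `eta g (h • v) ≠ 1` is `(spt g).length`.
(For instance work with `l.toFinset` and `Finset.card`, `hO.nd`.) -/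
theorem spt_mul_len (hG : SelfSimilar G) (hO : Orb H n r l) {g h : G} (hh : h ∈ H) :
    (spt hG t l (g * h)).length ≤ (spt hG t l g).length + (spt hG t l h).length := by
  classical
  have nd : ∀ g, (spt hG t l g).Nodup := fun g => hO.nd.filter _
  rw [← List.toFinset_card_of_nodup (nd (g * h)), ← List.toFinset_card_of_nodup (nd g),
    ← List.toFinset_card_of_nodup (nd h)]
  have hsub : (spt hG t l (g * h)).toFinset ⊆
      (spt hG t l g).toFinset.image (fun v => h⁻¹ • v) ∪ (spt hG t l h).toFinset := by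
    intro v hv
    rw [List.mem_toFinset, mem_spt] at hv
    rw [Finset.mem_union, Finset.mem_image]
    by_cases h1 : eta hG t h v = 1
    · left
      refine ⟨h • v, ?_, inv_smul_smul h v⟩
      rw [List.mem_toFinset, mem_spt]
      refine ⟨hO.smul_mem hG hh hv.1, fun h2 => hv.2 ?_⟩
      rw [eta_mul, h1, h2, mul_one]
    · right
      rw [List.mem_toFinset, mem_spt]
      exact ⟨hv.1, h1⟩
  refine (Finset.card_le_card hsub).trans ((Finset.card_union_le _ _).trans ?_)
  exact Nat.add_le_add_right Finset.card_image_le _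

/-- PROOF.  `eta g⁻¹ v = (eta g (g⁻¹ • v))⁻¹` (`eta_inv`), bijection `v ↦ g⁻¹ • v` of `l`. -/
theorem spt_inv_len (hG : SelfSimilar G) (hO : Orb H n r l) {g : G} (hg : g ∈ H) :
    (spt hG t l g⁻¹).length ≤ (spt hG t l g).length := by
  classical
  have nd : ∀ g, (spt hG t l g).Nodup := fun g => hO.nd.filter _
  rw [← List.toFinset_card_of_nodup (nd g⁻¹), ← List.toFinset_card_of_nodup (nd g)]
  have hsub : (spt hG t l g⁻¹).toFinset ⊆
      (spt hG t l g).toFinset.image (fun v => g • v) := by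
    intro v hv
    rw [List.mem_toFinset, mem_spt] at hv
    rw [Finset.mem_image]
    refine ⟨g⁻¹ • v, ?_, smul_inv_smul g v⟩
    rw [List.mem_toFinset, mem_spt]
    refine ⟨hO.smul_mem hG (H.inv_mem hg) hv.1, fun h2 => hv.2 ?_⟩
    rw [eta_inv, h2, inv_one]
  exact (Finset.card_le_card hsub).trans Finset.card_image_le

private lemma Rel_filter_or {ι : Type*} (l : List ι) (P Q : ι → Bool) :
    (l.filter fun v => P v || Q v).length ≤ (l.filter P).length + (l.filter Q).length := by
  induction l with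
  | nil => simp
  | cons i l ih =>
    cases hP : P i <;> cases hQ : Q i <;> simp [hP, hQ] <;> omega

/-- PROOF.  Let `l'` be the list of the `v ∈ l` with `eta e v ≠ 1` or `eta e' v ≠ 1`; its length is at
most `N + N'`.  All three products are the products over `l'` (`prod_filter_eq`, `eta_mul_PG`);
`Ap.list_mul`. -/
theorem mul_rel (hG : SelfSimilar G) (hO : Orb H n r l) {e e' : G} (he : e ∈ PG K n)
    (he' : e' ∈ PG K n) {N N' : ℕ} (h : (spt hG t l e).length ≤ N)
    (h' : (spt hG t l e').length ≤ N') :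
    Ap K (N + N') (tot hG t l (e * e')) (tot hG t l e * tot hG t l e') := by
  classical
  set P : List X → Bool := fun v => decide (eta hG t e v ≠ 1) with hP
  set Q : List X → Bool := fun v => decide (eta hG t e' v ≠ 1) with hQ
  have hlen : (l.filter fun v => P v || Q v).length ≤ N + N' :=
    (Rel_filter_or l P Q).trans (Nat.add_le_add h h')
  have hvl : ∀ v ∈ l, v.length = n := fun v hv => ((hO.mem v).1 hv).1
  have hPf : ∀ v, (P v || Q v) = false → eta hG t e v = 1 ∧ eta hG t e' v = 1 := by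
    intro v hv
    rw [Bool.or_eq_false_iff] at hv
    exact ⟨Classical.not_not.1 (of_decide_eq_false hv.1),
      Classical.not_not.1 (of_decide_eq_false hv.2)⟩
  have e1 : tot hG t l e = ((l.filter fun v => P v || Q v).map (eta hG t e)).prod :=
    (prod_filter_eq l (eta hG t e) _ fun v _ hv => (hPf v hv).1).symm
  have e2 : tot hG t l e' = ((l.filter fun v => P v || Q v).map (eta hG t e')).prod :=
    (prod_filter_eq l (eta hG t e') _ fun v _ hv => (hPf v hv).2).symm
  have e3 : tot hG t l (e * e') =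
      ((l.filter fun v => P v || Q v).map (eta hG t (e * e'))).prod :=
    (prod_filter_eq l (eta hG t (e * e')) _ fun v hv hv' => by
      rw [eta_mul_PG hG t e he' (hvl v hv), (hPf v hv').1, (hPf v hv').2, one_mul]).symm
  have e4 : (l.filter fun v => P v || Q v).map (eta hG t (e * e')) =
      (l.filter fun v => P v || Q v).map (fun v => eta hG t e v * eta hG t e' v) :=
    List.map_congr_left fun v hv => eta_mul_PG hG t e he' (hvl v (List.mem_of_mem_filter hv))
  rw [e1, e2, e3, e4]
  exact (Ap.list_mul _ _ _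
    (fun v hv => eta_PG_mem hG t he (hvl v (List.mem_of_mem_filter hv)))
    (fun v hv => eta_PG_mem hG t he' (hvl v (List.mem_of_mem_filter hv)))).mono hlen

/-- PROOF.  `spt e⁻¹ = spt e` (`eta_inv_PG`), so `tot e⁻¹ = ∏_{v ∈ spt e} (eta e v)⁻¹`, which is the
inverse of the product in the reversed order (`List.prod_inv_reverse`): `Ap.perm_map` with
`List.reverse_perm`, `Ap.inv`. -/
theorem inv_rel (hG : SelfSimilar G) (hO : Orb H n r l) {e : G} (he : e ∈ PG K n) {N : ℕ}
    (h : (spt hG t l e).length ≤ N) :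
    (spt hG t l e⁻¹).length ≤ N ∧ Ap K N (tot hG t l e⁻¹) (tot hG t l e)⁻¹ := by
  classical
  have hvl : ∀ v ∈ l, v.length = n := fun v hv => ((hO.mem v).1 hv).1
  have e0 : spt hG t l e⁻¹ = spt hG t l e := by
    unfold spt
    refine List.filter_congr fun v hv => ?_
    rw [eta_inv_PG hG t he (hvl v hv)]
    simp only [ne_eq, inv_eq_one]
  refine ⟨e0 ▸ h, ?_⟩
  have e1 : tot hG t l e⁻¹ = ((spt hG t l e).map fun v => (eta hG t e v)⁻¹).prod := by
    rw [tot_eq_spt, e0]
    congr 1
    exact List.map_congr_left fun v hv => eta_inv_PG hG t he (hvl v (mem_spt.1 hv).1)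
  have e2 : (tot hG t l e)⁻¹ = ((spt hG t l e).reverse.map fun v => (eta hG t e v)⁻¹).prod := by
    rw [tot_eq_spt, List.prod_inv_reverse, List.map_map, ← List.map_reverse]
    rfl
  rw [e1, e2]
  exact (Ap.perm_map (List.reverse_perm _).symm (fun v => (eta hG t e v)⁻¹)
    (fun v hv => K.inv_mem (eta_PG_mem hG t he (hvl v (mem_spt.1 hv).1)))).mono h

/-- PROOF.  By `eta_conj_PG` the value of `h * e * h⁻¹` at `v` is `γ * eta e w * γ⁻¹` with
`w = h⁻¹ • v`, `γ = eta h w ∈ secG hG H r` (`eta_mem_orb`).  Let `l' = spt (h * e * h⁻¹)`; the list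
`l'.map (h⁻¹ • ·)` is a permutation of `spt e` (no repetitions, same members:
`List.perm_of_nodup_nodup_toFinset_eq` or `List.perm_ext_iff_of_nodup`).  So with
`P = ∏_{v ∈ l'} eta e (h⁻¹ • v)`: `P ≈ tot e` up to `N` commutators (`Ap.perm_map`, `tot_eq_spt`), and
`P⁻¹ * tot (h * e * h⁻¹) ∈ R K S (N * (2 * q + 2))` (`list_conj_rel`).  Write `P = tot e * c`,
`c ∈ CK K N`; then `(tot e)⁻¹ * tot (h e h⁻¹) = c * (P⁻¹ * tot (h e h⁻¹))` (`CK_mul_R`). -/
theorem conj_rel (hG : SelfSimilar G) (hO : Orb H n r l) (ht : Trn H t) {S : List G} {q : ℕ}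
    (hq : Cst K (secG hG H r) S q) {h e : G} (hh : h ∈ H) (he : e ∈ PG K n) {N : ℕ}
    (hN : (spt hG t l e).length ≤ N) :
    (spt hG t l (h * e * h⁻¹)).length ≤ N ∧
      (tot hG t l e)⁻¹ * tot hG t l (h * e * h⁻¹) ∈ R K S (N * (2 * q + 3)) := by
  classical
  have nd : ∀ g, (spt hG t l g).Nodup := fun g => hO.nd.filter _
  have hvl : ∀ v ∈ l, v.length = n := fun v hv => ((hO.mem v).1 hv).1
  have hil : ∀ v ∈ l, h⁻¹ • v ∈ l := fun v hv => hO.smul_mem hG (H.inv_mem hh) hv
  set l' := spt hG t l (h * e * h⁻¹) with hl'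
  have hl'l : ∀ v ∈ l', v ∈ l := fun v hv => (mem_spt.1 hv).1
  have hcj : ∀ v ∈ l, eta hG t (h * e * h⁻¹) v =
      eta hG t h (h⁻¹ • v) * eta hG t e (h⁻¹ • v) * (eta hG t h (h⁻¹ • v))⁻¹ :=
    fun v hv => eta_conj_PG hG t h he (hvl v hv)
  have hperm : (l'.map fun v => h⁻¹ • v).Perm (spt hG t l e) := by
    have hnd1 : (l'.map fun v => h⁻¹ • v).Nodup := (nd _).map (MulAction.injective h⁻¹)
    rw [List.perm_ext_iff_of_nodup hnd1 (nd e)]
    intro w
    rw [List.mem_map, mem_spt]
    constructor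
    · rintro ⟨v, hv, rfl⟩
      have hv' := mem_spt.1 hv
      refine ⟨hil v hv'.1, fun h1 => hv'.2 ?_⟩
      rw [hcj v hv'.1, h1, mul_one, mul_inv_cancel]
    · rintro ⟨h1, h2⟩
      have h3 : h • w ∈ l := hO.smul_mem hG hh h1
      refine ⟨h • w, ?_, inv_smul_smul h w⟩
      rw [hl', mem_spt]
      refine ⟨h3, fun h4 => h2 ?_⟩
      rw [hcj _ h3, inv_smul_smul] at h4
      have h5 : eta hG t h w * eta hG t e w = eta hG t h w := by
        rwa [mul_inv_eq_one] at h4
      exact mul_eq_left.1 h5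
  have hlen : l'.length = (spt hG t l e).length := by
    rw [← hperm.length_eq, List.length_map]
  refine ⟨hlen ▸ hN, ?_⟩
  have hK : ∀ v ∈ l', eta hG t e (h⁻¹ • v) ∈ K := fun v hv =>
    eta_PG_mem hG t he (hvl _ (hil v (hl'l v hv)))
  have h1 : Ap K l'.length (l'.map fun v => eta hG t e (h⁻¹ • v)).prod (tot hG t l e) := by
    have h2 := Ap.perm_map (K := K) hperm (eta hG t e) (fun v hv => by
      obtain ⟨w, hw, rfl⟩ := List.mem_map.1 hv
      exact hK w hw)
    rw [List.length_map, List.map_map, ← tot_eq_spt] at h2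
    exact h2
  obtain ⟨c, hc, hPc⟩ := h1
  have h3 := list_conj_rel hq l' (fun v => eta hG t e (h⁻¹ • v))
    (fun v => eta hG t h (h⁻¹ • v)) hK (fun v hv =>
      eta_mem_orb hG hO ht hh (hil v (hl'l v hv)))
  have h4 : (l'.map fun v => eta hG t h (h⁻¹ • v) * eta hG t e (h⁻¹ • v) *
      (eta hG t h (h⁻¹ • v))⁻¹).prod = tot hG t l (h * e * h⁻¹) := by
    rw [tot_eq_spt]
    congr 1
    exact List.map_congr_left fun v hv => (hcj v (hl'l v hv)).symm
  have h3' : ((l'.map fun v => eta hG t e (h⁻¹ • v)).prod)⁻¹ * tot hG t l (h * e * h⁻¹) ∈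
      R K S (l'.length * (2 * q + 2)) := by
    rw [← h4]
    exact h3
  rw [hPc] at h3'
  have h5 := CK_mul_R hc h3'
  have e5 : c * ((tot hG t l e * c)⁻¹ * tot hG t l (h * e * h⁻¹)) =
      (tot hG t l e)⁻¹ * tot hG t l (h * e * h⁻¹) := by group
  rw [e5] at h5
  refine R_mono ?_ h5
  rw [hlen]
  calc (spt hG t l e).length * (2 * q + 2) + (spt hG t l e).length =
      (spt hG t l e).length * (2 * q + 3) := by ring
    _ ≤ N * (2 * q + 3) := Nat.mul_le_mul_right _ hN

/-- change of the transports: `gp` is in RB61/Gath.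
PROOF.  Let `k v = sec y v` for `v` of length `n`.  For `v ∈ l`:
`sec (t' v) v * k v * (sec (t' v) v)⁻¹ = γ * eta hG t y v * γ⁻¹` with
`γ = sec (t' v) v * (sec (t v) v)⁻¹` (`eta_PG`), and `γ ∈ secG hG H r`: it is the section at `r` of
`t' v * (t v)⁻¹ ∈ H`, which fixes `r` (as in `eta_mem`).  `list_conj_rel`, and
`l.length * (2 * q + 2) `. -/
theorem gp_rel (hG : SelfSimilar G) (hO : Orb H n r l) (ht : Trn H t) {t' : List X → G}
    (ht' : Trn H t') {S : List G} {q : ℕ} (hq : Cst K (secG hG H r) S q) {y : G}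
    (hy : y ∈ PG K n) {k : List X → G} (hk : ∀ v : List X, v.length = n → k v = sec hG y v) :
    (tot hG t l y)⁻¹ * gp hG t' k l ∈ R K S (l.length * (2 * q + 2)) := by
  have hvl : ∀ v ∈ l, v.length = n := fun v hv => ((hO.mem v).1 hv).1
  have h1 := list_conj_rel hq l (eta hG t y)
    (fun v => sec hG (t' v) v * (sec hG (t v) v)⁻¹)
    (fun v hv => eta_PG_mem hG t hy (hvl v hv)) (fun v hv => by
      have hr : rtG H v = r := ((hO.mem v).1 hv).2
      have e1 : (t v)⁻¹ • rtG H v = v := by rw [← ht.act v, inv_smul_smul]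
      rw [← hr]
      refine ⟨t' v * (t v)⁻¹, H.mul_mem (ht'.mem v) (H.inv_mem (ht.mem v)), ?_, ?_⟩
      · rw [mul_smul, e1, ht'.act]
      · have e2 : sec hG (t v)⁻¹ (rtG H v) = (sec hG (t v) v)⁻¹ := by
          have := sec_inv hG (t v) v
          rwa [ht.act] at this
        rw [sec_mul, e1, e2])
  have h2 : (l.map fun v => sec hG (t' v) v * (sec hG (t v) v)⁻¹ * eta hG t y v *
      (sec hG (t' v) v * (sec hG (t v) v)⁻¹)⁻¹) =
      l.map fun v => sec hG (t' v) v * k v * (sec hG (t' v) v)⁻¹ := by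
    refine List.map_congr_left fun v hv => ?_
    rw [eta_PG hG t hy (hvl v hv), hk v (hvl v hv)]
    group
  rw [h2] at h1
  exact h1

end Pool.Agent.MZ71
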