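import Mathlib
import Pool.Agent.MZ71.Rel

set_option autoImplicit false
set_option linter.unusedSectionVars false

/-!
# MZ71/HatD: elements of small support and the product of their values

`Sm hG K S t l n N C e` (MZ71/Defs): `e ∈ PG K n`, at most `N` nontrivial values on `l`, and
`tot e ∈ R K S C`.
-/

namespace Pool.Agent.MZ71

open scoped commutatorElement
open Pool.Agent.CW71 Pool.Agent.CB71 Pool.Agent.RB61

variable {X : Type} {G : Subgroup (Tr X)} {K : Subgroup G} [hKn : K.Normal]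
  {H : Subgroup G} {n : ℕ} {r : List X} {l : List (List X)} {t : List X → G}

/-- PROOF.  `spt_mul_len` (`e' ∈ PG K n ≤ K ≤ H`, `PG_le`), `mul_rel`, `hq.mul`, `Ap.R`. -/
theorem Sm.mul [Nonempty X] (hB : Br G K) (hKH : K ≤ H) (hO : Orb H n r l) {S : List G} {q : ℕ}
    (hq : Cst K (secG hB.self H r) S q) {N N' C C' : ℕ} {e e' : G}
    (h : Sm hB.self K S t l n N C e) (h' : Sm hB.self K S t l n N' C' e') :
    Sm hB.self K S t l n (N + N') (C + C' + q + (N + N')) (e * e') := by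
  have he' : e' ∈ H := hKH (PG_le hB n h'.mem)
  refine ⟨(PG K n).mul_mem h.mem h'.mem, ?_, ?_⟩
  · exact (spt_mul_len hB.self hO he').trans (Nat.add_le_add h.len h'.len)
  · exact Ap.R (mul_rel hB.self hO h.mem h'.mem h.len h'.len) (hq.mul h.tot h'.tot)

/-- PROOF.  `inv_rel`, `hq.inv`, `Ap.R`. -/
theorem Sm.inv (hB : Br G K) (hO : Orb H n r l) {S : List G} {q : ℕ}
    (hq : Cst K (secG hB.self H r) S q) {N C : ℕ} {e : G} (h : Sm hB.self K S t l n N C e) :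
    Sm hB.self K S t l n N (C + q + N) e⁻¹ := by
  obtain ⟨h1, h2⟩ := inv_rel hB.self hO h.mem h.len
  exact ⟨(PG K n).inv_mem h.mem, h1, Ap.R h2 (hq.inv h.tot)⟩

/-- PROOF.  `conj_rel`: `tot (h e h⁻¹) = tot e * ((tot e)⁻¹ * tot (h e h⁻¹))`, `hq.mul`;
`(PG_normal hB.self n).conj_mem`. -/
theorem Sm.conj (hB : Br G K) (hO : Orb H n r l) (ht : Trn H t) {S : List G} {q : ℕ}
    (hq : Cst K (secG hB.self H r) S q) {N C : ℕ} {h e : G} (hh : h ∈ H)
    (he : Sm hB.self K S t l n N C e) :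
    Sm hB.self K S t l n N (C + N * (2 * q + 3) + q) (h * e * h⁻¹) := by
  obtain ⟨h1, h2⟩ := conj_rel hB.self hO ht hq hh he.mem he.len
  refine ⟨(PG_normal hB.self n).conj_mem _ he.mem h, h1, ?_⟩
  have h3 := hq.mul he.tot h2
  rwa [mul_inv_cancel_left] at h3

/-- PROOF.  `⁅h, i⁆ = (h * i * h⁻¹) * i⁻¹`, both factors in `PG K n` (`PG_normal`), with at most `N`
nontrivial values (`conj_rel`, `inv_rel`).  With `T = tot i ∈ K` (values in `K`, `eta_PG_mem`,
`prod_mem_K`): `tot ⁅h, i⁆ ≈ tot (h i h⁻¹) * tot i⁻¹` (cost `2 * N`, `mul_rel`),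
`tot i⁻¹ ≈ T⁻¹` (cost `N`), `tot (h i h⁻¹) = T * ρ`, `ρ ∈ R K S (N * (2 * q + 3))`; and
`T * ρ * T⁻¹ ∈ R K S (N * (2 * q + 3) + 1)` (`R_conj_K`).  Total `N * (2 * q + 3) + 1 + 3 * N`. -/
theorem Sm.comm [Nonempty X] (hB : Br G K) (hKH : K ≤ H) (hO : Orb H n r l) (ht : Trn H t)
    {S : List G} {q : ℕ} (hq : Cst K (secG hB.self H r) S q) {N : ℕ} {h i : G} (hh : h ∈ H)
    (hi : i ∈ PG K n) (hN : (spt hB.self t l i).length ≤ N) :
    Sm hB.self K S t l n (2 * N) (N * (2 * q + 6) + 1) ⁅h, i⁆ := by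
  have e0 : ⁅h, i⁆ = (h * i * h⁻¹) * i⁻¹ := by rw [commutatorElement_def]
  have hc : h * i * h⁻¹ ∈ PG K n := (PG_normal hB.self n).conj_mem _ hi h
  have hi' : i⁻¹ ∈ PG K n := (PG K n).inv_mem hi
  obtain ⟨c1, c2⟩ := conj_rel hB.self hO ht hq hh hi hN
  obtain ⟨i1, i2⟩ := inv_rel hB.self hO hi hN
  rw [e0]
  refine ⟨(PG K n).mul_mem hc hi', ?_, ?_⟩
  · have h1 := spt_mul_len (t := t) hB.self hO (g := h * i * h⁻¹) (hKH (PG_le hB n hi'))
    omega
  · have h1 := mul_rel hB.self hO hc hi' c1 i1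
    have h2 := h1.trans (i2.mul_left (MZ71.tot hB.self t l (h * i * h⁻¹)))
    have hT : MZ71.tot hB.self t l i ∈ K :=
      prod_mem_K l _ fun v hv => eta_PG_mem hB.self t hi ((hO.mem v).1 hv).1
    have h3 := R_conj_K c2 hT
    rw [mul_inv_cancel_left] at h3
    have h4 := Ap.R h2 h3
    refine R_mono (le_of_eq ?_) h4
    ring

theorem Sm.mono {hG : SelfSimilar G} {S : List G} {N N' C C' : ℕ} {e : G}
    (h : Sm hG K S t l n N C e) (hN : N ≤ N') (hC : C ≤ C') : Sm hG K S t l n N' C' e :=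
  ⟨h.mem, h.len.trans hN, R_mono hC h.tot⟩

theorem Sm.one (hG : SelfSimilar G) {S : List G} {C : ℕ} : Sm hG K S t l n 0 C 1 := by
  refine ⟨(PG K n).one_mem, ?_, ?_⟩
  · have : spt hG t l 1 = [] := by
      rw [List.eq_nil_iff_forall_not_mem]
      intro v hv
      exact (mem_spt.1 hv).2 (eta_one hG t v)
    rw [this]; simp
  · have : MZ71.tot hG t l 1 = 1 := by
      unfold MZ71.tot
      apply List.prod_eq_one
      intro x hx
      obtain ⟨v, _, rfl⟩ := List.mem_map.1 hx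
      exact eta_one hG t v
    rw [this]
    exact one_mem_R S C

private theorem cp_mem_aux {H : Subgroup G} (L : List (G × G)) (h : ∀ p ∈ L, p.1 ∈ H ∧ p.2 ∈ H) :
    cp L ∈ H := by
  unfold cp
  apply H.list_prod_mem
  intro x hx
  obtain ⟨p, hp, rfl⟩ := List.mem_map.1 hx
  obtain ⟨h1, h2⟩ := h p hp
  rw [commutatorElement_def]
  exact H.mul_mem (H.mul_mem (H.mul_mem h1 h2) (H.inv_mem h1)) (H.inv_mem h2)

/-- PROOF.  Induction on `m`.  `m = 0`: `L = []`, `ε = 1` (`tot 1 = 1`, `eta_one`), `C₀ = 0`.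
Step: `L = (a, b) :: L'`.  Put `a' = a * i a`, `b' = b * i b` (in `H`), `u = (i a)⁻¹`, `w = (i b)⁻¹`
(in `PG K n`, at most `B` nontrivial values by `inv_rel`), so `a = a' * u`, `b = b' * w` and
`⁅a', b'⁆⁻¹ * ⁅a, b⁆ = ε₁` with (see `comm_congr` in RB61/BSec)
`ε₁ = (x * ⁅u, b'⁆ * x⁻¹) * (b' * ⁅a' * u, w⁆ * b'⁻¹)`, `x = ⁅a', b'⁆⁻¹ * a' ∈ H`.
`⁅u, b'⁆ = ⁅b', u⁆⁻¹`: `Sm.comm`, `Sm.inv`, `Sm.conj`; `⁅a' * u, w⁆`: `Sm.comm`, `Sm.conj`; `Sm.mul`:
`ε₁` has at most `4 * B` nontrivial values and cost at most `C₁ * (B + 1)` with `C₁` depending on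
`q` only.  With `L̂ = L.map (..)`: `cp L = ⁅a', b'⁆ * ε₁ * cp L' = ⁅a', b'⁆ * ε₁ * cp L̂' * ε'
= cp L̂ * ((cp L̂')⁻¹ * ε₁ * cp L̂') * ε'`, `cp L̂' ∈ H`: `Sm.conj`, `Sm.mul`.  Total: support
`4 * B + m * (4 * B)`, cost at most `C₀' * (B + 1)` with `C₀'` depending on `q`, `m`. -/
theorem hat_diff [Nonempty X] (hB : Br G K) (q m : ℕ) : ∃ C₀ : ℕ, ∀ (H : Subgroup G), K ≤ H →
    ∀ (n : ℕ) (r : List X) (l : List (List X)) (t : List X → G) (S : List G), Orb H n r l →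
      Trn H t → Cst K (secG hB.self H r) S q → ∀ (B : ℕ) (i : G → G) (L : List (G × G)),
        L.length = m → (∀ g, i g ∈ PG K n) → (∀ p ∈ L, p.1 ∈ H ∧ p.2 ∈ H) →
        (∀ p ∈ L, (spt hB.self t l (i p.1)).length ≤ B ∧ (spt hB.self t l (i p.2)).length ≤ B) →
        ∃ ε, Sm hB.self K S t l n (m * (4 * B)) (C₀ * (B + 1)) ε ∧
          cp L = cp (L.map fun p => (p.1 * i p.1, p.2 * i p.2)) * ε := by
  induction m with
  | zero =>
    refine ⟨0, ?_⟩
    intro H hKH n r l t S hO ht hq B i L hL hi hLH hsp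
    have hL0 : L = [] := List.eq_nil_of_length_eq_zero hL
    subst hL0
    refine ⟨1, ?_, ?_⟩
    · rw [Nat.zero_mul, Nat.zero_mul]
      exact Sm.one hB.self
    · simp [cp]
  | succ m ih =>
    obtain ⟨C', hC'⟩ := ih
    refine ⟨C' + (22 * q + 46 + 4 * m), ?_⟩
    intro H hKH n r l t S hO ht hq B i L hL hi hLH hsp
    obtain ⟨p, L', rfl⟩ : ∃ p L', L = p :: L' := by
      cases L with
      | nil => simp at hL
      | cons p L' => exact ⟨p, L', rfl⟩
    obtain ⟨a, b⟩ := p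
    have hLm : L'.length = m := by simpa using hL
    have hLH' : ∀ p ∈ L', p.1 ∈ H ∧ p.2 ∈ H := fun p hp => hLH p (List.mem_cons_of_mem _ hp)
    obtain ⟨ε', hε', hcp⟩ := hC' H hKH n r l t S hO ht hq B i L' hLm hi hLH'
      (fun p hp => hsp p (List.mem_cons_of_mem _ hp))
    obtain ⟨ha, hb⟩ := hLH (a, b) List.mem_cons_self
    obtain ⟨hsa, hsb⟩ := hsp (a, b) List.mem_cons_self
    simp only at ha hb hsa hsb
    have hPH : PG K n ≤ H := (PG_le hB n).trans hKH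
    set a' := a * i a with ha'
    set b' := b * i b with hb'
    set u := (i a)⁻¹ with hu
    set w := (i b)⁻¹ with hw
    have ea : a' * u = a := by rw [ha', hu, mul_inv_cancel_right]
    have eb : b' * w = b := by rw [hb', hw, mul_inv_cancel_right]
    have ha'H : a' ∈ H := H.mul_mem ha (hPH (hi a))
    have hb'H : b' ∈ H := H.mul_mem hb (hPH (hi b))
    have huP : u ∈ PG K n := (PG K n).inv_mem (hi a)
    have hwP : w ∈ PG K n := (PG K n).inv_mem (hi b)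
    have hul : (spt hB.self t l u).length ≤ B := (inv_rel hB.self hO (hi a) hsa).1
    have hwl : (spt hB.self t l w).length ≤ B := (inv_rel hB.self hO (hi b) hsb).1
    set x := ⁅a', b'⁆⁻¹ * a' with hx
    have hxH : x ∈ H := by
      have : ⁅a', b'⁆ ∈ H := by
        rw [commutatorElement_def]
        exact H.mul_mem (H.mul_mem (H.mul_mem ha'H hb'H) (H.inv_mem ha'H)) (H.inv_mem hb'H)
      exact H.mul_mem (H.inv_mem this) ha'H
    have s1 := Sm.comm hB hKH hO ht hq hb'H huP hul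
    have s2 := Sm.inv hB hO hq s1
    rw [commutatorElement_inv] at s2
    have s3 := Sm.conj hB hO ht hq hxH s2
    have s4 := Sm.comm hB hKH hO ht hq (H.mul_mem ha'H (hPH huP)) hwP hwl
    have s5 := Sm.conj hB hO ht hq hb'H s4
    have s6 := Sm.mul hB hKH hO hq s3 s5
    set ε₁ := x * ⁅u, b'⁆ * x⁻¹ * (b' * ⁅a' * u, w⁆ * b'⁻¹) with hε₁
    have e1 : ⁅a, b⁆ = ⁅a', b'⁆ * ε₁ := by
      rw [← ea, ← eb, hε₁, hx]
      simp only [commutatorElement_def]
      group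
    set Q := cp (L'.map fun p => (p.1 * i p.1, p.2 * i p.2)) with hQ
    have hQH : Q ∈ H := by
      rw [hQ]
      apply cp_mem_aux
      intro p hp
      obtain ⟨p', hp', rfl⟩ := List.mem_map.1 hp
      exact ⟨H.mul_mem (hLH' p' hp').1 (hPH (hi _)), H.mul_mem (hLH' p' hp').2 (hPH (hi _))⟩
    have s7 := Sm.conj hB hO ht hq (H.inv_mem hQH) s6
    have s8 := Sm.mul hB hKH hO hq s7 hε'
    refine ⟨Q⁻¹ * ε₁ * Q⁻¹⁻¹ * ε', s8.mono ?_ ?_, ?_⟩
    · apply le_of_eq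
      ring
    · have hexp : B * (2 * q + 6) + 1 + q + 2 * B + 2 * B * (2 * q + 3) + q +
          (B * (2 * q + 6) + 1 + 2 * B * (2 * q + 3) + q) + q + (2 * B + 2 * B) +
          (2 * B + 2 * B) * (2 * q + 3) + q + C' * (B + 1) + q +
          ((2 * B + 2 * B) + m * (4 * B)) ≤ (C' + (22 * q + 46 + 4 * m)) * (B + 1) := by
        nlinarith [Nat.zero_le q, Nat.zero_le m, Nat.zero_le B, Nat.zero_le (B * q),
          Nat.zero_le (m * B), Nat.zero_le C']
      exact hexp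
    · have e2 : cp ((a, b) :: L') = ⁅a, b⁆ * cp L' := by
        unfold cp
        rw [List.map_cons, List.prod_cons]
      have e3 : cp (((a, b) :: L').map fun p => (p.1 * i p.1, p.2 * i p.2)) = ⁅a', b'⁆ * Q := by
        unfold cp
        rw [List.map_cons, List.map_cons, List.prod_cons]
        rfl
      rw [e2, e3, hcp, e1]
      group

end Pool.Agent.MZ71
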