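import Mathlib
import Pool.Agent.MZ71.Defs

set_option autoImplicit false
set_option linter.unusedSectionVars false

/-!
# MZ71/Reps: representatives of the cosets, elements with representative values, tokens
-/

namespace Pool.Agent.MZ71

open scoped commutatorElement
open Pool.Agent.CW71 Pool.Agent.CB71 Pool.Agent.RB61

section

variable {Γ : Type*} [Group Γ] {K : Subgroup Γ} [hKn : K.Normal]

/-- PROOF.  `rp g = if g ∈ K then 1 else (QuotientGroup.mk g : Γ ⧸ K).out`.  The range is finite
because `Γ ⧸ K` is finite; `g⁻¹ * (mk g).out ∈ K` by `QuotientGroup.eq` and `Quotient.out_eq'`;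
`g * k ∈ K ↔ g ∈ K` and `mk (g * k) = mk g` for `k ∈ K`. -/
theorem exists_Rep (hK : K.FiniteIndex) : ∃ rp : Γ → Γ, Rep K rp := by
  classical
  have hfin : Finite (Γ ⧸ K) := Subgroup.finite_quotient_of_finiteIndex
  refine ⟨fun g => if g ∈ K then 1 else (QuotientGroup.mk g : Γ ⧸ K).out, ?_, ?_, ?_, ?_⟩
  · refine Set.Finite.subset ((Set.finite_singleton (1 : Γ)).union
      (Set.finite_range fun q : Γ ⧸ K => q.out)) ?_
    rintro _ ⟨g, rfl⟩
    by_cases hg : g ∈ K
    · left
      simp [hg]
    · right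
      simp only [hg, if_false]
      exact ⟨_, rfl⟩
  · intro g
    by_cases hg : g ∈ K
    · simp only [hg, if_true, mul_one]
      exact K.inv_mem hg
    · simp only [hg, if_false]
      rw [← QuotientGroup.eq, QuotientGroup.out_eq']
  · intro g hg
    simp only [hg, if_true]
  · intro g k hk
    have h1 : g * k ∈ K ↔ g ∈ K := K.mul_mem_cancel_right hk
    have h2 : (QuotientGroup.mk (g * k) : Γ ⧸ K) = QuotientGroup.mk g := by
      symm
      rw [QuotientGroup.eq, ← mul_assoc, inv_mul_cancel, one_mul]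
      exact hk
    by_cases hg : g ∈ K
    · have hgk := h1.2 hg
      simp only [hg, hgk, if_true]
    · have hgk : ¬ g * k ∈ K := fun h => hg (h1.1 h)
      simp only [hg, hgk, if_false, h2]

/-- PROOF.  `rp g = g * (g⁻¹ * rp g)` and `Rep.mul`, `Rep.rep`. -/
theorem Rep.idem {rp : Γ → Γ} (h : Rep K rp) (g : Γ) : rp (rp g) = rp g := by
  have h1 := h.mul g _ (h.rep g)
  rwa [mul_inv_cancel_left] at h1

/-- Tokens: a word in the representatives and their inverses whose product is in `K` is a word of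
at most the same length over a fixed finite subset `F` of `K`.
PROOF.  Let `A = range rp ∪ (range rp)⁻¹`, finite, and
`F = {(τ * x) * (rp (τ * x))⁻¹ | τ ∈ range rp, x ∈ A}`, finite (`Set.Finite.image2`), contained in
`K` (`Rep.rep` and normality: `g * (rp g)⁻¹ = ((rp g) * g⁻¹)⁻¹`, and
`rp g * g⁻¹ = g * (g⁻¹ * rp g) * g⁻¹ ∈ K`).  Claim: for every word `w` over `A` there are a word `f`
over `F`, `f.length = w.length`, and `τ ∈ range rp` with `w.prod = f.prod * τ`: induction on `w` from
the right (`List.reverseRecOn` or `w ++ [x]`): `w.prod * x = f.prod * (τ * x) =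
f.prod * ((τ * x) * (rp (τ * x))⁻¹) * rp (τ * x)`; for `w = []` take `f = []`, `τ = rp 1 = 1`.
Finally if `w.prod ∈ K` then `τ = f.prod⁻¹ * w.prod ∈ K`, `τ = rp g`, so `rp τ = 1` by `Rep.one` and
`rp τ = τ` by `Rep.idem`, so `τ = 1`. -/
theorem tokens {rp : Γ → Γ} (h : Rep K rp) : ∃ F : Set Γ, F.Finite ∧ (∀ x ∈ F, x ∈ K) ∧
    ∀ w : List Γ, (∀ x ∈ w, x ∈ Set.range rp ∨ x⁻¹ ∈ Set.range rp) → w.prod ∈ K →
      ∃ f : List Γ, (∀ x ∈ f, x ∈ F) ∧ f.length ≤ w.length ∧ f.prod = w.prod := by
  set A : Set Γ := Set.range rp ∪ (Set.range rp)⁻¹ with hA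
  have hAf : A.Finite := h.fin.union h.fin.inv
  set F : Set Γ := Set.image2 (fun τ x => (τ * x) * (rp (τ * x))⁻¹) (Set.range rp) A with hF
  have hK : ∀ g : Γ, g * (rp g)⁻¹ ∈ K := by
    intro g
    have h1 := hKn.conj_mem _ (h.rep g) g
    have h2 : g * (g⁻¹ * rp g) * g⁻¹ = (g * (rp g)⁻¹)⁻¹ := by group
    rw [h2] at h1
    exact (K.inv_mem_iff).1 h1
  have key : ∀ w : List Γ, (∀ x ∈ w, x ∈ A) → ∃ f : List Γ, (∀ x ∈ f, x ∈ F) ∧
      f.length = w.length ∧ ∃ τ ∈ Set.range rp, w.prod = f.prod * τ := by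
    intro w
    induction w using List.reverseRecOn with
    | nil =>
      intro _
      refine ⟨[], by simp, rfl, 1, ⟨1, h.one 1 K.one_mem⟩, by simp⟩
    | append_singleton w x ih =>
      intro hw
      obtain ⟨f, hf1, hf2, τ, hτ, hf3⟩ := ih fun y hy => hw y (List.mem_append_left _ hy)
      have hx : x ∈ A := hw x (by simp)
      refine ⟨f ++ [(τ * x) * (rp (τ * x))⁻¹], ?_, ?_, rp (τ * x), ⟨_, rfl⟩, ?_⟩
      · intro y hy
        rcases List.mem_append.1 hy with hy | hy
        · exact hf1 y hy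
        · rw [List.mem_singleton] at hy
          rw [hy]
          exact ⟨τ, hτ, x, hx, rfl⟩
      · rw [List.length_append, List.length_append, hf2]
        rfl
      · rw [List.prod_append, List.prod_append, List.prod_singleton, List.prod_singleton, hf3]
        group
  refine ⟨F, h.fin.image2 _ hAf, ?_, ?_⟩
  · rintro _ ⟨τ, _, x, _, rfl⟩
    exact hK _
  · intro w hw hwK
    obtain ⟨f, hf1, hf2, τ, ⟨g, rfl⟩, hf3⟩ := key w (fun x hx => by
      rcases hw x hx with h1 | h1
      · exact Or.inl h1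
      · exact Or.inr (Set.mem_inv.2 h1))
    have hfK : f.prod ∈ K := K.list_prod_mem fun x hx => by
      obtain ⟨τ, _, y, _, rfl⟩ := hf1 x hx
      exact hK _
    have hτK : rp g ∈ K := by
      have h1 : rp g = f.prod⁻¹ * w.prod := by rw [hf3]; group
      rw [h1]
      exact K.mul_mem (K.inv_mem hfK) hwK
    have h2 : rp g = 1 := by
      have h3 := h.one _ hτK
      rwa [h.idem] at h3
    refine ⟨f, hf1, hf2.le, ?_⟩
    rw [hf3, h2, mul_one]

end

variable {X : Type} {G : Subgroup (Tr X)} {K : Subgroup G} [hKn : K.Normal]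

/-- every element `g` can be changed by an element `i` inserted at level `n` with values in `K`
such that all its values at level `n` are representatives; `i` has trivial value where the value of
`g` is a representative already.
PROOF.  With `α = sec (t v) v` put `μ v = α⁻¹ * ((eta g v)⁻¹ * rp (eta g v)) * α ∈ K` (`Rep.rep`,
normality) and take `i ∈ K` with `InsG n μ i` (`hB.ins`); `i ∈ PG K n`.  For `v` of length `n`:
`eta i v = α * sec i v * α⁻¹ = (eta g v)⁻¹ * rp (eta g v)` (`eta_PG`, `InsG.sec`), and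
`eta (g * i) v = eta g v * eta i v` (`eta_mul_PG`). -/
theorem exists_hat (hB : Br G K) {rp : G → G} (h : Rep K rp) (t : List X → G) (n : ℕ) (g : G) :
    ∃ i ∈ PG K n, ∀ v : List X, v.length = n →
      eta hB.self t (g * i) v = rp (eta hB.self t g v) ∧
        (rp (eta hB.self t g v) = eta hB.self t g v → eta hB.self t i v = 1) := by
  set α : List X → G := fun v => sec hB.self (t v) v with hα
  set μ : List X → G := fun v =>
    (α v)⁻¹ * ((eta hB.self t g v)⁻¹ * rp (eta hB.self t g v)) * α v with hμ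
  have hμK : ∀ v, μ v ∈ K := by
    intro v
    have h1 := hKn.conj_mem _ (h.rep (eta hB.self t g v)) (α v)⁻¹
    rwa [inv_inv] at h1
  obtain ⟨i, _, hi⟩ := hB.ins n μ hμK
  have hiP : i ∈ PG K n := ⟨μ, hμK, hi⟩
  refine ⟨i, hiP, ?_⟩
  intro v hv
  have h1 : eta hB.self t i v = (eta hB.self t g v)⁻¹ * rp (eta hB.self t g v) := by
    rw [eta_PG hB.self t hiP hv, hi.sec hB.self hv]
    simp only [hμ, hα]
    group
  constructor
  · rw [eta_mul_PG hB.self t g hiP hv, h1, mul_inv_cancel_left]
  · intro h2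
    rw [h1, h2, inv_mul_cancel]

end Pool.Agent.MZ71
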