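import Mathlib
import Pool.Agent.MZ71.Rel
import Pool.Agent.MZ71.Reps

set_option autoImplicit false
set_option linter.unusedSectionVars false

/-!
# MZ71/Vals: values of products of commutators
-/

namespace Pool.Agent.MZ71

open scoped commutatorElement
open Pool.Agent.CW71 Pool.Agent.CB71 Pool.Agent.RB61

variable {X : Type} {G : Subgroup (Tr X)} {K : Subgroup G} [hKn : K.Normal]
  {H : Subgroup G} {n : ℕ} {r : List X} {l : List (List X)} {t : List X → G}

theorem cp_cons {Γ : Type*} [Group Γ] (p : Γ × Γ) (L : List (Γ × Γ)) :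
    cp (p :: L) = ⁅p.1, p.2⁆ * cp L := by
  unfold cp
  rw [List.map_cons, List.prod_cons]

theorem comm_mem_self {Γ : Type*} [Group Γ] {H : Subgroup Γ} {a b : Γ} (ha : a ∈ H) (hb : b ∈ H) :
    ⁅a, b⁆ ∈ H := by
  rw [commutatorElement_def]
  exact H.mul_mem (H.mul_mem (H.mul_mem ha hb) (H.inv_mem ha)) (H.inv_mem hb)

/-- PROOF.  `Subgroup.list_prod_mem`. -/
theorem cp_mem {Γ : Type*} [Group Γ] {H : Subgroup Γ} {L : List (Γ × Γ)}
    (hL : ∀ p ∈ L, p.1 ∈ H ∧ p.2 ∈ H) : cp L ∈ H := by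
  unfold cp
  apply Subgroup.list_prod_mem
  intro x hx
  rw [List.mem_map] at hx
  obtain ⟨p, hp, rfl⟩ := hx
  exact comm_mem_self (hL p hp).1 (hL p hp).2

/-- PROOF.  `x ∈ ⁅H, K⁆ ≤ ⁅H, H⁆` is in `CK H M` for some `M` (`exists_CK`, CB71/GN), and every
element of `CK H M` is `cp L` (induction on `M`). -/
theorem exists_cp (hKH : K ≤ H) {x : G} (hx : x ∈ ⁅H, K⁆) :
    ∃ L : List (G × G), (∀ p ∈ L, p.1 ∈ H ∧ p.2 ∈ H) ∧ cp L = x := by
  obtain ⟨M, hM⟩ := exists_CK H (Subgroup.commutator_mono le_rfl hKH hx)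
  clear hx
  induction M generalizing x with
  | zero =>
    have h1 : x = 1 := hM
    refine ⟨[], fun p hp => absurd hp List.not_mem_nil, ?_⟩
    rw [h1]
    rfl
  | succ M ih =>
    obtain ⟨p, hp, q, hq, z, hz, rfl⟩ := hM
    obtain ⟨L, hL, hLz⟩ := ih hz
    refine ⟨(p, q) :: L, ?_, ?_⟩
    · intro a ha
      rcases List.mem_cons.1 ha with rfl | ha
      · exact ⟨hp, hq⟩
      · exact hL a ha
    · rw [cp_cons, hLz]

theorem eta_comm (hG : SelfSimilar G) (t : List X → G) (a b : G) (u : List X) :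
    eta hG t ⁅a, b⁆ u = eta hG t a (b • a⁻¹ • b⁻¹ • u) * eta hG t b (a⁻¹ • b⁻¹ • u) *
      (eta hG t a (a⁻¹ • b⁻¹ • u))⁻¹ * (eta hG t b (b⁻¹ • u))⁻¹ := by
  rw [commutatorElement_def, eta_mul, eta_mul, eta_mul, eta_inv hG t a, eta_inv hG t b]

/-- the values of a product of commutators of elements with values in `A`.
PROOF.  Induction on `L` for `cp L`: `eta (⁅a, b⁆ * y) v = eta ⁅a, b⁆ (y • v) * eta y v`, and by
`eta_mul`, `eta_inv`, with `v` in the orbit list `l` (stable under `H`, `Orb.smul_mem`),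
`eta ⁅a, b⁆ u = eta a u₃ * eta b u₂ * (eta a u₂)⁻¹ * (eta b u₁)⁻¹`, `u₁ = b⁻¹ • u`,
`u₂ = a⁻¹ • u₁`, `u₃ = b • u₂`. -/
theorem vals_cp (hG : SelfSimilar G) (hO : Orb H n r l) {A : Set G} (L : List (G × G))
    (hL : ∀ p ∈ L, p.1 ∈ H ∧ p.2 ∈ H)
    (hA : ∀ p ∈ L, ∀ v ∈ l, eta hG t p.1 v ∈ A ∧ eta hG t p.2 v ∈ A) :
    ∀ v ∈ l, ∃ w : List G, (∀ x ∈ w, x ∈ A ∨ x⁻¹ ∈ A) ∧ w.length ≤ 4 * L.length ∧
      w.prod = eta hG t (cp L) v := by
  induction L with
  | nil =>
    intro v _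
    refine ⟨[], fun x hx => absurd hx List.not_mem_nil, by simp, ?_⟩
    have : cp ([] : List (G × G)) = 1 := rfl
    rw [this, eta_one, List.prod_nil]
  | cons p L ih =>
    intro v hv
    obtain ⟨a, b⟩ := p
    have hab := hL (a, b) List.mem_cons_self
    have hAab := hA (a, b) List.mem_cons_self
    dsimp only at hab hAab
    have hL' : ∀ p ∈ L, p.1 ∈ H ∧ p.2 ∈ H := fun p hp => hL p (List.mem_cons_of_mem _ hp)
    obtain ⟨w, hw1, hw2, hw3⟩ := ih hL' (fun p hp => hA p (List.mem_cons_of_mem _ hp)) v hv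
    have hu : cp L • v ∈ l := hO.smul_mem hG (cp_mem hL') hv
    have hu1 : b⁻¹ • cp L • v ∈ l := hO.smul_mem hG (H.inv_mem hab.2) hu
    have hu2 : a⁻¹ • b⁻¹ • cp L • v ∈ l := hO.smul_mem hG (H.inv_mem hab.1) hu1
    have hu3 : b • a⁻¹ • b⁻¹ • cp L • v ∈ l := hO.smul_mem hG hab.2 hu2
    refine ⟨[eta hG t a (b • a⁻¹ • b⁻¹ • cp L • v), eta hG t b (a⁻¹ • b⁻¹ • cp L • v),
      (eta hG t a (a⁻¹ • b⁻¹ • cp L • v))⁻¹, (eta hG t b (b⁻¹ • cp L • v))⁻¹] ++ w, ?_, ?_, ?_⟩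
    · intro x hx
      rcases List.mem_append.1 hx with hx | hx
      · simp only [List.mem_cons, List.not_mem_nil, or_false] at hx
        rcases hx with rfl | rfl | rfl | rfl
        · exact Or.inl (hAab _ hu3).1
        · exact Or.inl (hAab _ hu2).2
        · right
          rw [inv_inv]
          exact (hAab _ hu2).1
        · right
          rw [inv_inv]
          exact (hAab _ hu1).2
      · exact hw1 x hx
    · simp only [List.length_append, List.length_cons, List.length_nil]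
      omega
    · rw [List.prod_append, hw3, cp_cons, eta_mul, eta_comm]
      simp only [List.prod_cons, List.prod_nil, mul_one, mul_assoc]

/-- PROOF.  `eta (cp L)⁻¹ v = (eta (cp L) ((cp L)⁻¹ • v))⁻¹` (`eta_inv`, `Orb.smul_mem`, `cp_mem`) and
`vals_cp`; the inverse of the product of `w` is the product of `(w.map (·⁻¹)).reverse`. -/
theorem vals_cp_inv (hG : SelfSimilar G) (hO : Orb H n r l) {A : Set G} (L : List (G × G))
    (hL : ∀ p ∈ L, p.1 ∈ H ∧ p.2 ∈ H)
    (hA : ∀ p ∈ L, ∀ v ∈ l, eta hG t p.1 v ∈ A ∧ eta hG t p.2 v ∈ A) :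
    ∀ v ∈ l, ∃ w : List G, (∀ x ∈ w, x ∈ A ∨ x⁻¹ ∈ A) ∧ w.length ≤ 4 * L.length ∧
      w.prod = eta hG t (cp L)⁻¹ v := by
  intro v hv
  obtain ⟨w, hw1, hw2, hw3⟩ := vals_cp hG hO L hL hA ((cp L)⁻¹ • v)
    (hO.smul_mem hG (H.inv_mem (cp_mem hL)) hv)
  refine ⟨(w.map fun x => x⁻¹).reverse, ?_, ?_, ?_⟩
  · intro x hx
    rw [List.mem_reverse, List.mem_map] at hx
    obtain ⟨y, hy, rfl⟩ := hx
    rw [inv_inv]
    exact (hw1 y hy).symm
  · rw [List.length_reverse, List.length_map]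
    exact hw2
  · rw [← List.prod_inv_reverse, hw3, eta_inv]

/-- PROOF.  Induction on `L` with `spt_mul_len`, `spt_inv_len` (`⁅a, b⁆ = a * b * a⁻¹ * b⁻¹`). -/
theorem spt_cp (hG : SelfSimilar G) (hO : Orb H n r l) {B : ℕ} (L : List (G × G))
    (hL : ∀ p ∈ L, p.1 ∈ H ∧ p.2 ∈ H)
    (hB : ∀ p ∈ L, (spt hG t l p.1).length ≤ B ∧ (spt hG t l p.2).length ≤ B) :
    (spt hG t l (cp L)).length ≤ 4 * B * L.length := by
  classical
  induction L with
  | nil =>
    have h1 : cp ([] : List (G × G)) = 1 := rfl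
    have h2 : spt hG t l (1 : G) = [] := by
      rw [List.eq_nil_iff_forall_not_mem]
      intro v hv
      rw [mem_spt] at hv
      exact hv.2 (eta_one hG t v)
    rw [h1, h2]
    simp
  | cons p L ih =>
    obtain ⟨a, b⟩ := p
    have hab := hL (a, b) List.mem_cons_self
    have hBab := hB (a, b) List.mem_cons_self
    dsimp only at hab hBab
    have hL' : ∀ p ∈ L, p.1 ∈ H ∧ p.2 ∈ H := fun p hp => hL p (List.mem_cons_of_mem _ hp)
    have hih := ih hL' (fun p hp => hB p (List.mem_cons_of_mem _ hp))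
    have h1 := spt_mul_len (t := t) (g := ⁅a, b⁆) hG hO (cp_mem hL')
    have h2 := spt_mul_len (t := t) (g := a * b * a⁻¹) hG hO (H.inv_mem hab.2)
    have h3 := spt_mul_len (t := t) (g := a * b) hG hO (H.inv_mem hab.1)
    have h4 := spt_mul_len (t := t) (g := a) hG hO hab.2
    have h5 := spt_inv_len (t := t) hG hO hab.1
    have h6 := spt_inv_len (t := t) hG hO hab.2
    rw [← commutatorElement_def] at h2
    rw [cp_cons, List.length_cons, Nat.mul_add, Nat.mul_one]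
    dsimp only
    omega

theorem R_hat_CK [Nonempty X] (hB : Br G K) {rp : G → G} (h : Rep K rp) (hKH : K ≤ H) (n : ℕ)
    (t : List X → G) (M : ℕ) {z : G} (hz : z ∈ CK K M) :
    ∃ L : List (G × G), L.length = M ∧ cp L ∈ CK K M ∧ z⁻¹ * cp L ∈ ⁅H, PG K n⁆ ∧
      ∀ p ∈ L, p.1 ∈ H ∧ p.2 ∈ H ∧
        (∀ v : List X, v.length = n → rp (eta hB.self t p.1 v) = eta hB.self t p.1 v) ∧
        (∀ v : List X, v.length = n → rp (eta hB.self t p.2 v) = eta hB.self t p.2 v) := by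
  induction M generalizing z with
  | zero =>
    have hz1 : z = 1 := hz
    refine ⟨[], rfl, rfl, ?_, fun p hp => absurd hp List.not_mem_nil⟩
    rw [hz1, inv_one, one_mul]
    exact one_mem _
  | succ M ih =>
    obtain ⟨p, hp, q, hq, y, hy, rfl⟩ := hz
    have hPn : (PG K n).Normal := PG_normal hB.self n
    have hPK : PG K n ≤ K := PG_le hB n
    obtain ⟨L', hL'1, hL'2, hL'3, hL'4⟩ := ih hy
    obtain ⟨i, hi, hi'⟩ := exists_hat hB h t n p
    obtain ⟨j, hj, hj'⟩ := exists_hat hB h t n q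
    refine ⟨(p * i, q * j) :: L', ?_, ?_, ?_, ?_⟩
    · rw [List.length_cons, hL'1]
    · rw [cp_cons]
      exact ⟨p * i, K.mul_mem hp (hPK hi), q * j, K.mul_mem hq (hPK hj), cp L', hL'2, rfl⟩
    · rw [cp_cons]
      have h1 := comm_congr (hPK.trans hKH) (hKH hp) (hKH hq) hi hj
      have h2 := conj_comm_mem (H.inv_mem (hKH (CK_sub hy))) h1
      have e : (⁅p, q⁆ * y)⁻¹ * (⁅p * i, q * j⁆ * cp L') =
          y⁻¹ * (⁅p, q⁆⁻¹ * ⁅p * i, q * j⁆) * y⁻¹⁻¹ * (y⁻¹ * cp L') := by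
        group
      dsimp only
      rw [e]
      exact mul_mem h2 hL'3
    · intro a ha
      rcases List.mem_cons.1 ha with rfl | ha
      · refine ⟨hKH (K.mul_mem hp (hPK hi)), hKH (K.mul_mem hq (hPK hj)), ?_, ?_⟩
        · intro v hv
          dsimp only
          rw [(hi' v hv).1, h.idem]
        · intro v hv
          dsimp only
          rw [(hj' v hv).1, h.idem]
      · exact hL'4 a ha

/-- the commutators with elements of `K` in an element of `R K S M` can be changed so that the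
elements of `K` have representative values.
PROOF.  Copy `exists_bounded` (RB61/BSec), without finite-state.  Case `S = []` (`R K [] M = CK K M`)
by induction on `M`: `z = ⁅p, q⁆ * y`, `p, q ∈ K`; take `i, j ∈ PG K n` from `exists_hat` for `p`,
`q`, `L = (p * i, q * j) :: L'`.  Then induction on `S`: `z = ⁅s, m⁆ * y`, take
`L = (s, m * j) :: L'`.  The difference: `comm_congr`, `conj_comm_mem` exactly as in
`exists_bounded`.  The values of `p * i` are representatives by `exists_hat`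
(`eta (p * i) v = rp (eta p v)`, and `rp (rp x) = rp x` by `Rep.idem`). -/
theorem R_hat [Nonempty X] (hB : Br G K) {rp : G → G} (h : Rep K rp) (hKH : K ≤ H) (n : ℕ)
    (t : List X → G) (S : List G) (hS : ∀ s ∈ S, s ∈ H) (M : ℕ) {z : G} (hz : z ∈ R K S M) :
    ∃ L : List (G × G), L.length = S.length + M ∧ cp L ∈ R K S M ∧ z⁻¹ * cp L ∈ ⁅H, PG K n⁆ ∧
      ∀ p ∈ L, p.1 ∈ H ∧ p.2 ∈ H ∧
        (p.1 ∈ S ∨ ∀ v : List X, v.length = n → rp (eta hB.self t p.1 v) = eta hB.self t p.1 v) ∧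
        (∀ v : List X, v.length = n → rp (eta hB.self t p.2 v) = eta hB.self t p.2 v) := by
  induction S generalizing z with
  | nil =>
    obtain ⟨L, h1, h2, h3, h4⟩ := R_hat_CK hB h hKH n t M hz
    refine ⟨L, by rw [h1, List.length_nil, Nat.zero_add], h2, h3, ?_⟩
    intro p hp
    obtain ⟨h5, h6, h7, h8⟩ := h4 p hp
    exact ⟨h5, h6, Or.inr h7, h8⟩
  | cons s S ih =>
    obtain ⟨m, hm, y, hy, rfl⟩ := hz
    have hsH : s ∈ H := hS s List.mem_cons_self
    have hPn : (PG K n).Normal := PG_normal hB.self n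
    have hPK : PG K n ≤ K := PG_le hB n
    obtain ⟨L', hL'1, hL'2, hL'3, hL'4⟩ := ih (fun t ht => hS t (List.mem_cons_of_mem _ ht)) hy
    obtain ⟨j, hj, hj'⟩ := exists_hat hB h t n m
    refine ⟨(s, m * j) :: L', ?_, ?_, ?_, ?_⟩
    · rw [List.length_cons, hL'1, List.length_cons]
      omega
    · rw [cp_cons]
      exact ⟨m * j, K.mul_mem hm (hPK hj), cp L', hL'2, rfl⟩
    · rw [cp_cons]
      have h1 := comm_congr (hPK.trans hKH) hsH (hKH hm) (one_mem (PG K n)) hj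
      rw [mul_one] at h1
      have h2 := conj_comm_mem (H.inv_mem (hKH (R_sub hy))) h1
      have e : (⁅s, m⁆ * y)⁻¹ * (⁅s, m * j⁆ * cp L') =
          y⁻¹ * (⁅s, m⁆⁻¹ * ⁅s, m * j⁆) * y⁻¹⁻¹ * (y⁻¹ * cp L') := by
        group
      dsimp only
      rw [e]
      exact mul_mem h2 hL'3
    · intro a ha
      rcases List.mem_cons.1 ha with rfl | ha
      · refine ⟨hsH, hKH (K.mul_mem hm (hPK hj)), Or.inl List.mem_cons_self, ?_⟩
        intro v hv
        dsimp only
        rw [(hj' v hv).1, h.idem]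
      · obtain ⟨h5, h6, h7, h8⟩ := hL'4 a ha
        exact ⟨h5, h6, h7.imp (fun h => List.mem_cons_of_mem _ h) id, h8⟩

end Pool.Agent.MZ71
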