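import Mathlib
import Pool.Agent.MZ71.Defs
import Pool.Agent.RB61.Mon

set_option autoImplicit false
set_option linter.unusedSectionVars false

/-!
# MZ71/WordL: words over a finite subset of `K` in `[A, K]`, linear bound

Compare `Pool.Agent.RB61.Words` (`mon_bound`, `word_bound`): there the hypothesis `Pw K` gives the
constant `1`; here we do not have it and only need SOME linear bound.  `mon b a = b₀^(a₀) b₁^(a₁) ⋯`
is in `Pool.Agent.RB61.Mon` (`mon_add`, `mon_zero`, `mon_word`).
-/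

namespace Pool.Agent.MZ71

open scoped commutatorElement
open Pool.Agent.CW71 Pool.Agent.CB71 Pool.Agent.RB61

section

variable {Γ : Type*} [Group Γ] {K : Subgroup Γ} [hKn : K.Normal]

/-- PROOF.  As in `mon_bound` (RB61/Words): `P = {a | mon b a ∈ ⁅H, K⁆}` is a subtractive additive
submonoid of `Fin k → ℕ`, so it is generated by a finite set `T`
(`AddSubmonoid.fg_of_subtractive`); remove `0` from `T`.  By `exists_RH hS` there is `M` with
`mon b h ∈ R K S M` for all `h ∈ T`.  Every `a ∈ P` is a sum of a list of nonzero elements of `T`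
(closure induction), and this list has length at most `∑ i, a i`.  By induction on the list:
`mon b (sum of the list) ∈ R K S (list.length * (M + k + S.length * S.length))` (`mon_add` with
`Ap.R`, `R_mul`, `mon_zero`, `one_mem_R`).  `C = M + k + S.length * S.length`. -/
theorem mon_lin {k : ℕ} (b : Fin k → Γ) (hb : ∀ i, b i ∈ K) {H : Subgroup Γ}
    (hKH : K ≤ H) {S : List Γ} (hS : GenList H S) :
    ∃ C : ℕ, ∀ a : Fin k → ℕ, mon b a ∈ ⁅H, K⁆ → mon b a ∈ R K S (C * ∑ i, a i) := by
  classical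
  let P : AddSubmonoid (Fin k → ℕ) :=
    { carrier := {a | mon b a ∈ ⁅H, K⁆}
      zero_mem' := by
        change mon b 0 ∈ ⁅H, K⁆
        rw [mon_zero]; exact Subgroup.one_mem _
      add_mem' := by
        intro a a' ha ha'
        exact (mon_add b hb a a').mem_comm hKH (Subgroup.mul_mem _ ha ha') }
  have memP : ∀ a, a ∈ P ↔ mon b a ∈ ⁅H, K⁆ := fun a => Iff.rfl
  have hfg : P.FG := by
    apply AddSubmonoid.fg_of_subtractive
    intro x hx y hxy
    rw [memP] at hx hxy ⊢
    have h1 : mon b x * mon b y ∈ ⁅H, K⁆ := (mon_add b hb x y).symm.mem_comm hKH hxy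
    have h2 := Subgroup.mul_mem _ (Subgroup.inv_mem _ hx) h1
    rwa [inv_mul_cancel_left] at h2
  obtain ⟨T, hT⟩ := hfg
  have hTP : ∀ h ∈ T, mon b h ∈ ⁅H, K⁆ := by
    intro h hh
    rw [← memP, ← hT]
    exact AddSubmonoid.subset_closure hh
  obtain ⟨M, hM⟩ : ∃ M, ∀ h ∈ T, mon b h ∈ R K S M := by
    obtain ⟨C, hC⟩ := finite_R (K := K) hS (T := mon b '' (T : Set (Fin k → ℕ)))
      (T.finite_toSet.image _) (by
        rintro _ ⟨h, hh, rfl⟩
        exact hTP h hh)
    exact ⟨C, fun h hh => hC _ ⟨h, hh, rfl⟩⟩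
  obtain ⟨C, hC⟩ : ∃ C, C = M + k + S.length * S.length := ⟨_, rfl⟩
  have key : ∀ a ∈ AddSubmonoid.closure (T : Set (Fin k → ℕ)),
      ∃ l : List (Fin k → ℕ), (∀ h ∈ l, h ∈ T ∧ h ≠ 0) ∧ l.sum = a := by
    intro a ha
    induction ha using AddSubmonoid.closure_induction with
    | mem x hx =>
      by_cases h0 : x = 0
      · exact ⟨[], by simp, by simp [h0]⟩
      · refine ⟨[x], ?_, by simp⟩
        intro h hh
        rw [List.mem_singleton] at hh
        subst hh
        exact ⟨hx, h0⟩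
    | zero => exact ⟨[], by simp, by simp⟩
    | add x y _ _ hx hy =>
      obtain ⟨l, hl, rfl⟩ := hx
      obtain ⟨l', hl', rfl⟩ := hy
      refine ⟨l ++ l', ?_, List.sum_append⟩
      intro h hh
      rcases List.mem_append.1 hh with h1 | h1
      · exact hl h h1
      · exact hl' h h1
  have hlist : ∀ l : List (Fin k → ℕ), (∀ h ∈ l, h ∈ T ∧ h ≠ 0) →
      mon b l.sum ∈ R K S (l.length * C) := by
    intro l
    induction l with
    | nil =>
      intro _
      rw [List.sum_nil, mon_zero]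
      exact one_mem_R S _
    | cons h l ih =>
      intro hl
      have h1 := ih fun x hx => hl x (List.mem_cons_of_mem _ hx)
      have h2 := hM h (hl h List.mem_cons_self).1
      rw [List.sum_cons]
      refine R_mono ?_ ((mon_add b hb h l.sum).R (R_mul h2 h1))
      rw [List.length_cons, Nat.succ_mul, hC]
      omega
  have hlen : ∀ l : List (Fin k → ℕ), (∀ h ∈ l, h ∈ T ∧ h ≠ 0) →
      l.length ≤ ∑ i, l.sum i := by
    intro l
    induction l with
    | nil => intro _; simp
    | cons h l ih =>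
      intro hl
      have h1 := ih fun x hx => hl x (List.mem_cons_of_mem _ hx)
      have h2 := (hl h List.mem_cons_self).2
      have h3 : 1 ≤ ∑ i, h i := by
        by_contra hlt
        have h5 : ∑ i, h i = 0 := by omega
        apply h2
        funext i
        exact (Finset.sum_eq_zero_iff.1 h5) i (Finset.mem_univ i)
      have h4 : ∑ i, (h :: l).sum i = ∑ i, h i + ∑ i, l.sum i := by
        rw [List.sum_cons, ← Finset.sum_add_distrib]
        exact Finset.sum_congr rfl fun i _ => Pi.add_apply _ _ _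
      rw [List.length_cons, h4]
      omega
  refine ⟨C, fun a ha => ?_⟩
  obtain ⟨l, hl, rfl⟩ := key a (by rw [hT, memP]; exact ha)
  refine R_mono ?_ (hlist l hl)
  rw [mul_comm]
  exact Nat.mul_le_mul_left _ (hlen l hl)


/-- PROOF.  As in `word_bound` (RB61/Words): enumerate `E` by `b : Fin k → Γ`; `mon_word` gives `a`
with `∑ a i = w.length` and `w.prod ≈ mon b a` (cost `w.length`); `mon_lin`, `Ap.R`:
`w.prod ∈ R K S (C * w.length + w.length)`. -/
theorem word_lin_aux {E : Set Γ} (hE : E.Finite) (hEK : ∀ x ∈ E, x ∈ K) {H : Subgroup Γ}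
    (hKH : K ≤ H) {S : List Γ} (hS : GenList H S) :
    ∃ C : ℕ, ∀ w : List Γ, (∀ x ∈ w, x ∈ E) → w.prod ∈ ⁅H, K⁆ →
      w.prod ∈ R K S (C * w.length) := by
  classical
  obtain ⟨l, hl⟩ : ∃ l : List Γ, ∀ x, x ∈ l ↔ x ∈ E :=
    ⟨hE.toFinset.toList, fun x => by rw [Finset.mem_toList, hE.mem_toFinset]⟩
  let b : Fin l.length → Γ := fun i => l.get i
  have hbE : ∀ i, b i ∈ E := by
    intro i
    exact (hl _).1 (List.get_mem l i)
  have hb : ∀ i, b i ∈ K := fun i => hEK _ (hbE i)
  obtain ⟨C, hC⟩ := mon_lin b hb hKH hS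
  refine ⟨C + 1, fun w hw hwc => ?_⟩
  have hw' : ∀ x ∈ w, ∃ i, b i = x := by
    intro x hx
    have h1 : x ∈ l := (hl x).2 (hw x hx)
    obtain ⟨i, hi⟩ := List.get_of_mem h1
    exact ⟨i, hi⟩
  obtain ⟨a, ha, hap⟩ := mon_word b hb w hw'
  have h1 := hC a (hap.symm.mem_comm hKH hwc)
  refine R_mono ?_ (hap.R h1)
  rw [ha, Nat.add_mul, Nat.one_mul]


end

variable {X : Type} {G : Subgroup (Tr X)} {K : Subgroup G} [hKn : K.Normal]

/-- PROOF.  `uniform D.fin` (CB71/GM) with `word_lin_aux` and `D.gen` (`R_mono`). -/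
theorem word_lin (D : Dt G K) {E : Set G} (hE : E.Finite) (hEK : ∀ x ∈ E, x ∈ K) :
    ∃ C : ℕ, ∀ A, K ≤ A → ∀ w : List G, (∀ x ∈ w, x ∈ E) → w.prod ∈ ⁅A, K⁆ →
      w.prod ∈ R K (D.Sg A) (C * w.length) := by
  obtain ⟨C, hC⟩ := uniform D.fin (fun A C => ∀ w : List G, (∀ x ∈ w, x ∈ E) →
      w.prod ∈ ⁅A, K⁆ → w.prod ∈ R K (D.Sg A) (C * w.length)) (by
    intro A C C' hCC h w hw hwc
    exact R_mono (Nat.mul_le_mul_right _ hCC) (h w hw hwc))
    (fun A hKA => word_lin_aux hE hEK hKA (D.gen A hKA))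
  exact ⟨C, fun A hKA w hw hwc => hC A hKA w hw hwc⟩


end Pool.Agent.MZ71
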