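import Mathlib
import Pool.Agent.MZ71.Consts
import Pool.Agent.MZ71.WordL
import Pool.Agent.MZ71.HatD
import Pool.Agent.MZ71.Vals
import Pool.Agent.MZ71.Clu

set_option autoImplicit false
set_option linter.unusedSectionVars false

/-!
# MZ71/Cost: the cost at the representatives is linear in the length of the orbit
-/

namespace Pool.Agent.MZ71

open scoped commutatorElement
open Pool.Agent.CW71 Pool.Agent.CB71 Pool.Agent.RB61

variable {X : Type} {G : Subgroup (Tr X)} {K : Subgroup G} [hKn : K.Normal]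

/-- the orbits of a subgroup containing `K` are large (compare `orbit_large` in RB61/Roots) -/
theorem orbit_card [Finite X] (ht : LevelTransitive G) (hss : SelfSimilar G)
    (hK : K.FiniteIndex) {H : Subgroup G} (hKH : K ≤ H) {n : ℕ} {r : List X}
    {l : List (List X)} (hO : Orb H n r l) : Nat.card X ^ n ≤ K.index * l.length := by
  classical
  have : Fintype X := Fintype.ofFinite X
  have hfin : Finite (G ⧸ K) := Subgroup.finite_quotient_of_finiteIndex
  have hmem : ∀ i : Fin l.length, l.get i ∈ l := fun i => List.get_mem _ _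
  let F : (G ⧸ K) × Fin l.length → List.Vector X n := fun p =>
    ⟨(Quotient.out p.1 : G) • l.get p.2, by
      rw [len_act hss]
      exact ((hO.mem _).1 (hmem p.2)).1⟩
  have hF : Function.Surjective F := by
    intro w
    obtain ⟨g, hg, hgw⟩ := ht r w.1 (by rw [hO.len, w.2])
    obtain ⟨κ, hκ⟩ := QuotientGroup.mk_out_eq_mul K (⟨g, hg⟩ : G)
    have hu : ((κ : G)⁻¹ • r) ∈ l := by
      rw [hO.mem]
      refine ⟨by rw [len_act hss, hO.len], ?_⟩
      rw [rtG_act (H.inv_mem (hKH κ.2)), hO.rt]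
    obtain ⟨i, hi⟩ := List.mem_iff_get.1 hu
    refine ⟨(QuotientGroup.mk (⟨g, hg⟩ : G), i), ?_⟩
    apply Subtype.ext
    show (Quotient.out (QuotientGroup.mk (⟨g, hg⟩ : G) : G ⧸ K) : G) • l.get i = w.1
    have h1 : (Quotient.out (QuotientGroup.mk (⟨g, hg⟩ : G) : G ⧸ K) : G) =
      (⟨g, hg⟩ : G) * (κ : G) := hκ
    rw [h1, hi, mul_smul, smul_inv_smul]
    exact hgw
  have hcard := Nat.card_le_card_of_surjective F hF
  rw [Nat.card_prod, Nat.card_eq_fintype_card (α := Fin l.length), Fintype.card_fin,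
    Nat.card_eq_fintype_card (α := List.Vector X n), card_vector] at hcard
  have h5 : Nat.card (G ⧸ K) = K.index := rfl
  rw [h5] at hcard
  rwa [Nat.card_eq_fintype_card]

/-- words over a set for the factors of a product -/
private lemma words_list {Γ : Type*} [Group Γ] {F : Set Γ} {ι : Type*} (l : List ι) (g : ι → Γ)
    (P : ι → Bool) (a b : ℕ)
    (h : ∀ i ∈ l, ∃ f : List Γ, (∀ x ∈ f, x ∈ F) ∧ f.length ≤ a + (if P i then b else 0) ∧
      f.prod = g i) :
    ∃ f : List Γ, (∀ x ∈ f, x ∈ F) ∧ f.length ≤ a * l.length + b * (l.filter P).length ∧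
      f.prod = (l.map g).prod := by
  induction l with
  | nil => exact ⟨[], by simp, by simp, by simp⟩
  | cons i l ih =>
    obtain ⟨f, h1, h2, h3⟩ := h i List.mem_cons_self
    obtain ⟨f', h1', h2', h3'⟩ := ih fun j hj => h j (List.mem_cons_of_mem _ hj)
    refine ⟨f ++ f', ?_, ?_, ?_⟩
    · intro x hx
      rcases List.mem_append.1 hx with h | h
      · exact h1 x h
      · exact h1' x h
    · rw [List.length_append, List.length_cons, List.filter_cons]
      by_cases hP : P i = true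
      · rw [if_pos hP] at h2 ⊢
        rw [List.length_cons]
        nlinarith
      · rw [if_neg hP] at h2 ⊢
        nlinarith
    · rw [List.prod_append, h3, h3', List.map_cons, List.prod_cons]

variable {H : Subgroup G} {n : ℕ} {r : List X} {l : List (List X)} {t : List X → G}

/-- the product of the values of a quotient of products of commutators as a word in the tokens -/
private lemma tok_word (hG : SelfSimilar G) (hO : Orb H n r l) {rp : G → G} {F : Set G}
    (htok : ∀ w : List G, (∀ x ∈ w, x ∈ Set.range rp ∨ x⁻¹ ∈ Set.range rp) → w.prod ∈ K →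
      ∃ f : List G, (∀ x ∈ f, x ∈ F) ∧ f.length ≤ w.length ∧ f.prod = w.prod)
    (Lx Lz : List (G × G)) (hLx : ∀ p ∈ Lx, p.1 ∈ H ∧ p.2 ∈ H)
    (hLz : ∀ p ∈ Lz, p.1 ∈ H ∧ p.2 ∈ H)
    (hvx : ∀ p ∈ Lx, ∀ v ∈ l, eta hG t p.1 v ∈ Set.range rp ∧ eta hG t p.2 v ∈ Set.range rp)
    (hvz : ∀ p ∈ Lz, ∀ v ∈ l, eta hG t p.1 v ∈ Set.range rp ∧ eta hG t p.2 v ∈ Set.range rp)
    {B : ℕ} (hBx : ∀ p ∈ Lx, (spt hG t l p.1).length ≤ B ∧ (spt hG t l p.2).length ≤ B)
    (hy : (cp Lz)⁻¹ * cp Lx ∈ PG K n) :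
    ∃ f : List G, (∀ x ∈ f, x ∈ F) ∧
      f.length ≤ 4 * Lz.length * l.length + 4 * Lx.length * (4 * B * Lx.length) ∧
      f.prod = tot hG t l ((cp Lz)⁻¹ * cp Lx) := by
  classical
  have key : ∀ v ∈ l, ∃ f : List G, (∀ x ∈ f, x ∈ F) ∧
      f.length ≤ 4 * Lz.length +
        (if decide (eta hG t (cp Lx) v ≠ 1) then 4 * Lx.length else 0) ∧
      f.prod = eta hG t ((cp Lz)⁻¹ * cp Lx) v := by
    intro v hv
    have hvn : v.length = n := ((hO.mem v).1 hv).1
    have hu : cp Lx • v ∈ l := hO.smul_mem hG (cp_mem hLx) hv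
    obtain ⟨w₁, h1, h2, h3⟩ := vals_cp_inv hG hO Lz hLz hvz _ hu
    have hK : eta hG t ((cp Lz)⁻¹ * cp Lx) v ∈ K := eta_PG_mem hG t hy hvn
    have hm : eta hG t ((cp Lz)⁻¹ * cp Lx) v =
        eta hG t (cp Lz)⁻¹ (cp Lx • v) * eta hG t (cp Lx) v := eta_mul hG t _ _ v
    by_cases he : eta hG t (cp Lx) v = 1
    · obtain ⟨f, e1, e2, e3⟩ := htok w₁ h1 (by rw [h3]; rw [hm, he, mul_one] at hK; exact hK)
      refine ⟨f, e1, ?_, ?_⟩
      · rw [if_neg (by simp [he])]; omega
      · rw [e3, h3, hm, he, mul_one]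
    · obtain ⟨w₂, h1', h2', h3'⟩ := vals_cp hG hO Lx hLx hvx v hv
      obtain ⟨f, e1, e2, e3⟩ := htok (w₁ ++ w₂) (by
        intro x hx
        rcases List.mem_append.1 hx with h | h
        · exact h1 x h
        · exact h1' x h) (by rw [List.prod_append, h3, h3', ← hm]; exact hK)
      refine ⟨f, e1, ?_, ?_⟩
      · rw [if_pos (by simp [he])]
        rw [List.length_append] at e2
        omega
      · rw [e3, List.prod_append, h3, h3', hm]
  obtain ⟨f, h1, h2, h3⟩ := words_list l (eta hG t ((cp Lz)⁻¹ * cp Lx))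
    (fun v => decide (eta hG t (cp Lx) v ≠ 1)) _ _ key
  refine ⟨f, h1, h2.trans ?_, h3⟩
  have h4 := spt_cp hG hO Lx hLx hBx
  have h5 : (l.filter fun v => decide (eta hG t (cp Lx) v ≠ 1)).length ≤ 4 * B * Lx.length := by
    refine le_trans (le_of_eq ?_) h4
    unfold spt
    congr
  exact Nat.add_le_add_left (Nat.mul_le_mul_left _ h5) _

/-- the cost of the product of the values of `y = z⁻¹ x` -/
private lemma cost_tot [Finite X] [Nonempty X] (D : Dt G K) (hKH : K ≤ H) {q : ℕ}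
    (hq : ∀ A, K ≤ A → Cst K A (D.Sg A) q) {F : Set G} {CF : ℕ}
    (hCF : ∀ A, K ≤ A → ∀ w : List G, (∀ x ∈ w, x ∈ F) → w.prod ∈ ⁅A, K⁆ →
      w.prod ∈ R K (D.Sg A) (CF * w.length))
    (hO : Orb H n r l) (ht : Trn H t) {y y₂ εx εz : G} {Nx Nz Cx Cz M : ℕ}
    (hy : y ∈ ⁅H, PG K n⁆) (hy₂ : y₂ ∈ PG K n)
    (hεx : Sm D.br.self K (D.Sg (secG D.br.self H r)) t l n Nx Cx εx)
    (hεz : Sm D.br.self K (D.Sg (secG D.br.self H r)) t l n Nz Cz εz)
    (he : εz * y = y₂ * εx) {f : List G} (hf : ∀ x ∈ f, x ∈ F) (hfM : f.length ≤ M)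
    (hfp : f.prod = tot D.br.self t l y₂) :
    tot D.br.self t l y ∈ R K (D.Sg (secG D.br.self H r))
      (3 * q + CF * M + Cx + Cz + Nx + Nz + 2 * l.length) := by
  have hG := D.br.self
  have hle : K ≤ secG D.br.self H r := K_le_secG D.br hKH r
  have hgen := D.gen _ hle
  have hPn : (PG K n).Normal := PG_normal D.br.self n
  have hyP : y ∈ PG K n := comm_le_self H hy
  have hlen : ∀ g : G, (spt D.br.self t l g).length ≤ l.length := fun g => by
    unfold spt
    exact List.length_filter_le _ _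
  have htotK : ∀ g ∈ PG K n, tot D.br.self t l g ∈ K := fun g hg =>
    prod_mem_K l _ fun v hv => eta_PG_mem D.br.self t hg ((hO.mem v).1 hv).1
  -- the two relations
  have r1 : Ap K (Nz + l.length) (tot D.br.self t l (εz * y))
      (tot D.br.self t l εz * tot D.br.self t l y) :=
    mul_rel D.br.self hO hεz.mem hyP hεz.len (hlen y)
  have r2 : Ap K (l.length + Nx) (tot D.br.self t l (y₂ * εx))
      (tot D.br.self t l y₂ * tot D.br.self t l εx) :=
    mul_rel D.br.self hO hy₂ hεx.mem (hlen y₂) hεx.len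
  -- the class of `tot y`
  have c1 : tot D.br.self t l y ∈ ⁅secG D.br.self H r, K⁆ := by
    classical
    obtain ⟨k, hk⟩ : ∃ k : List X → G, k = fun v => if v.length = n then sec D.br.self y v else 1 :=
      ⟨_, rfl⟩
    have hkn : ∀ v : List X, v.length = n → k v = sec D.br.self y v := fun v hv => by
      rw [hk]; exact if_pos hv
    have hkK : ∀ v, k v ∈ K := by
      intro v
      by_cases hv : v.length = n
      · rw [hkn v hv]; exact PG_sec D.br.self hyP hv
      · have : k v = 1 := by rw [hk]; exact if_neg hv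
        rw [this]; exact K.one_mem
    have hyk : InsG n k y := insG_of_sec D.br.self (fun v hv => PG_fix D.br.self hyP hv)
      (fun v hv => (hkn v hv).symm)
    have h1 := class_mem D.br hKH ht.mem ht.act hO.rt hO.len hO.nd hO.mem hkK hyk hy
    have h2 : gp D.br.self t k l = tot D.br.self t l y := by
      unfold gp tot
      congr 1
      refine List.map_congr_left fun v hv => ?_
      have hvn := ((hO.mem v).1 hv).1
      rw [hkn v hvn, eta_PG D.br.self t hyP hvn]
    rwa [h2] at h1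
  have c2 : tot D.br.self t l εz ∈ ⁅secG D.br.self H r, K⁆ := R_comm hle hgen.sub hεz.tot
  have c3 : tot D.br.self t l εx ∈ ⁅secG D.br.self H r, K⁆ := R_comm hle hgen.sub hεx.tot
  have c4 : tot D.br.self t l (εz * y) ∈ ⁅secG D.br.self H r, K⁆ :=
    r1.mem_comm hle (mul_mem c2 c1)
  have c5 : tot D.br.self t l y₂ * tot D.br.self t l εx ∈ ⁅secG D.br.self H r, K⁆ := by
    rw [he] at c4
    exact r2.symm.mem_comm hle c4
  have c6 : tot D.br.self t l y₂ ∈ ⁅secG D.br.self H r, K⁆ := by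
    have := mul_mem c5 (inv_mem c3)
    rwa [mul_inv_cancel_right] at this
  -- the cost
  have d1 : tot D.br.self t l y₂ ∈ R K (D.Sg (secG D.br.self H r)) (CF * M) := by
    rw [← hfp]
    exact R_mono (Nat.mul_le_mul_left _ hfM) (hCF _ hle f hf (by rw [hfp]; exact c6))
  have d2 := (hq _ hle).mul d1 hεx.tot
  have d3 := r2.R d2
  rw [← he] at d3
  have d4 := r1.symm.R d3
  have d5 := (hq _ hle).mul ((hq _ hle).inv hεz.tot) d4
  rw [inv_mul_cancel_left] at d5
  exact R_mono (by omega) d5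

private lemma spt_len_le (hG : SelfSimilar G) {a b : G}
    (h : ∀ v ∈ l, eta hG t a v = 1 → eta hG t b v = 1) :
    (spt hG t l b).length ≤ (spt hG t l a).length := by
  classical
  unfold spt
  rw [← List.countP_eq_length_filter, ← List.countP_eq_length_filter]
  refine List.countP_mono_left fun v hv h' => ?_
  rw [decide_eq_true_eq] at h' ⊢
  exact fun h'' => h' (h v hv h'')

private lemma spt_one_len (hG : SelfSimilar G) : (spt hG t l 1).length = 0 := by
  classical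
  unfold spt
  rw [List.length_eq_zero_iff, List.filter_eq_nil_iff]
  intro v _
  rw [decide_eq_true_eq, not_not]
  exact eta_one hG t v

private lemma spt_ncard [Finite X] (hG : SelfSimilar G) (hO : Orb H n r l) (g : G) :
    (spt hG t l g).length ≤ {v : List X | v.length = n ∧ eta hG t g v ≠ 1}.ncard := by
  classical
  have hnd : (spt hG t l g).Nodup := by
    unfold spt
    exact hO.nd.filter _
  rw [← List.toFinset_card_of_nodup hnd, ← Set.ncard_coe_finset]
  refine Set.ncard_le_ncard ?_ ((List.finite_length_eq X n).subset fun v hv => hv.1)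
  intro v hv
  rw [Finset.mem_coe, List.mem_toFinset, mem_spt] at hv
  exact ⟨((hO.mem v).1 hv.1).1, hv.2⟩

/-- **The cost is linear in the length of the orbit.** -/
theorem cost_root [Finite X] [Nontrivial X] (D : Dt G K) (htr : LevelTransitive G)
    (hHF : HyperfiniteLevels G) (hMZ : MeasureZeroSingular G) {H : Subgroup G} (hKH : K ≤ H) :
    ∃ W c, ∀ x ∈ ⁅H, K⁆, ∃ n, ∃ z ∈ R K (D.Sg H) W, z⁻¹ * x ∈ ⁅H, PG K n⁆ ∧
      ∀ (r : List X) (l : List (List X)), Orb H n r l → ∀ t' : List X → G, Trn H t' →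
        ∀ k : List X → G, (∀ v : List X, v.length = n → k v = sec D.br.self (z⁻¹ * x) v) →
          gp D.br.self t' k l ∈ R K (D.Sg (secG D.br.self H r)) (l.length * c) := by
  classical
  obtain ⟨m, hm⟩ := exists_levelG htr D.fin
  obtain ⟨W, hW⟩ := exists_W D m hm
  obtain ⟨q, hq⟩ := exists_Cst D
  obtain ⟨rp, hrp⟩ := exists_Rep D.fin
  obtain ⟨F, hF, hFK, htok⟩ := tokens hrp
  obtain ⟨CF, hCF⟩ := word_lin D hF hFK
  have hS := D.gen H hKH
  obtain ⟨S, hSd⟩ : ∃ S, S = D.Sg H := ⟨_, rfl⟩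
  rw [← hSd] at hS ⊢
  obtain ⟨C₁, hC₁⟩ := hat_diff D.br q (S.length + W)
  refine ⟨W, 6 * q + 4 * CF * (S.length + W) + 6, fun x hx => ?_⟩
  obtain ⟨Lx, hLx, hxe⟩ := exists_cp hKH hx
  obtain ⟨C₂, hC₂⟩ := hat_diff D.br q Lx.length
  -- the letters
  obtain ⟨E, hEd⟩ : ∃ E : Finset G, ∀ e, e ∈ E ↔ (e ∈ S ∨ ∃ p ∈ Lx, e = p.1 ∨ e = p.2) := by
    refine ⟨(S ++ (Lx.map Prod.fst ++ Lx.map Prod.snd)).toFinset, fun e => ?_⟩
    rw [List.mem_toFinset, List.mem_append, List.mem_append, List.mem_map, List.mem_map]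
    constructor
    · rintro (h | ⟨p, hp, rfl⟩ | ⟨p, hp, rfl⟩)
      · exact Or.inl h
      · exact Or.inr ⟨p, hp, Or.inl rfl⟩
      · exact Or.inr ⟨p, hp, Or.inr rfl⟩
    · rintro (h | ⟨p, hp, rfl | rfl⟩)
      · exact Or.inl h
      · exact Or.inr (Or.inl ⟨p, hp, rfl⟩)
      · exact Or.inr (Or.inr ⟨p, hp, rfl⟩)
  have hE : ∀ e ∈ E, e ∈ H := by
    intro e he
    rcases (hEd e).1 he with h | ⟨p, hp, rfl | rfl⟩
    · exact hS.sub e h
    · exact (hLx p hp).1
    · exact (hLx p hp).2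
  obtain ⟨A', hA'⟩ : ∃ A', A' = CF * (16 * Lx.length * Lx.length) + C₁ + C₂ + 4 * Lx.length +
    4 * (S.length + W) + 1 := ⟨_, rfl⟩
  obtain ⟨n, hn, t, ht, hbad⟩ := exists_transports D.br.self hHF hMZ H E hE (K.index * A')
    (K.index * A')
  obtain ⟨z₀, hz₀, hz₀x⟩ := hW n H hKH x hx
  rw [← hSd] at hz₀
  obtain ⟨Lz, hLzl, hz, hz₀z, hLz⟩ := R_hat D.br hrp hKH n t S hS.sub W hz₀
  have hPn : (PG K n).Normal := PG_normal D.br.self n
  have hy : (cp Lz)⁻¹ * x ∈ ⁅H, PG K n⁆ := by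
    have e : (cp Lz)⁻¹ * x = (z₀⁻¹ * cp Lz)⁻¹ * (z₀⁻¹ * x) := by group
    rw [e]
    exact mul_mem (inv_mem hz₀z) hz₀x
  have hyP : (cp Lz)⁻¹ * x ∈ PG K n := comm_le_self H hy
  refine ⟨n, cp Lz, hz, hy, fun r l hO t' ht' k hk => ?_⟩
  have hle : K ≤ secG D.br.self H r := K_le_secG D.br hKH r
  have hKi : 0 < K.index := Nat.pos_of_ne_zero D.fin.index_ne_zero
  have hPK : PG K n ≤ H := (PG_le D.br n).trans hKH
  -- sizes
  have hcard : Nat.card X ^ n ≤ K.index * l.length := orbit_card htr D.br.self D.fin hKH hO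
  have s1 : A' ≤ l.length := by
    have h1 : n < 2 ^ n := Nat.lt_two_pow_self
    have h2 : 2 ≤ Nat.card X := Finite.one_lt_card
    have h3 : 2 ^ n ≤ Nat.card X ^ n := Nat.pow_le_pow_left h2 n
    exact Nat.le_of_mul_le_mul_left (hn.trans (h1.le.trans (h3.trans hcard))) hKi
  obtain ⟨B, hBd⟩ : ∃ B, B = Nat.card X ^ n / (K.index * A') := ⟨_, rfl⟩
  have hA0 : 0 < A' := by rw [hA']; exact Nat.succ_pos _
  have s2 : B * A' ≤ l.length := by
    have h1 : (K.index * A') * B ≤ Nat.card X ^ n := by rw [hBd]; exact Nat.mul_div_le _ _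
    have h2 : K.index * (B * A') ≤ K.index * l.length := by
      calc K.index * (B * A') = (K.index * A') * B := by ring
        _ ≤ _ := h1.trans hcard
    exact Nat.le_of_mul_le_mul_left h2 hKi
  have hB1 : ∀ e ∈ E, (spt D.br.self t l e).length ≤ B := by
    intro e he
    have h1 := hbad e he
    have h2 := spt_ncard (t := t) D.br.self hO e
    rw [hBd, Nat.le_div_iff_mul_le (Nat.mul_pos hKi hA0), mul_comm]
    exact (Nat.mul_le_mul_left _ h2).trans h1
  have hB2 : ∀ p ∈ Lx, (spt D.br.self t l p.1).length ≤ B ∧ (spt D.br.self t l p.2).length ≤ B :=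
    fun p hp => ⟨hB1 _ ((hEd _).2 (Or.inr ⟨p, hp, Or.inl rfl⟩)),
      hB1 _ ((hEd _).2 (Or.inr ⟨p, hp, Or.inr rfl⟩))⟩
  -- the hats
  choose i hiP hi using fun g : G => exists_hat D.br hrp t n g
  have hvn : ∀ v ∈ l, v.length = n := fun v hv => ((hO.mem v).1 hv).1
  have i1 : ∀ g, (spt D.br.self t l (i g)).length ≤ (spt D.br.self t l g).length := fun g =>
    spt_len_le D.br.self fun v hv h => (hi g v (hvn v hv)).2 (by rw [h, hrp.one 1 K.one_mem])
  have i2 : ∀ g, (spt D.br.self t l (g * i g)).length ≤ (spt D.br.self t l g).length := fun g =>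
    spt_len_le D.br.self fun v hv h => by
      rw [(hi g v (hvn v hv)).1, h, hrp.one 1 K.one_mem]
  have i3 : ∀ g, (∀ v : List X, v.length = n →
      rp (eta D.br.self t g v) = eta D.br.self t g v) → (spt D.br.self t l (i g)).length ≤ B := by
    intro g hg
    have h1 := spt_len_le (t := t) (l := l) (a := 1) (b := i g) D.br.self
      fun v hv _ => (hi g v (hvn v hv)).2 (hg v (hvn v hv))
    rw [spt_one_len] at h1
    exact h1.trans (Nat.zero_le _)
  have i4 : ∀ g, ∀ v ∈ l, eta D.br.self t (g * i g) v ∈ Set.range rp := fun g v hv =>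
    ⟨_, ((hi g v (hvn v hv)).1).symm⟩
  have hLz' : ∀ p ∈ Lz, p.1 ∈ H ∧ p.2 ∈ H := fun p hp => ⟨(hLz p hp).1, (hLz p hp).2.1⟩
  have hB3 : ∀ p ∈ Lz, (spt D.br.self t l (i p.1)).length ≤ B ∧
      (spt D.br.self t l (i p.2)).length ≤ B := by
    intro p hp
    obtain ⟨_, _, h1, h2⟩ := hLz p hp
    refine ⟨?_, i3 _ h2⟩
    rcases h1 with h1 | h1
    · exact (i1 _).trans (hB1 _ ((hEd _).2 (Or.inl h1)))
    · exact i3 _ h1
  obtain ⟨εx, hεx, ex⟩ := hC₂ H hKH n r l t _ hO ht (hq _ hle) B i Lx rfl hiP hLx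
    fun p hp => ⟨(i1 _).trans (hB2 p hp).1, (i1 _).trans (hB2 p hp).2⟩
  obtain ⟨εz, hεz, ez⟩ := hC₁ H hKH n r l t _ hO ht (hq _ hle) B i Lz hLzl hiP hLz' hB3
  obtain ⟨Lx', hLx'⟩ : ∃ L, L = Lx.map fun p => (p.1 * i p.1, p.2 * i p.2) := ⟨_, rfl⟩
  obtain ⟨Lz', hLz'd⟩ : ∃ L, L = Lz.map fun p => (p.1 * i p.1, p.2 * i p.2) := ⟨_, rfl⟩
  rw [← hLx'] at ex
  rw [← hLz'd] at ez
  have hmx : ∀ p ∈ Lx', ∃ p' ∈ Lx, p = (p'.1 * i p'.1, p'.2 * i p'.2) := by
    intro p hp
    rw [hLx'] at hp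
    obtain ⟨p', h1, h2⟩ := List.mem_map.1 hp
    exact ⟨p', h1, h2.symm⟩
  have hmz : ∀ p ∈ Lz', ∃ p' ∈ Lz, p = (p'.1 * i p'.1, p'.2 * i p'.2) := by
    intro p hp
    rw [hLz'd] at hp
    obtain ⟨p', h1, h2⟩ := List.mem_map.1 hp
    exact ⟨p', h1, h2.symm⟩
  have e1 : εz * ((cp Lz)⁻¹ * x) = ((cp Lz')⁻¹ * cp Lx') * εx := by
    rw [← hxe, ex, ez]; group
  have e2 : (cp Lz')⁻¹ * cp Lx' ∈ PG K n := by
    have e3 : (cp Lz')⁻¹ * cp Lx' = εz * ((cp Lz)⁻¹ * x) * εx⁻¹ := by rw [e1]; group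
    rw [e3]
    exact mul_mem (mul_mem hεz.mem hyP) (inv_mem hεx.mem)
  have lx : Lx'.length = Lx.length := by rw [hLx', List.length_map]
  have lz : Lz'.length = S.length + W := by rw [hLz'd, List.length_map, hLzl]
  obtain ⟨f, hf, hfl, hfp⟩ := tok_word (K := K) (n := n) D.br.self hO (F := F) htok Lx' Lz'
    (by
      intro p hp
      obtain ⟨p', hp', rfl⟩ := hmx p hp
      exact ⟨H.mul_mem (hLx p' hp').1 (hPK (hiP _)), H.mul_mem (hLx p' hp').2 (hPK (hiP _))⟩)
    (by
      intro p hp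
      obtain ⟨p', hp', rfl⟩ := hmz p hp
      exact ⟨H.mul_mem (hLz' p' hp').1 (hPK (hiP _)), H.mul_mem (hLz' p' hp').2 (hPK (hiP _))⟩)
    (by
      intro p hp v hv
      obtain ⟨p', hp', rfl⟩ := hmx p hp
      exact ⟨i4 _ v hv, i4 _ v hv⟩)
    (by
      intro p hp v hv
      obtain ⟨p', hp', rfl⟩ := hmz p hp
      exact ⟨i4 _ v hv, i4 _ v hv⟩)
    (B := B)
    (by
      intro p hp
      obtain ⟨p', hp', rfl⟩ := hmx p hp
      exact ⟨(i2 _).trans (hB2 p' hp').1, (i2 _).trans (hB2 p' hp').2⟩)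
    e2
  have h1 := cost_tot D hKH hq hCF hO ht hy e2 hεx hεz e1 hf hfl hfp
  have h2 := gp_rel D.br.self hO ht ht' (hq _ hle) hyP hk
  have h3 := (hq _ hle).mul h1 h2
  rw [mul_inv_cancel_left] at h3
  refine R_mono ?_ h3
  rw [lx, lz]
  rw [hA'] at s1 s2
  have h4 : q * 1 ≤ q * l.length := Nat.mul_le_mul_left q (by omega)
  have h5 : C₁ + C₂ ≤ l.length := by omega
  have h6 : B * (CF * (16 * Lx.length * Lx.length)) + B * C₁ + B * C₂ + B * (4 * Lx.length) +
      B * (4 * (S.length + W)) + B ≤ l.length := by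
    refine le_trans (le_of_eq ?_) s2
    ring
  have h7 : 3 * q + CF * (4 * (S.length + W) * l.length +
        4 * Lx.length * (4 * B * Lx.length)) + C₂ * (B + 1) + C₁ * (B + 1) +
        Lx.length * (4 * B) + (S.length + W) * (4 * B) + 2 * l.length +
        l.length * (2 * q + 2) + q =
      4 * q + (4 * CF * (S.length + W) * l.length + 2 * q * l.length + 4 * l.length) +
        (C₁ + C₂) + (B * (CF * (16 * Lx.length * Lx.length)) + B * C₁ + B * C₂ +
          B * (4 * Lx.length) + B * (4 * (S.length + W))) := by ring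
  have h8 : l.length * (6 * q + 4 * CF * (S.length + W) + 6) =
      4 * (q * l.length) + (4 * CF * (S.length + W) * l.length + 2 * q * l.length +
        4 * l.length) + l.length + l.length := by ring
  rw [h7, h8]
  omega

end Pool.Agent.MZ71
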