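import Mathlib
import Pool.Agent.MZ71.Defs
import Pool.Agent.MZ71.Carve

set_option autoImplicit false
set_option linter.unusedSectionVars false

/-!
# MZ71/HFfol: amenable groups have hyperfinite level actions
-/

namespace Pool.Agent.MZ71

open Pool.Agent.CW71 Pool.Agent.CB71 Pool.Agent.RB61

open Classical in
private theorem lc_eq {Ω : Type*} (U : Finset Ω) (w : Ω → ℕ) (n : ℕ) (hw : ∀ a ∈ U, w a ≤ n) :
    ∑ s ∈ Finset.range n, (U.filter fun a => s < w a).card = ∑ a ∈ U, w a := by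
  simp only [Finset.card_filter]
  rw [Finset.sum_comm]
  refine Finset.sum_congr rfl fun a ha => ?_
  rw [← Finset.card_filter]
  have h1 : (Finset.range n).filter (fun s => s < w a) = Finset.range (w a) := by
    ext s
    rw [Finset.mem_filter, Finset.mem_range, Finset.mem_range]
    have := hw a ha
    constructor
    · exact fun h => h.2
    · exact fun h => ⟨by omega, h⟩
  rw [h1, Finset.card_range]

open Classical in
private theorem lc_le {Ω : Type*} (U : Finset Ω) (w w' : Ω → ℕ) (n : ℕ) :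
    ∑ s ∈ Finset.range n, (U.filter fun a => s < w a ∧ ¬ s < w' a).card ≤
      ∑ a ∈ U, (w a - w' a) := by
  simp only [Finset.card_filter]
  rw [Finset.sum_comm]
  refine Finset.sum_le_sum fun a _ => ?_
  rw [← Finset.card_filter]
  have h1 : (Finset.range n).filter (fun s => s < w a ∧ ¬ s < w' a) ⊆
      Finset.Ico (w' a) (w a) := by
    intro s hs
    rw [Finset.mem_filter] at hs
    rw [Finset.mem_Ico]
    omega
  have h2 := Finset.card_le_card h1
  rwa [Nat.card_Ico] at h2

open Classical in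
private theorem fib_sum {Ω Γ : Type*} [Group Γ] [MulAction Γ Ω] (F₀ : Finset Γ) (V : Finset Ω)
    (P : Γ → Prop) (a : Ω) (hV : ∀ f ∈ F₀, f • a ∈ V) :
    ∑ v ∈ V, (F₀.filter fun f => f • a = v ∧ P f).card = (F₀.filter P).card := by
  rw [Finset.card_eq_sum_card_fiberwise (s := F₀.filter P) (t := V) (f := fun f => f • a)
    (fun f hf => hV f (Finset.mem_filter.1 hf).1)]
  refine Finset.sum_congr rfl fun v _ => ?_
  rw [Finset.filter_filter]
  congr 1
  ext f
  simp only [Finset.mem_filter]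
  tauto

open Classical in
private theorem bad_sum {Ω Γ : Type*} [Group Γ] [MulAction Γ Ω] (F₀ : Finset Γ) (V U : Finset Ω)
    (hV : ∀ f ∈ F₀, ∀ v ∈ V, f • v ∈ V) (hU : U ⊆ V) (e : Γ) (n : ℕ) :
    ∑ v ∈ V, ∑ s ∈ Finset.range n, (U.filter fun a =>
      s < (F₀.filter fun f => f • a = v).card ∧
        ¬ s < (F₀.filter fun f => f • (e • a) = v).card).card ≤
      U.card * (F₀.filter fun f => f * e⁻¹ ∉ F₀).card := by
  calc ∑ v ∈ V, ∑ s ∈ Finset.range n, (U.filter fun a =>
        s < (F₀.filter fun f => f • a = v).card ∧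
          ¬ s < (F₀.filter fun f => f • (e • a) = v).card).card
      ≤ ∑ v ∈ V, ∑ a ∈ U, ((F₀.filter fun f => f • a = v).card -
          (F₀.filter fun f => f • (e • a) = v).card) :=
        Finset.sum_le_sum fun v _ => lc_le U _ _ n
    _ ≤ ∑ v ∈ V, ∑ a ∈ U, (F₀.filter fun f => f • a = v ∧ f * e⁻¹ ∉ F₀).card := by
        refine Finset.sum_le_sum fun v _ => Finset.sum_le_sum fun a _ => ?_
        have h1 : (F₀.filter fun f => f • a = v).card =
            (F₀.filter fun f => f • a = v ∧ f * e⁻¹ ∉ F₀).card +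
              (F₀.filter fun f => f • a = v ∧ f * e⁻¹ ∈ F₀).card := by
          rw [← Finset.card_union_of_disjoint]
          · congr 1
            ext f
            simp only [Finset.mem_filter, Finset.mem_union]
            tauto
          · rw [Finset.disjoint_left]
            intro f hf hf'
            exact (Finset.mem_filter.1 hf).2.2 (Finset.mem_filter.1 hf').2.2
        have h2 : (F₀.filter fun f => f • a = v ∧ f * e⁻¹ ∈ F₀).card ≤
            (F₀.filter fun f => f • (e • a) = v).card := by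
          refine Finset.card_le_card_of_injOn (fun f => f * e⁻¹) ?_ ?_
          · intro f hf
            rw [Finset.mem_coe, Finset.mem_filter] at hf
            rw [Finset.mem_coe, Finset.mem_filter]
            refine ⟨hf.2.2, ?_⟩
            rw [smul_smul, inv_mul_cancel_right]
            exact hf.2.1
          · intro f _ f' _ hff
            exact mul_right_cancel hff
        omega
    _ = ∑ a ∈ U, ∑ v ∈ V, (F₀.filter fun f => f • a = v ∧ f * e⁻¹ ∉ F₀).card :=
        Finset.sum_comm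
    _ = ∑ _a ∈ U, (F₀.filter fun f => f * e⁻¹ ∉ F₀).card := by
        refine Finset.sum_congr rfl fun a ha => ?_
        convert fib_sum F₀ V (fun f => f * e⁻¹ ∉ F₀) a fun f hf => hV f hf a (hU ha)
    _ = U.card * (F₀.filter fun f => f * e⁻¹ ∉ F₀).card := by
        rw [Finset.sum_const, smul_eq_mul]

open Classical in
/-- Namioka's trick in a finite set `V` stable under the elements of the finite set `F₀`, `E`.
PROOF.  For `v ∈ V` and `a ∈ Ω` let `w v a = #{f ∈ F₀ | f⁻¹ • v = a}`, and for `1 ≤ s` (`s ≤ F₀.card`)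
`A v s = {a ∈ U | s ≤ w v a}`.  Then (layer cake)
`Σ_{v ∈ V} Σ_s (A v s).card = Σ_{v ∈ V} Σ_{a ∈ U} w v a = Σ_{a ∈ U} F₀.card = U.card * F₀.card`
(for `a ∈ U`, `f ∈ F₀` there is exactly one `v ∈ V` with `f⁻¹ • v = a`, namely `f • a`).
For `e ∈ E` (or `e⁻¹ ∈ E`): `#{a ∈ A v s | e • a ∈ U \ A v s}` summed over `s` is at most
`Σ_{a ∈ U} (w v a - w v (e • a))` (truncated subtraction), and
`w v a - w v (e • a) ≤ #{f ∈ F₀ | f⁻¹ • v = a ∧ f * e⁻¹ ∉ F₀}` because `f ↦ f * e⁻¹` maps the other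
`f` with `f⁻¹ • v = a` injectively into `{f' ∈ F₀ | f'⁻¹ • v = e • a}`.  Summed over `v ∈ V`,
`a ∈ U` this is `U.card * #{f ∈ F₀ | f * e⁻¹ ∉ F₀}`.  The first boundary term in the conclusion is at
most the sum over `e ∈ E` of `#{a ∈ A | e • a ∈ U \ A}`; the second one,
`#{b ∈ U \ A | ∃ e ∈ E, e • b ∈ A}`, is at most the sum over `e ∈ E` of
`#{a ∈ A | e⁻¹ • a ∈ U \ A}` (`b = e⁻¹ • a`).  So the sum over all `(v, s)` of `N *` (boundary) is at
most `N * Σ_{e ∈ E} U.card * (#{f | f * e⁻¹ ∉ F₀} + #{f | f * e ∉ F₀}) ≤ U.card * F₀.card` by `hF`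
(`2 * N * E.card * # ≤ F₀.card`), which is the sum of the `(A v s).card`.  If every pair `(v, s)`
with `A v s` nonempty had `N * boundary > (A v s).card`, the sum of the `N * boundary` would be
larger (there is a nonempty `A v s`: the total is `> 0`; for empty `A v s` both are `0`).  The centre
is `v`, `a = f⁻¹ • v`. -/
theorem namioka {Ω Γ : Type*} [Group Γ] [MulAction Γ Ω] (E F₀ : Finset Γ) (V U : Finset Ω) (N : ℕ)
    (hV : ∀ f ∈ F₀, ∀ v ∈ V, f • v ∈ V) (hne : F₀.Nonempty)
    (hF : ∀ e ∈ E, 2 * N * E.card * (F₀.filter fun f => f * e ∉ F₀).card ≤ F₀.card ∧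
      2 * N * E.card * (F₀.filter fun f => f * e⁻¹ ∉ F₀).card ≤ F₀.card)
    (hU : U ⊆ V) (hUne : U.Nonempty) : ∃ A : Finset Ω, A ⊆ U ∧ A.Nonempty ∧
      (∃ u : Ω, ∀ a ∈ A, ∃ f ∈ F₀.image (fun f => f⁻¹), f • u = a) ∧
      N * ((A.filter fun a => ∃ e ∈ E, e • a ∈ U \ A).card +
        ((U \ A).filter fun b => ∃ e ∈ E, e • b ∈ A).card) ≤ A.card := by
  set n := F₀.card with hn
  set w : Ω → Ω → ℕ := fun v a => (F₀.filter fun f => f • a = v).card with hw
  have hwn : ∀ v a, w v a ≤ n := fun v a => Finset.card_filter_le _ _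
  set A : Ω → ℕ → Finset Ω := fun v s => U.filter fun a => s < w v a with hA
  set b1 : Ω → ℕ → ℕ := fun v s => ((A v s).filter fun a => ∃ e ∈ E, e • a ∈ U \ A v s).card
    with hb1
  set b2 : Ω → ℕ → ℕ := fun v s => ((U \ A v s).filter fun b => ∃ e ∈ E, e • b ∈ A v s).card
    with hb2
  -- the total mass
  have htot : ∑ v ∈ V, ∑ s ∈ Finset.range n, (A v s).card = U.card * n := by
    have h1 : ∀ v ∈ V, ∑ s ∈ Finset.range n, (A v s).card = ∑ a ∈ U, w v a :=
      fun v _ => lc_eq U (w v) n fun a _ => hwn v a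
    rw [Finset.sum_congr rfl h1, Finset.sum_comm]
    have h2 : ∀ a ∈ U, ∑ v ∈ V, w v a = n := by
      intro a ha
      have h3 := fib_sum F₀ V (fun _ => True) a fun f hf => hV f hf a (hU ha)
      simp only [and_true, Finset.filter_true] at h3
      exact h3
    rw [Finset.sum_congr rfl h2, Finset.sum_const, smul_eq_mul]
  -- the boundary of one element
  set D : Γ → Ω → ℕ → ℕ := fun e v s => (U.filter fun a => s < w v a ∧ ¬ s < w v (e • a)).card
    with hD
  have hDle : ∀ e, ∑ v ∈ V, ∑ s ∈ Finset.range n, D e v s ≤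
      U.card * (F₀.filter fun f => f * e⁻¹ ∉ F₀).card := fun e => bad_sum F₀ V U hV hU e n
  have hb1le : ∀ v s, b1 v s ≤ ∑ e ∈ E, D e v s := by
    intro v s
    refine le_trans (Finset.card_le_card ?_) Finset.card_biUnion_le
    intro a ha
    obtain ⟨haA, e, he, hea⟩ := Finset.mem_filter.1 ha
    obtain ⟨haU, has⟩ := Finset.mem_filter.1 haA
    obtain ⟨heU, heA⟩ := Finset.mem_sdiff.1 hea
    refine Finset.mem_biUnion.2 ⟨e, he, Finset.mem_filter.2 ⟨haU, has, ?_⟩⟩
    intro h
    exact heA (Finset.mem_filter.2 ⟨heU, h⟩)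
  have hb2le : ∀ v s, b2 v s ≤ ∑ e ∈ E, D e⁻¹ v s := by
    intro v s
    have h1 : ((U \ A v s).filter fun b => ∃ e ∈ E, e • b ∈ A v s) ⊆
        E.biUnion fun e => (U \ A v s).filter fun b => e • b ∈ A v s := by
      intro b hb
      obtain ⟨hbU, e, he, heb⟩ := Finset.mem_filter.1 hb
      exact Finset.mem_biUnion.2 ⟨e, he, Finset.mem_filter.2 ⟨hbU, heb⟩⟩
    refine (Finset.card_le_card h1).trans (Finset.card_biUnion_le.trans ?_)
    refine Finset.sum_le_sum fun e _ => ?_
    refine Finset.card_le_card_of_injOn (fun b => e • b) ?_ ?_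
    · intro b hb
      rw [Finset.mem_coe, Finset.mem_filter, Finset.mem_sdiff] at hb
      obtain ⟨⟨hbU, hbA⟩, heb⟩ := hb
      obtain ⟨heU, hes⟩ := Finset.mem_filter.1 heb
      rw [Finset.mem_coe, Finset.mem_filter]
      refine ⟨heU, hes, ?_⟩
      rw [inv_smul_smul]
      intro h
      exact hbA (Finset.mem_filter.2 ⟨hbU, h⟩)
    · intro b _ b' _ hbb
      exact MulAction.injective e hbb
  -- the sum of the boundaries
  have hsum : ∑ v ∈ V, ∑ s ∈ Finset.range n, N * (b1 v s + b2 v s) ≤ U.card * n := by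
    set B : Γ → ℕ := fun g => (F₀.filter fun f => f * g ∉ F₀).card with hB
    have h1 : ∑ v ∈ V, ∑ s ∈ Finset.range n, N * (b1 v s + b2 v s) ≤
        ∑ v ∈ V, ∑ s ∈ Finset.range n, N * (∑ e ∈ E, D e v s + ∑ e ∈ E, D e⁻¹ v s) :=
      Finset.sum_le_sum fun v _ => Finset.sum_le_sum fun s _ =>
        Nat.mul_le_mul_left N (Nat.add_le_add (hb1le v s) (hb2le v s))
    have h2 : ∑ v ∈ V, ∑ s ∈ Finset.range n, N * (∑ e ∈ E, D e v s + ∑ e ∈ E, D e⁻¹ v s) =
        N * (∑ e ∈ E, (∑ v ∈ V, ∑ s ∈ Finset.range n, D e v s) +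
          ∑ e ∈ E, (∑ v ∈ V, ∑ s ∈ Finset.range n, D e⁻¹ v s)) := by
      simp only [← Finset.mul_sum, Finset.sum_add_distrib]
      congr 2
      · rw [Finset.sum_comm' (s := E) (t := fun _ => V) (t' := V) (s' := fun _ => E)
          (by simp [and_comm])]
        refine Finset.sum_congr rfl fun v _ => ?_
        rw [Finset.sum_comm]
      · rw [Finset.sum_comm' (s := E) (t := fun _ => V) (t' := V) (s' := fun _ => E)
          (by simp [and_comm])]
        refine Finset.sum_congr rfl fun v _ => ?_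
        rw [Finset.sum_comm]
    have h3 : ∑ e ∈ E, (∑ v ∈ V, ∑ s ∈ Finset.range n, D e v s) +
          ∑ e ∈ E, (∑ v ∈ V, ∑ s ∈ Finset.range n, D e⁻¹ v s) ≤
        ∑ e ∈ E, U.card * (B e⁻¹ + B e) := by
      rw [← Finset.sum_add_distrib]
      refine Finset.sum_le_sum fun e _ => ?_
      rw [mul_add]
      refine Nat.add_le_add (hDle e) ?_
      have := hDle e⁻¹
      rwa [inv_inv] at this
    have h4 : N * ∑ e ∈ E, (B e⁻¹ + B e) ≤ n := by
      rcases Finset.eq_empty_or_nonempty E with h0 | h0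
      · rw [h0, Finset.sum_empty, mul_zero]
        exact Nat.zero_le _
      · have hc : 0 < E.card := Finset.card_pos.2 h0
        have h5 : ∀ e ∈ E, E.card * (N * (B e⁻¹ + B e)) ≤ n := by
          intro e he
          obtain ⟨h6, h7⟩ := hF e he
          have h8 : 2 * N * E.card * B e ≤ n := h6
          have h9 : 2 * N * E.card * B e⁻¹ ≤ n := h7
          nlinarith
        have h6 : ∑ e ∈ E, E.card * (N * (B e⁻¹ + B e)) ≤ E.card * n := by
          have := Finset.sum_le_card_nsmul E _ n h5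
          rwa [smul_eq_mul] at this
        rw [← Finset.mul_sum, ← Finset.mul_sum] at h6
        exact Nat.le_of_mul_le_mul_left h6 hc
    calc ∑ v ∈ V, ∑ s ∈ Finset.range n, N * (b1 v s + b2 v s)
        ≤ _ := h1
      _ = _ := h2
      _ ≤ N * ∑ e ∈ E, U.card * (B e⁻¹ + B e) := Nat.mul_le_mul_left N h3
      _ = U.card * (N * ∑ e ∈ E, (B e⁻¹ + B e)) := by rw [← Finset.mul_sum]; ring
      _ ≤ U.card * n := Nat.mul_le_mul_left _ h4
  -- a good pair
  have hex : ∃ v ∈ V, ∃ s ∈ Finset.range n, (A v s).Nonempty ∧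
      N * (b1 v s + b2 v s) ≤ (A v s).card := by
    by_contra hcon
    push Not at hcon
    have hle : ∀ v ∈ V, ∀ s ∈ Finset.range n, (A v s).card ≤ N * (b1 v s + b2 v s) := by
      intro v hv s hs
      rcases Finset.eq_empty_or_nonempty (A v s) with h0 | h0
      · rw [h0, Finset.card_empty]
        exact Nat.zero_le _
      · exact (hcon v hv s hs h0).le
    have hpos : 0 < U.card * n := Nat.mul_pos (Finset.card_pos.2 hUne) (Finset.card_pos.2 hne)
    rw [← htot] at hpos
    obtain ⟨v, hv, hv2⟩ : ∃ v ∈ V, ∑ s ∈ Finset.range n, (A v s).card ≠ 0 :=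
      Finset.exists_ne_zero_of_sum_ne_zero hpos.ne'
    obtain ⟨s, hs, hs2⟩ : ∃ s ∈ Finset.range n, (A v s).card ≠ 0 :=
      Finset.exists_ne_zero_of_sum_ne_zero hv2
    have h0 : (A v s).Nonempty := Finset.card_pos.1 (Nat.pos_of_ne_zero hs2)
    have hlt : ∑ v ∈ V, ∑ s ∈ Finset.range n, (A v s).card <
        ∑ v ∈ V, ∑ s ∈ Finset.range n, N * (b1 v s + b2 v s) := by
      refine Finset.sum_lt_sum (fun v hv => Finset.sum_le_sum fun s hs => hle v hv s hs)
        ⟨v, hv, ?_⟩
      exact Finset.sum_lt_sum (fun s hs => hle v hv s hs) ⟨s, hs, hcon v hv s hs h0⟩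
    rw [htot] at hlt
    omega
  obtain ⟨v, _, s, _, h0, h1⟩ := hex
  refine ⟨A v s, Finset.filter_subset _ _, h0, ⟨v, ?_⟩, h1⟩
  intro a ha
  have h2 := (Finset.mem_filter.1 ha).2
  have h3 : 0 < w v a := by omega
  obtain ⟨f, hf⟩ := Finset.card_pos.1 h3
  obtain ⟨hf1, hf2⟩ := Finset.mem_filter.1 hf
  refine ⟨f⁻¹, Finset.mem_image_of_mem _ hf1, ?_⟩
  rw [← hf2, inv_smul_smul]

variable {X : Type} {G : Subgroup (Tr X)}

open Classical in
/-- PROOF.  Let `E`, `N` be given.  `h (closure E) (E ∪ E⁻¹) (2 * N * E.card)` gives a Følner set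
`F₀ ⊆ closure E`; put `F = F₀⁻¹`.  For any `n ≥ n₀` (take `n = n₀`) let `V` be the finite set of the
words of length `n` (`List.finite_length_eq`, `len_act`), and apply `carve` with `namioka`.  The bad
set of `carve` is the bad set of `HyperfiniteLevels` (`e • v ∈ V` is automatic), `V.card =
Nat.card X ^ n` (`List.Vector X n`, `card_vector`; `Set.ncard_coe_finset`). -/
theorem HF_of_Fol [Finite X] (hG : SelfSimilar G) (h : ∀ L : Subgroup G, Fol L) :
    HyperfiniteLevels G := by
  intro E N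
  obtain ⟨F₀, hne, hF₀L, hF₀⟩ := h (Subgroup.closure (E : Set G)) (E ∪ E.image (fun g => g⁻¹))
    (2 * N * E.card) (by
      intro g hg
      rcases Finset.mem_union.1 hg with hg | hg
      · exact Subgroup.subset_closure (Finset.mem_coe.2 hg)
      · obtain ⟨g', hg', rfl⟩ := Finset.mem_image.1 hg
        exact Subgroup.inv_mem _ (Subgroup.subset_closure (Finset.mem_coe.2 hg')))
  refine ⟨F₀.image (fun f => f⁻¹), ?_, ?_⟩
  · intro f hf
    obtain ⟨f', hf', rfl⟩ := Finset.mem_image.1 hf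
    exact Subgroup.inv_mem _ (hF₀L f' hf')
  intro n
  refine ⟨n, le_rfl, ?_⟩
  have hfin := List.finite_length_eq X n
  set V : Finset (List X) := hfin.toFinset with hVdef
  have hVm : ∀ v, v ∈ V ↔ v.length = n := by
    intro v
    rw [hVdef, Set.Finite.mem_toFinset]
    rfl
  have hVact : ∀ g : G, ∀ v ∈ V, g • v ∈ V := by
    intro g v hv
    rw [hVm] at hv ⊢
    rw [len_act hG, hv]
  have hVc : V.card = Nat.card X ^ n := by
    have hX : Fintype X := Fintype.ofFinite X
    rw [hVdef, ← Set.ncard_eq_toFinset_card _ hfin, ← Nat.card_coe_set_eq]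
    change Nat.card (List.Vector X n) = _
    rw [Nat.card_eq_fintype_card, card_vector, Nat.card_eq_fintype_card]
  obtain ⟨c, hc1, hc2⟩ := carve E (F₀.image (fun f => f⁻¹)) V N (by
    intro U hUV hUne
    have hnam := namioka E F₀ V U N (fun f _ v hv => hVact f v hv) hne (fun e he => by
      have a1 := hF₀ e (Finset.mem_union_left _ he)
      have a2 := hF₀ e⁻¹ (Finset.mem_union_right _ (Finset.mem_image_of_mem _ he))
      constructor
      · refine Eq.mp ?_ a1
        congr
      · refine Eq.mp ?_ a2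
        congr) hUV hUne
    obtain ⟨A, h1, h2, h3, h4⟩ := hnam
    refine ⟨A, h1, h2, ?_, Eq.mp ?_ h4⟩
    · obtain ⟨u, hu⟩ := h3
      refine ⟨u, fun a ha => ?_⟩
      obtain ⟨f, hf, e⟩ := hu a ha
      refine ⟨f, Eq.mp ?_ hf, e⟩
      simp only [Finset.mem_image]
    · congr)
  refine ⟨c, ?_, ?_⟩
  · intro v hv
    obtain ⟨f, hf, hfv⟩ := hc1 v ((hVm v).2 hv)
    exact ⟨f, hf, hfv⟩
  · have h1 : {v : List X | v.length = n ∧ ∃ e ∈ E, c ((e : Tr X) v) ≠ c v} =
        ((V.filter fun v => ∃ e ∈ E, e • v ∈ V ∧ c (e • v) ≠ c v : Finset (List X)) :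
          Set (List X)) := by
      ext v
      rw [Finset.mem_coe, Finset.mem_filter, hVm]
      constructor
      · rintro ⟨hv, e, he, hne'⟩
        exact ⟨hv, e, he, hVact e v ((hVm v).2 hv), hne'⟩
      · rintro ⟨hv, e, he, _, hne'⟩
        exact ⟨hv, e, he, hne'⟩
    rw [h1, Set.ncard_coe_finset, ← hVc]
    refine Eq.mp ?_ hc2
    congr

end Pool.Agent.MZ71
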