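import Mathlib
import Pool.Agent.MZ71.Cost
import Pool.Agent.MZ71.HFfol
import Pool.Agent.MZ71.HForb
import Pool.Agent.MZ71.Contr
import Pool.Agent.RB61.Comm

set_option autoImplicit false
set_option linter.unusedSectionVars false

/-!
# MZ71/Main: the main theorem
-/

namespace Pool.Agent.MZ71

open scoped commutatorElement
open Pool.Agent.CW71 Pool.Agent.CB71 Pool.Agent.RB61

variable {X : Type}

section inner

variable {G : Subgroup (Tr X)} {K : Subgroup G} [hKn : K.Normal]

/-- compare `bound_x` in RB61/Main -/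
theorem bound_x [Finite X] [Nontrivial X] (D : Dt G K) (ht : LevelTransitive G)
    (hHF : HyperfiniteLevels G) (hMZ : MeasureZeroSingular G) {H : Subgroup G} (hKH : K ≤ H) :
    ∃ N, ∀ x ∈ ⁅H, K⁆, x ∈ CK H N := by
  classical
  obtain ⟨W, c, hcost⟩ := cost_root D ht hHF hMZ hKH
  obtain ⟨Q, hQ⟩ : ∃ Q, ∀ H', K ≤ H' → (D.Sg H').length ≤ Q :=
    uniform D.fin (fun H' n => (D.Sg H').length ≤ n) (fun _ _ _ h h' => h'.trans h)
      (fun H' _ => ⟨_, le_rfl⟩)
  have hS := D.gen H hKH
  set S := D.Sg H with hSdef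
  refine ⟨(S.length + W) + (K.index * Q + (c + ((S.length + S.length) + (S.length + S.length)))),
    fun x hx => ?_⟩
  obtain ⟨n, z, hz, hzx, hcst⟩ := hcost x hx
  set y := z⁻¹ * x with hy
  obtain ⟨t, L, htm, hta, hL, hgath⟩ := gather D.br hS n
  have htr : Trn H t := ⟨htm, hta⟩
  have hPn : (PG K n).Normal := PG_normal D.br.self n
  have hyP : y ∈ PG K n := comm_le_self H hzx
  set k : List X → G := fun v => if v.length = n then sec D.br.self y v else 1 with hk
  have hkn : ∀ v : List X, v.length = n → k v = sec D.br.self y v := fun v hv => if_pos hv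
  have hkK : ∀ v, k v ∈ K := by
    intro v
    by_cases hv : v.length = n
    · rw [hkn v hv]; exact PG_sec D.br.self hyP hv
    · have : k v = 1 := if_neg hv
      rw [this]; exact K.one_mem
  have hyk : InsG n k y := insG_of_sec D.br.self (fun v hv => PG_fix D.br.self hyP hv)
    (fun v hv => (hkn v hv).symm)
  obtain ⟨w, hw, hyw⟩ := hgath k y hkK hyk
  -- the values at the representatives
  have key : ∀ r : List X, ∃ u κ : G, (r.length = n ∧ rtG H r = r →
      u ∈ R K (D.Sg (secG D.br.self H r)) 0 ∧ κ ∈ CK K ((L r).length * c) ∧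
        gp D.br.self t k (L r) = u * κ) ∧ u ∈ K := by
    intro r
    by_cases hr : r.length = n ∧ rtG H r = r
    swap
    · exact ⟨1, 1, fun h => absurd h hr, K.one_mem⟩
    obtain ⟨hL1, hL2⟩ := hL r hr.2 hr.1
    have hO : Orb H n r (L r) := ⟨hr.1, hr.2, hL1, hL2⟩
    obtain ⟨u, hu, κ, hκ, h7⟩ := R_split (hcst r (L r) hO t htr k hkn)
    exact ⟨u, κ, fun _ => ⟨hu, hκ, h7⟩, R_sub hu⟩
  choose u κ hkey huK using key
  have hdis : ∀ r : List X, ∃ f : List X → G, (∀ v, f v ∈ CK K c) ∧
      (r.length = n ∧ rtG H r = r → ((L r).map f).prod = κ r) := by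
    intro r
    by_cases hr : r.length = n ∧ rtG H r = r
    · obtain ⟨f, hf, hf'⟩ := distribute c (L r) (hL r hr.2 hr.1).1 (hkey r hr).2.1
      exact ⟨f, hf, fun _ => hf'⟩
    · exact ⟨fun _ => 1, fun _ => one_mem_CK c, fun h => absurd h hr⟩
  choose f hf hf' using hdis
  set k' : List X → G := fun v =>
    (sec D.br.self (t v) v)⁻¹ * f (rtG H v) v * sec D.br.self (t v) v with hk'
  have hk'4 : ∀ v, k' v ∈ CK K c := by
    intro v
    have := CK_conj (hf (rtG H v) v) (sec D.br.self (t v) v)⁻¹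
    rwa [inv_inv] at this
  obtain ⟨y', hy', hyi'⟩ := CK_par_existsG D.br n hk'4
  obtain ⟨w', hw', hyw'⟩ := hgath k' y' (fun v => CK_sub (hk'4 v)) hyi'
  have hgp : ∀ r : List X, r.length = n → rtG H r = r → gp D.br.self t k' (L r) = κ r := by
    intro r hr hrr
    rw [← hf' r ⟨hr, hrr⟩]
    unfold gp
    congr 1
    refine List.map_congr_left fun v hv => ?_
    have hvr : rtG H v = r := (((hL r hrr hr).2 v).1 hv).2
    show sec D.br.self (t v) v * ((sec D.br.self (t v) v)⁻¹ * f (rtG H v) v *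
      sec D.br.self (t v) v) * (sec D.br.self (t v) v)⁻¹ = f r v
    rw [hvr]; group
  -- the insertion of the elements `u`
  obtain ⟨gu, hguK, hgu⟩ := D.br.ins n (fun v => if rtG H v = v then u v else 1) (by
    intro v
    show (if rtG H v = v then u v else 1) ∈ K
    split
    · exact huK v
    · exact K.one_mem)
  have hguC : gu ∈ CK H (K.index * Q) :=
    ins_roots D ht hKH hQ (fun r hr hrr => (hkey r ⟨hr, hrr⟩).1) hgu
  have heq : y * w = gu * (y' * w') := by
    refine insG_unique D.br.self hyw (hgu.mul hyw') fun v hv => ?_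
    show (if rtG H v = v then gp D.br.self t k (L v) else 1) =
      (if rtG H v = v then u v else 1) *
        (if rtG H v = v then gp D.br.self t k' (L v) else 1)
    by_cases hr : rtG H v = v
    · rw [if_pos hr, if_pos hr, if_pos hr, hgp v hv hr]
      exact (hkey v ⟨hv, hr⟩).2.2
    · rw [if_neg hr, if_neg hr, if_neg hr, one_mul]
  have hxeq : x = z * (gu * (y' * (w' * w⁻¹))) := by
    have h1 : x = z * y := by rw [hy]; group
    have h2 : y = gu * (y' * w') * w⁻¹ := by rw [← heq]; group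
    rw [h1, h2]; group
  rw [hxeq]
  refine CK_mul (R_CK hKH hS.sub hz) (CK_mul hguC (CK_mul (CK_le hKH hy') (CK_mul
    (R_CK hKH hS.sub hw') (CK_inv (R_CK hKH hS.sub hw)))))

theorem bound_HH [Finite X] [Nontrivial X] (D : Dt G K) (ht : LevelTransitive G)
    (hHF : HyperfiniteLevels G) (hMZ : MeasureZeroSingular G) {H : Subgroup G} (hKH : K ≤ H) :
    ∃ N, ∀ y ∈ ⁅H, H⁆, y ∈ CK H N := by
  classical
  obtain ⟨N, hN⟩ := bound_x D ht hHF hMZ hKH
  obtain ⟨T, hT, hTH, hT'⟩ := transversal_HH (H := H) D.fin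
  have h1 : ∀ t : G, ∃ n, t ∈ T → t ∈ CK H n := by
    intro t
    by_cases ht : t ∈ T
    · obtain ⟨n, hn⟩ := exists_CK H (hTH t ht)
      exact ⟨n, fun _ => hn⟩
    · exact ⟨0, fun h => absurd h ht⟩
  choose f hf using h1
  obtain ⟨C, hC⟩ := (hT.image f).bddAbove
  refine ⟨C + N, fun y hy => ?_⟩
  obtain ⟨t, ht, h2⟩ := hT' y hy
  have h4 := CK_mul (CK_mono (hC ⟨t, ht, rfl⟩) (hf t ht)) (hN _ h2)
  rwa [mul_inv_cancel_left] at h4

end inner

/-- **Finite commutator width**: regular branch groups with hyperfinite level actions and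
measure-zero singular points. -/
theorem main_MZ [Finite X] [Nontrivial X] {G K H : Subgroup (Tr X)} (hfg : G.FG)
    (hss : SelfSimilar G) (ht : LevelTransitive G) (hKG : K ≤ G)
    (hKi : (K.subgroupOf G).FiniteIndex) (hKp : ContainsPower K)
    (hHF : HyperfiniteLevels G) (hMZ : MeasureZeroSingular G) (hHG : H ≤ G)
    (hHi : (H.subgroupOf G).FiniteIndex) : FiniteCommutatorWidth H := by
  have hbr := br_core hss hKG hKp
  set K₁ := (K.subgroupOf G).normalCore with hK₁
  have hK₁n : K₁.Normal := Subgroup.normalCore_normal _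
  have hK₁i : K₁.FiniteIndex := by
    rw [hK₁]; infer_instance
  have hGfg : Group.FG G := (Group.fg_iff_subgroup_fg G).2 hfg
  have hNn : (H.subgroupOf G).normalCore.Normal := Subgroup.normalCore_normal _
  obtain ⟨L, hLN, hLn, hLi, hLbr⟩ := exists_branching hbr hGfg ht hK₁i
    (H.subgroupOf G).normalCore inferInstance
  obtain ⟨D⟩ := exists_Dt hfg hLbr hLi
  have hle : L ≤ H.subgroupOf G := hLN.trans (Subgroup.normalCore_le _)
  obtain ⟨N, hN⟩ := bound_HH D ht hHF hMZ hle
  refine ⟨N, fun g hg => ?_⟩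
  have h1 : (commutator H).map (Subgroup.inclusion hHG) ≤ ⁅H.subgroupOf G, H.subgroupOf G⁆ := by
    rw [commutator_def, Subgroup.map_commutator]
    apply Subgroup.commutator_mono
    · rintro x ⟨z, _, rfl⟩; exact z.2
    · rintro x ⟨z, _, rfl⟩; exact z.2
  obtain ⟨l, hl, e⟩ := CK_listH (hN _ (h1 ⟨g, hg, rfl⟩))
  exact ⟨l, hl, Subtype.ext e⟩

/-- groups with a subgroup of finite index isomorphic to a subgroup of finite index of `G` -/
theorem main_comm [Finite X] [Nontrivial X] {G K H : Subgroup (Tr X)} (hfg : G.FG)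
    (hss : SelfSimilar G) (ht : LevelTransitive G) (hKG : K ≤ G)
    (hKi : (K.subgroupOf G).FiniteIndex) (hKp : ContainsPower K)
    (hHF : HyperfiniteLevels G) (hMZ : MeasureZeroSingular G) (hHG : H ≤ G)
    (hHi : (H.subgroupOf G).FiniteIndex) {Γ : Type*} [Group Γ] (Γ₁ : Subgroup Γ)
    (hΓ₁ : Γ₁.FiniteIndex) (e : Γ₁ ≃* H) : FiniteCommutatorWidth Γ := by
  have hGfg : Group.FG G := (Group.fg_iff_subgroup_fg G).2 hfg
  have hHfg : Group.FG H := by
    have h1 : Group.FG (H.subgroupOf G) := Subgroup.fg_of_index_ne_zero _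
    exact Group.fg_of_surjective (f := (Subgroup.subgroupOfEquivOfLe hHG).toMonoidHom)
      (Subgroup.subgroupOfEquivOfLe hHG).surjective
  have hΓ₁fg : Group.FG Γ₁ := Group.fg_of_surjective (f := e.symm.toMonoidHom) e.symm.surjective
  have hΓfg : Group.FG Γ := Comm_fg Γ₁ hΓ₁ hΓ₁fg
  -- the normal core
  set N := Γ₁.normalCore with hN
  have hNn : N.Normal := Subgroup.normalCore_normal _
  have hNi : N.FiniteIndex := by rw [hN]; infer_instance
  have hNle : N ≤ Γ₁ := Subgroup.normalCore_le _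
  -- the corresponding subgroup of `G`
  set L : Subgroup (Tr X) := ((N.subgroupOf Γ₁).map e.toMonoidHom).map H.subtype with hL
  have hLH : L ≤ H := by
    rintro x ⟨y, _, rfl⟩
    exact y.2
  have hLi : (L.subgroupOf G).FiniteIndex := by
    have h1 : (N.subgroupOf Γ₁).FiniteIndex := by infer_instance
    have h2 : ((N.subgroupOf Γ₁).map e.toMonoidHom).FiniteIndex := by
      constructor
      have h3 := Subgroup.index_map_dvd (N.subgroupOf Γ₁) (f := e.toMonoidHom) e.surjective
      intro h4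
      rw [h4] at h3
      exact h1.index_ne_zero (Nat.eq_zero_of_zero_dvd h3)
    have h3 : L.subgroupOf H = (N.subgroupOf Γ₁).map e.toMonoidHom := by
      ext x
      rw [Subgroup.mem_subgroupOf, hL]
      constructor
      · rintro ⟨y, hy, hxy⟩
        have : y = x := Subtype.ext hxy
        rw [← this]; exact hy
      · intro hx
        exact ⟨x, hx, rfl⟩
    have h4 : L.relIndex H ≠ 0 := by
      show (L.subgroupOf H).index ≠ 0
      rw [h3]
      exact h2.index_ne_zero
    have h5 : H.relIndex G ≠ 0 := hHi.index_ne_zero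
    have h6 : L.relIndex G ≠ 0 := by
      rw [← Subgroup.relIndex_mul_relIndex L H G hLH hHG]
      exact mul_ne_zero h4 h5
    exact ⟨h6⟩
  have hLw : FiniteCommutatorWidth L :=
    main_MZ hfg hss ht hKG hKi hKp hHF hMZ (hLH.trans hHG) hLi
  -- the isomorphism
  have e1 : L ≃* N.subgroupOf Γ₁ :=
    ((N.subgroupOf Γ₁).equivMapOfInjective e.toMonoidHom e.injective).trans
      (((N.subgroupOf Γ₁).map e.toMonoidHom).equivMapOfInjective H.subtype
        (Subgroup.subtype_injective H)) |>.symm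
  have e2 : N.subgroupOf Γ₁ ≃* N := Subgroup.subgroupOfEquivOfLe hNle
  have hNw : FiniteCommutatorWidth N := (hLw.equiv e1).equiv e2
  obtain ⟨S, hS⟩ := exists_genList (⊤ : Subgroup Γ) hΓfg.out
  exact FiniteCommutatorWidth.of_normal N hNi hS hNw

/-- the disjunctive form of the hypotheses -/
theorem main_disj [Finite X] [Nontrivial X] {G K H : Subgroup (Tr X)} (hfg : G.FG)
    (hss : SelfSimilar G) (ht : LevelTransitive G) (hKG : K ≤ G)
    (hKi : (K.subgroupOf G).FiniteIndex) (hKp : ContainsPower K)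
    (h1 : HyperfiniteLevels G ∨ FolnerAmenable G ∨ SubexponentialGrowth G ∨
      SubexponentialOrbits G ∨ Contracting G)
    (h2 : MeasureZeroSingular G ∨ FiniteState G ∨ Contracting G) (hHG : H ≤ G)
    (hHi : (H.subgroupOf G).FiniteIndex) {Γ : Type*} [Group Γ] (Γ₁ : Subgroup Γ)
    (hΓ₁ : Γ₁.FiniteIndex) (e : Γ₁ ≃* H) : FiniteCommutatorWidth Γ := by
  have hHF : HyperfiniteLevels G := by
    rcases h1 with h | h | h | h | h
    · exact h
    · exact HF_of_Fol hss fun L => fol_of_folner h L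
    · exact HF_of_Fol hss fun L => fol_of_subexp h L
    · exact HF_of_orbits hss h
    · exact HF_of_orbits hss (orbits_of_contracting hss hfg h)
  have hMZ : MeasureZeroSingular G := by
    rcases h2 with h | h | h
    · exact h
    · exact MZ_of_finiteState hss h
    · exact MZ_of_finiteState hss (finiteState_of_contracting hss h)
  exact main_comm hfg hss ht hKG hKi hKp hHF hMZ hHG hHi Γ₁ hΓ₁ e

end Pool.Agent.MZ71
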